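import Pool.Agent.H47.Amal.Cell

/-!
Assembling the local data of all path cells.
-/

namespace Pool.Agent.H47.Amal

/-- Change the local data. -/
def Side.chg {E : Type*} (P : Side E) (us vs l : E → ℚ)
    (loc : Loc P.q P.u P.v P.lv P.p us vs l) : Side E :=
  ⟨P.q, P.u, P.v, P.lv, P.p, us, vs, l, P.cen, P.lev, loc⟩

/-- The trivial side. -/
theorem exists_side {E : Type*} [Finite E] {q : E → ZMod 4} {u v : E → ℚ} (h : Cen q u v) :
    ∃ P : Side E, P.q = q ∧ P.u = u ∧ P.v = v := by
  obtain ⟨lv, p, L⟩ := h.exists_lev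
  obtain ⟨δ, hδ, gap⟩ := exists_gap v
  exact ⟨⟨q, u, v, lv, p, u, v, fun g => v g + δ, h, L, ⟨fun g g' _ hv => gap g g' hv,
    fun g => by linarith, fun g g' _ hu => hu, h.hu⟩⟩, rfl, rfl, rfl⟩

section

variable {EP ES : Type*} {P : Side EP} {S : Side ES} {y : EP} {y' : ES}

theorem Side.noPat {E : Type*} (P : Side E) (e : E) : NoPat {g | P.sc g e} P.u P.v := by
  intro a ha b hb c hc d hd h1 h2 h3 h4 h5 h6
  have qa : P.q a = P.q e := ha.1
  have qb : P.q b = P.q e := hb.1
  have qc : P.q c = P.q e := hc.1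
  have qd : P.q d = P.q e := hd.1
  exact P.cen.ax.c0 a b c d (by rw [qa, qb]) (by rw [qb, qc]) (by rw [qc, qd]) h1 h2 h3 h4 h5 h6

theorem Side.actv {E : Type*} (P : Side E) {e g a c d : E} (hg : P.sc g e) (hp : P.par g)
    (ha : P.sc a e) (hc : P.sc c e) (hd : P.sc d e) (h1 : P.v a ≤ P.v g) (h2 : P.v g < P.v c)
    (h3 : P.v c < P.v d) (h4 : P.u d < P.u a) (h5 : P.u a < P.u c) : False := by
  obtain ⟨b, hb0, rfl⟩ := hp
  have p1 := P.lev.pq b hb0
  have p2 := P.lev.pl b hb0
  have p3 := P.lev.pv b hb0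
  have e2 : P.u b < P.v c := by
    have hq : P.q c = P.q b + 1 := by rw [← p1]; exact (hc.trans hg.symm).1
    rcases lt_trichotomy (P.u b) (P.v c) with h | h | h
    · exact h
    · exact absurd h.symm (P.cen.iuv c b hq)
    · have := P.lev.pm b c hb0 hq (by rw [(hc.trans hg.symm).2.1, p2]) h
      linarith
  exact P.cen.ax.c3 a b c d (ha.trans hc.symm).1 (hc.trans hd.symm).1
    (by rw [(ha.trans hg.symm).1, p1]) (by linarith) e2 h3 h4 h5

theorem assemble [Finite EP] [Finite ES] (hq : P.q y = S.q y') (hl : S.lv y' ≤ P.lv y)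
    (hlast : ∃ (usP vsP lP : EP → ℚ) (usS vsS lS : ES → ℚ),
      CellData {g | P.sc g y} {s | S.sc s y'} P.u P.v S.u S.v P.par S.par (fun _ _ => False)
        usP vsP lP usS vsS lS ∧ vsP y = vsS y' ∧ usP y = usS y') :
    ∃ (P' : Side EP) (S' : Side ES), P'.q = P.q ∧ P'.u = P.u ∧ P'.v = P.v ∧
      S'.q = S.q ∧ S'.u = S.u ∧ S'.v = S.v ∧ Joint P' S' y y' := by
  classical
  have key : ∀ k : ℕ, ∃ (usP vsP lP : EP → ℚ) (usS vsS lS : ES → ℚ),
      P.lv y - S.lv y' ≤ k → k ≤ P.lv y →
      CellData {g | P.sc g (P.anc y k)} {s | S.sc s (S.anc y' (k - (P.lv y - S.lv y')))}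
        P.u P.v S.u S.v P.par S.par (fun g s => k < P.lv y ∧ g = P.anc y k ∧
          s = S.anc y' (k - (P.lv y - S.lv y'))) usP vsP lP usS vsS lS ∧
      (k < P.lv y → lP (P.anc y k) = lS (S.anc y' (k - (P.lv y - S.lv y')))) ∧
      (k = P.lv y → vsP y = vsS y' ∧ usP y = usS y') := by
    intro k
    by_cases h1 : P.lv y - S.lv y' ≤ k
    · rcases lt_trichotomy k (P.lv y) with h2 | h2 | h2
      · obtain ⟨usP, vsP, lP, usS, vsS, lS, hD, hE⟩ := cell_mid
          (A := {g | P.sc g (P.anc y k)})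
          (B := {s | S.sc s (S.anc y' (k - (P.lv y - S.lv y')))})
          (u := P.u) (v := P.v) (u' := S.u) (v' := S.v)
          (fun g _ => P.cen.hu g)
          (fun g hg g' hg' h => P.cen.iu g g' (SC.trans hg (SC.symm hg')).1 h)
          (fun g hg g' hg' h => P.cen.iv g g' (SC.trans hg (SC.symm hg')).1 h)
          (P.noPat _) (fun g _ => S.cen.hu g) (fun g _ => S.cen.hv g)
          (fun g hg g' hg' h => S.cen.iv g g' (SC.trans hg (SC.symm hg')).1 h)
          (S.noPat _) (parP := P.par) (parS := S.par)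
          (fun g hg hp a ha c hc d hd => P.actv hg hp ha hc hd)
          (fun g hg hp a ha c hc d hd => S.actv hg hp ha hc hd)
          (e := P.anc y k) (f := S.anc y' (k - (P.lv y - S.lv y')))
          (SC.refl _) (SC.refl _)
          ⟨P.anc y (k + 1), by rw [Side.anc_lv (by omega)]; omega, Side.anc_p h2⟩
          ⟨S.anc y' (k - (P.lv y - S.lv y') + 1), by rw [Side.anc_lv (by omega)]; omega,
            Side.anc_p (by omega)⟩
        refine ⟨usP, vsP, lP, usS, vsS, lS, fun _ _ => ⟨?_, fun _ => hE, fun h => by omega⟩⟩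
        exact ⟨hD.la, hD.lb, hD.lc, hD.ld, hD.la', hD.lb', hD.lc', hD.ld', hD.h0, hD.h1, hD.h2,
          fun g hg s hs hpg hps h => ⟨h2, hD.h3 g hg s hs hpg hps h⟩, hD.h4⟩
      · obtain ⟨usP, vsP, lP, usS, vsS, lS, hD, hE⟩ := hlast
        refine ⟨usP, vsP, lP, usS, vsS, lS, fun _ _ => ⟨?_, fun h => by omega, fun _ => hE⟩⟩
        have e1 : P.anc y k = y := by rw [h2]; exact Side.anc_top y
        have e2 : S.anc y' (k - (P.lv y - S.lv y')) = y' := by
          rw [h2, show P.lv y - (P.lv y - S.lv y') = S.lv y' by omega]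
          exact Side.anc_top y'
        rw [e1, e2]
        exact ⟨hD.la, hD.lb, hD.lc, hD.ld, hD.la', hD.lb', hD.lc', hD.ld', hD.h0, hD.h1, hD.h2,
          fun g hg s hs hpg hps h => (hD.h3 g hg s hs hpg hps h).elim, hD.h4⟩
      · exact ⟨P.us, P.us, P.us, S.us, S.us, S.us, fun _ h => by omega⟩
    · exact ⟨P.us, P.us, P.us, S.us, S.us, S.us, fun h => absurd h h1⟩
  choose usP vsP lP usS vsS lS hkey using key
  let cP : EP → Prop := fun g => P.lv y - S.lv y' ≤ P.lv g ∧ P.lv g ≤ P.lv y ∧
    P.sc g (P.anc y (P.lv g))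
  let cS : ES → Prop := fun s => S.lv s ≤ S.lv y' ∧ S.sc s (S.anc y' (S.lv s))
  let kS : ES → ℕ := fun s => S.lv s + (P.lv y - S.lv y')
  let usP' : EP → ℚ := fun g => if cP g then usP (P.lv g) g else P.us g
  let vsP' : EP → ℚ := fun g => if cP g then vsP (P.lv g) g else P.vs g
  let lP' : EP → ℚ := fun g => if cP g then lP (P.lv g) g else P.l g
  let usS' : ES → ℚ := fun s => if cS s then usS (kS s) s else S.us s
  let vsS' : ES → ℚ := fun s => if cS s then vsS (kS s) s else S.vs s
  let lS' : ES → ℚ := fun s => if cS s then lS (kS s) s else S.l s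
  have cPsc : ∀ g g', P.sc g g' → (cP g ↔ cP g') := by
    intro g g' h
    have h1 : P.lv g = P.lv g' := h.2.1
    show (_ ∧ _ ∧ _) ↔ (_ ∧ _ ∧ _)
    rw [h1]
    constructor
    · rintro ⟨a, b, c⟩
      exact ⟨a, b, h.symm.trans c⟩
    · rintro ⟨a, b, c⟩
      exact ⟨a, b, h.trans c⟩
  have cSsc : ∀ g g', S.sc g g' → (cS g ↔ cS g') := by
    intro g g' h
    have h1 : S.lv g = S.lv g' := h.2.1
    show (_ ∧ _) ↔ (_ ∧ _)
    rw [h1]
    constructor
    · rintro ⟨a, c⟩
      exact ⟨a, h.symm.trans c⟩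
    · rintro ⟨a, c⟩
      exact ⟨a, h.trans c⟩
  have locP : Loc P.q P.u P.v P.lv P.p usP' vsP' lP' := by
    constructor
    · intro g g' h hv
      have h1 : P.lv g = P.lv g' := h.2.1
      by_cases hc : cP g
      · have hc' := (cPsc g g' h).1 hc
        have hD := (hkey (P.lv g) hc.1 hc.2.1).1
        show (if cP g then lP (P.lv g) g else P.l g) < (if cP g' then vsP (P.lv g') g' else P.vs g')
        rw [if_pos hc, if_pos hc', ← h1]
        exact hD.la g hc.2.2 g' (by
          have := hc'.2.2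
          rw [← h1] at this
          exact this) hv
      · have hc' : ¬ cP g' := fun h' => hc ((cPsc g g' h).2 h')
        show (if cP g then lP (P.lv g) g else P.l g) < (if cP g' then vsP (P.lv g') g' else P.vs g')
        rw [if_neg hc, if_neg hc']
        exact P.loc.la g g' h hv
    · intro g
      by_cases hc : cP g
      · have hD := (hkey (P.lv g) hc.1 hc.2.1).1
        show (if cP g then vsP (P.lv g) g else P.vs g) < (if cP g then lP (P.lv g) g else P.l g)
        rw [if_pos hc, if_pos hc]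
        exact hD.lb g hc.2.2
      · show (if cP g then vsP (P.lv g) g else P.vs g) < (if cP g then lP (P.lv g) g else P.l g)
        rw [if_neg hc, if_neg hc]
        exact P.loc.lb g
    · intro g g' h hv
      have h1 : P.lv g = P.lv g' := h.2.1
      by_cases hc : cP g
      · have hc' := (cPsc g g' h).1 hc
        have hD := (hkey (P.lv g) hc.1 hc.2.1).1
        show (if cP g then usP (P.lv g) g else P.us g) <
          (if cP g' then usP (P.lv g') g' else P.us g')
        rw [if_pos hc, if_pos hc', ← h1]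
        exact hD.lc g hc.2.2 g' (by
          have := hc'.2.2
          rw [← h1] at this
          exact this) hv
      · have hc' : ¬ cP g' := fun h' => hc ((cPsc g g' h).2 h')
        show (if cP g then usP (P.lv g) g else P.us g) <
          (if cP g' then usP (P.lv g') g' else P.us g')
        rw [if_neg hc, if_neg hc']
        exact P.loc.lc g g' h hv
    · intro g
      by_cases hc : cP g
      · have hD := (hkey (P.lv g) hc.1 hc.2.1).1
        show 0 < (if cP g then usP (P.lv g) g else P.us g)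
        rw [if_pos hc]
        exact hD.ld g hc.2.2
      · show 0 < (if cP g then usP (P.lv g) g else P.us g)
        rw [if_neg hc]
        exact P.loc.ld g
  have kSr : ∀ s, cS s → P.lv y - S.lv y' ≤ kS s ∧ kS s ≤ P.lv y ∧
      kS s - (P.lv y - S.lv y') = S.lv s := by
    intro s hs
    have := hs.1
    show _ ≤ S.lv s + (P.lv y - S.lv y') ∧ S.lv s + (P.lv y - S.lv y') ≤ _ ∧
      S.lv s + (P.lv y - S.lv y') - _ = _
    omega
  have locS : Loc S.q S.u S.v S.lv S.p usS' vsS' lS' := by
    constructor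
    · intro g g' h hv
      have h1 : S.lv g = S.lv g' := h.2.1
      have h2 : kS g = kS g' := by show S.lv g + _ = S.lv g' + _; rw [h1]
      by_cases hc : cS g
      · have hc' := (cSsc g g' h).1 hc
        obtain ⟨r1, r2, r3⟩ := kSr g hc
        have hD := (hkey (kS g) r1 r2).1
        rw [r3] at hD
        show (if cS g then lS (kS g) g else S.l g) < (if cS g' then vsS (kS g') g' else S.vs g')
        rw [if_pos hc, if_pos hc', ← h2]
        exact hD.la' g hc.2 g' (by
          have := hc'.2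
          rw [← h1] at this
          exact this) hv
      · have hc' : ¬ cS g' := fun h' => hc ((cSsc g g' h).2 h')
        show (if cS g then lS (kS g) g else S.l g) < (if cS g' then vsS (kS g') g' else S.vs g')
        rw [if_neg hc, if_neg hc']
        exact S.loc.la g g' h hv
    · intro g
      by_cases hc : cS g
      · obtain ⟨r1, r2, r3⟩ := kSr g hc
        have hD := (hkey (kS g) r1 r2).1
        rw [r3] at hD
        show (if cS g then vsS (kS g) g else S.vs g) < (if cS g then lS (kS g) g else S.l g)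
        rw [if_pos hc, if_pos hc]
        exact hD.lb' g hc.2
      · show (if cS g then vsS (kS g) g else S.vs g) < (if cS g then lS (kS g) g else S.l g)
        rw [if_neg hc, if_neg hc]
        exact S.loc.lb g
    · intro g g' h hv
      have h1 : S.lv g = S.lv g' := h.2.1
      have h2 : kS g = kS g' := by show S.lv g + _ = S.lv g' + _; rw [h1]
      by_cases hc : cS g
      · have hc' := (cSsc g g' h).1 hc
        obtain ⟨r1, r2, r3⟩ := kSr g hc
        have hD := (hkey (kS g) r1 r2).1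
        rw [r3] at hD
        show (if cS g then usS (kS g) g else S.us g) <
          (if cS g' then usS (kS g') g' else S.us g')
        rw [if_pos hc, if_pos hc', ← h2]
        exact hD.lc' g hc.2 g' (by
          have := hc'.2
          rw [← h1] at this
          exact this) hv
      · have hc' : ¬ cS g' := fun h' => hc ((cSsc g g' h).2 h')
        show (if cS g then usS (kS g) g else S.us g) <
          (if cS g' then usS (kS g') g' else S.us g')
        rw [if_neg hc, if_neg hc']
        exact S.loc.lc g g' h hv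
    · intro g
      by_cases hc : cS g
      · obtain ⟨r1, r2, r3⟩ := kSr g hc
        have hD := (hkey (kS g) r1 r2).1
        rw [r3] at hD
        show 0 < (if cS g then usS (kS g) g else S.us g)
        rw [if_pos hc]
        exact hD.ld' g hc.2
      · show 0 < (if cS g then usS (kS g) g else S.us g)
        rw [if_neg hc]
        exact S.loc.ld g
  -- values on the path cells
  have inP : ∀ k, P.lv y - S.lv y' ≤ k → k ≤ P.lv y → ∀ g, P.sc g (P.anc y k) →
      usP' g = usP k g ∧ vsP' g = vsP k g ∧ lP' g = lP k g := by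
    intro k h1 h2 g hg
    have h3 : P.lv g = k := by
      have h4 : P.lv g = P.lv (P.anc y k) := hg.2.1
      rw [h4]
      exact Side.anc_lv h2
    have hc : cP g := ⟨by omega, by omega, by rw [h3]; exact hg⟩
    refine ⟨?_, ?_, ?_⟩
    · show (if cP g then usP (P.lv g) g else P.us g) = _
      rw [if_pos hc, h3]
    · show (if cP g then vsP (P.lv g) g else P.vs g) = _
      rw [if_pos hc, h3]
    · show (if cP g then lP (P.lv g) g else P.l g) = _
      rw [if_pos hc, h3]
  have inS : ∀ k, P.lv y - S.lv y' ≤ k → k ≤ P.lv y → ∀ s,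
      S.sc s (S.anc y' (k - (P.lv y - S.lv y'))) →
      usS' s = usS k s ∧ vsS' s = vsS k s ∧ lS' s = lS k s := by
    intro k h1 h2 s hs
    have h3 : S.lv s = k - (P.lv y - S.lv y') := by
      have h4 : S.lv s = S.lv (S.anc y' (k - (P.lv y - S.lv y'))) := hs.2.1
      rw [h4]
      exact Side.anc_lv (by omega)
    have hc : cS s := ⟨by omega, by rw [h3]; exact hs⟩
    have h5 : kS s = k := by show S.lv s + _ = _; omega
    refine ⟨?_, ?_, ?_⟩
    · show (if cS s then usS (kS s) s else S.us s) = _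
      rw [if_pos hc, h5]
    · show (if cS s then vsS (kS s) s else S.vs s) = _
      rw [if_pos hc, h5]
    · show (if cS s then lS (kS s) s else S.l s) = _
      rw [if_pos hc, h5]
  have inT : ∀ k, P.lv y - S.lv y' ≤ k → k ≤ P.lv y → ∀ t : EP ⊕ ES, MC P S y y' k t →
      Sum.elim (· ∈ {g | P.sc g (P.anc y k)})
        (· ∈ {s | S.sc s (S.anc y' (k - (P.lv y - S.lv y')))}) t ∧
      Sum.elim usP' usS' t = Sum.elim (usP k) (usS k) t ∧
      Sum.elim vsP' vsS' t = Sum.elim (vsP k) (vsS k) t ∧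
      Sum.elim lP' lS' t = Sum.elim (lP k) (lS k) t := by
    rintro k h1 h2 (g | s) ht
    · exact ⟨ht, inP k h1 h2 g ht⟩
    · exact ⟨ht, inS k h1 h2 s ht⟩
  refine ⟨P.chg usP' vsP' lP' locP, S.chg usS' vsS' lS' locS, rfl, rfl, rfl, rfl, rfl, rfl, ?_⟩
  refine ⟨hq, hl, ?_, ?_, ?_, ?_, ?_, ?_, ?_⟩
  · intro k hk1 hk2 a b c d ma mb mc md
    obtain ⟨a1, a2, a3, a4⟩ := inT k hk1 hk2 a ma
    obtain ⟨b1, b2, b3, b4⟩ := inT k hk1 hk2 b mb
    obtain ⟨c1, c2, c3, c4⟩ := inT k hk1 hk2 c mc
    obtain ⟨d1, d2, d3, d4⟩ := inT k hk1 hk2 d md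
    show Sum.elim vsP' vsS' a < Sum.elim vsP' vsS' b → Sum.elim vsP' vsS' b < Sum.elim vsP' vsS' c →
      Sum.elim vsP' vsS' c < Sum.elim vsP' vsS' d → Sum.elim usP' usS' b < Sum.elim usP' usS' d →
      Sum.elim usP' usS' d < Sum.elim usP' usS' a → Sum.elim usP' usS' a < Sum.elim usP' usS' c →
      False
    rw [a2, a3, b2, b3, c2, c3, d2, d3]
    exact (hkey k hk1 hk2).1.h0 a b c d a1 b1 c1 d1
  · intro k hk1 hk2 g t mg mt hp
    obtain ⟨a1, a2, a3, a4⟩ := inT k hk1 hk2 g mg
    obtain ⟨b1, b2, b3, b4⟩ := inT k hk1 hk2 t mt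
    show Sum.elim vsP' vsS' t ≠ Sum.elim lP' lS' g
    rw [b3, a4]
    exact (hkey k hk1 hk2).1.h1 g t a1 b1 hp
  · intro k hk1 hk2 g a c e mg ma mc me hp
    obtain ⟨g1, g2, g3, g4⟩ := inT k hk1 hk2 g mg
    obtain ⟨a1, a2, a3, a4⟩ := inT k hk1 hk2 a ma
    obtain ⟨c1, c2, c3, c4⟩ := inT k hk1 hk2 c mc
    obtain ⟨e1, e2, e3, e4⟩ := inT k hk1 hk2 e me
    show Sum.elim vsP' vsS' a < Sum.elim lP' lS' g → Sum.elim lP' lS' g < Sum.elim vsP' vsS' c →
      Sum.elim vsP' vsS' c < Sum.elim vsP' vsS' e → Sum.elim usP' usS' e < Sum.elim usP' usS' a →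
      Sum.elim usP' usS' a < Sum.elim usP' usS' c → False
    rw [g4, a2, a3, c2, c3, e2, e3]
    exact (hkey k hk1 hk2).1.h2 g a c e g1 a1 c1 e1 hp
  · intro k hk1 hk2 g s mg ms hpg hps h
    have h' : lP' g = lS' s := h
    rw [(inP k hk1 hk2 g mg).2.2, (inS k hk1 hk2 s ms).2.2] at h'
    exact (hkey k hk1 hk2).1.h3 g mg s ms hpg hps h'
  · intro k hk1 hk2
    have hk2 : k < P.lv y := hk2
    have hk1 : P.lv y - S.lv y' ≤ k := hk1
    show lP' (P.anc y k) = lS' (S.anc y' (k - (P.lv y - S.lv y')))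
    rw [(inP k hk1 (by omega) _ (SC.refl _)).2.2, (inS k hk1 (by omega) _ (SC.refl _)).2.2]
    exact (hkey k hk1 (by omega)).2.1 hk2
  · intro k hk1 hk2 g s mg ms
    show vsP' g = vsS' s ↔ usP' g = usS' s
    rw [(inP k hk1 hk2 g mg).1, (inP k hk1 hk2 g mg).2.1, (inS k hk1 hk2 s ms).1,
      (inS k hk1 hk2 s ms).2.1]
    exact (hkey k hk1 hk2).1.h4 g mg s ms
  · have hP := inP (P.lv y) (by omega) le_rfl y (by rw [Side.anc_top]; exact SC.refl _)
    have hS := inS (P.lv y) (by omega) le_rfl y' (by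
      rw [show P.lv y - (P.lv y - S.lv y') = S.lv y' by omega, Side.anc_top]
      exact SC.refl _)
    show vsP' y = vsS' y' ∧ usP' y = usS' y'
    rw [hP.1, hP.2.1, hS.1, hS.2.1]
    exact (hkey (P.lv y) (by omega) le_rfl).2.2 rfl

end

end Pool.Agent.H47.Amal
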