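import Pool.Agent.H47.Amal.Glue

/-!
Local data for merging two cells at an active site.
-/

namespace Pool.Agent.H47.Amal

/-- The gap lemma. -/
theorem exists_gap {I : Type*} [Finite I] (f : I → ℚ) :
    ∃ d : ℚ, 0 < d ∧ ∀ i j, f i < f j → f i + d < f j := by
  classical
  have := Fintype.ofFinite I
  let s : Finset (I × I) := Finset.univ.filter (fun x => f x.1 < f x.2)
  rcases s.eq_empty_or_nonempty with h | h
  · refine ⟨1, one_pos, fun i j hij => ?_⟩
    have : (i, j) ∈ s := by simp [s, hij]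
    rw [h] at this
    simp at this
  · obtain ⟨x, hx, hx'⟩ := s.exists_min_image (fun x => f x.2 - f x.1) h
    have h0 : f x.1 < f x.2 := by simpa [s] using hx
    refine ⟨(f x.2 - f x.1) / 2, by linarith, fun i j hij => ?_⟩
    have := hx' (i, j) (by simp [s, hij])
    simp only at this
    linarith

/-- The bounded increasing function. -/
def phi (t : ℚ) : ℚ := t / (1 + t)

theorem phi_lt {s t : ℚ} (hs : 0 < s) (hst : s < t) : phi s < phi t := by
  unfold phi
  rw [div_lt_div_iff₀ (by linarith) (by linarith)]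
  nlinarith

theorem phi_pos {s : ℚ} (hs : 0 < s) : 0 < phi s := by
  unfold phi
  positivity

theorem phi_lt_one {s : ℚ} (hs : 0 < s) : phi s < 1 := by
  unfold phi
  rw [div_lt_one (by linarith)]
  linarith

theorem lt_of_phi {s t : ℚ} (ht : 0 < t) (h : phi s < phi t) : s < t := by
  by_contra hc
  push Not at hc
  rcases hc.lt_or_eq with h1 | h1
  · have := phi_lt ht h1
    linarith
  · rw [h1] at h
    exact lt_irrefl _ h

/-- No pattern inside a cell. -/
def NoPat {E : Type*} (A : Set E) (u v : E → ℚ) : Prop :=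
  ∀ a ∈ A, ∀ b ∈ A, ∀ c ∈ A, ∀ d ∈ A, v a < v b → v b < v c → v c < v d →
    u b < u d → u d < u a → u a < u c → False

/-- A cut position which can receive an element of the next quadrant. -/
def Site {E : Type*} (A : Set E) (u v : E → ℚ) (t : ℚ) : Prop :=
  (∀ g ∈ A, v g ≠ t) ∧ ∀ a ∈ A, ∀ c ∈ A, ∀ d ∈ A, v a < t → t < v c → v c < v d →
    u d < u a → u a < u c → False

theorem claimB {E : Type*} [Finite E] {A : Set E} {u v : E → ℚ} (hu : ∀ g ∈ A, 0 < u g)
    (iu : ∀ g ∈ A, ∀ g' ∈ A, u g = u g' → g = g') (h0 : NoPat A u v) (te : ℚ) :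
    ∃ c : ℚ, 0 ≤ c ∧ (c = 0 ∨ ∃ g ∈ A, u g = c) ∧
      (∀ g ∈ A, v g ≠ te → u g ≤ c → v g < te) ∧
      (∀ a ∈ A, ∀ b ∈ A, ∀ d ∈ A, v a < v b → v b < v d → v d < te → u b ≤ c → c < u a →
        u a < u d → False) ∧
      (∀ t, Site A u v t → t < te → ∀ a ∈ A, ∀ d ∈ A, v a < t → t < v d → v d < te → c < u a →
        u a < u d → False) := by
  classical
  let Q : ℚ → Prop := fun c => ∀ t, Site A u v t → t < te → ∀ a ∈ A, ∀ d ∈ A, v a < t →
    t < v d → v d < te → c < u a → u a < u d → False
  let F : Set ℚ := insert 0 (u '' A)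
  have hF : F.Finite := Set.Finite.insert _ (Set.toFinite _)
  have hF0 : ∀ c ∈ F, 0 ≤ c := by
    rintro c (rfl | ⟨g, hg, rfl⟩)
    · exact le_rfl
    · exact (hu g hg).le
  obtain ⟨M, hM, hM'⟩ := Set.exists_max_image F id hF ⟨0, Or.inl rfl⟩
  have hMW : M ∈ F ∩ {c | Q c} := by
    refine ⟨hM, ?_⟩
    intro t _ _ a ha d _ _ _ _ h1 _
    have := hM' (u a) (Or.inr ⟨a, ha, rfl⟩)
    simp only [id] at this
    linarith
  obtain ⟨c, hc, hcmin⟩ := Set.exists_min_image (F ∩ {c | Q c}) id
    (hF.subset Set.inter_subset_left) ⟨M, hMW⟩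
  obtain ⟨hcF, hcQ⟩ := hc
  have hcQ' : Q c := hcQ
  have c0 := hF0 c hcF
  rcases hcF with rfl | ⟨g0, hg0, rfl⟩
  · refine ⟨0, le_rfl, Or.inl rfl, ?_, ?_, hcQ'⟩
    · intro g hg _ h
      have := hu g hg
      linarith
    · intro a _ b hb d _ _ _ _ h _ _
      have := hu b hb
      linarith
  · -- there is a witness
    have hwit : ∃ t, Site A u v t ∧ t < te ∧ ∃ d ∈ A, v g0 < t ∧ t < v d ∧ v d < te ∧
        u g0 < u d := by
      by_contra hno
      push Not at hno
      have hpos := hu g0 hg0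
      obtain ⟨c1, hc1, hc1'⟩ := Set.exists_max_image (F ∩ {c | c < u g0}) id
        (hF.subset Set.inter_subset_left) ⟨0, Or.inl rfl, hpos⟩
      have hc1Q : Q c1 := by
        intro t ht1 ht2 a ha d hd h1 h2 h3 h4 h5
        rcases lt_trichotomy (u a) (u g0) with h | h | h
        · have := hc1' (u a) ⟨Or.inr ⟨a, ha, rfl⟩, h⟩
          simp only [id] at this
          linarith
        · have h6 := iu a ha g0 hg0 h
          subst h6
          have := hno t ht1 ht2 d hd h1 h2 h3
          linarith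
        · exact hcQ' t ht1 ht2 a ha d hd h1 h2 h3 h h5
      have := hcmin c1 ⟨hc1.1, hc1Q⟩
      simp only [id] at this
      have h7 : c1 < u g0 := hc1.2
      linarith
    obtain ⟨t, ht, hte, d, hd, w1, w2, w3, w4⟩ := hwit
    refine ⟨u g0, c0, Or.inr ⟨g0, hg0, rfl⟩, ?_, ?_, hcQ'⟩
    · intro g hg hne hle
      by_contra hc
      push Not at hc
      have hlt : te < v g := lt_of_le_of_ne hc hne.symm
      rcases hle.lt_or_eq with h | h
      · exact ht.2 g0 hg0 d hd g hg w1 w2 (w3.trans hlt) h w4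
      · have := iu g hg g0 hg0 h
        subst this
        linarith
    · intro a ha b hb d' hd' k1 k2 k3 k4 k5 k6
      have hne : v d' ≠ t := ht.1 d' hd'
      have hne' : v a ≠ t := ht.1 a ha
      rcases lt_trichotomy (v d') t with h | h | h
      · have h1 : u d < u a := by
          rcases lt_trichotomy (u d) (u a) with h2 | h2 | h2
          · exact h2
          · have := iu d hd a ha h2
            subst this
            linarith
          · exact absurd (hcQ' t ht hte a ha d hd (by linarith) w2 w3 k5 h2) id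
        exact h0 a ha b hb d' hd' d hd k1 k2 (h.trans w2) (by linarith) h1 k6
      · exact hne h
      · rcases lt_trichotomy (v a) t with h' | h' | h'
        · exact hcQ' t ht hte a ha d' hd' h' h k3 k5 k6
        · exact hne' h'
        · have hb' : u b < u g0 := by
            rcases k4.lt_or_eq with h2 | h2
            · exact h2
            · have := iu b hb g0 hg0 h2
              subst this
              linarith
          exact ht.2 g0 hg0 a ha b hb w1 h' k1 hb' k5

/-- Local data on a pair of cells. -/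
structure CellData {EP ES : Type*} (A : Set EP) (B : Set ES) (uP vP : EP → ℚ) (uS vS : ES → ℚ)
    (parP : EP → Prop) (parS : ES → Prop) (R : EP → ES → Prop) (usP vsP lP : EP → ℚ)
    (usS vsS lS : ES → ℚ) : Prop where
  la : ∀ g ∈ A, ∀ g' ∈ A, vP g < vP g' → lP g < vsP g'
  lb : ∀ g ∈ A, vsP g < lP g
  lc : ∀ g ∈ A, ∀ g' ∈ A, uP g < uP g' → usP g < usP g'
  ld : ∀ g ∈ A, 0 < usP g
  la' : ∀ g ∈ B, ∀ g' ∈ B, vS g < vS g' → lS g < vsS g'
  lb' : ∀ g ∈ B, vsS g < lS g
  lc' : ∀ g ∈ B, ∀ g' ∈ B, uS g < uS g' → usS g < usS g'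
  ld' : ∀ g ∈ B, 0 < usS g
  h0 : ∀ a b c d : EP ⊕ ES, Sum.elim (· ∈ A) (· ∈ B) a → Sum.elim (· ∈ A) (· ∈ B) b →
    Sum.elim (· ∈ A) (· ∈ B) c → Sum.elim (· ∈ A) (· ∈ B) d →
    Sum.elim vsP vsS a < Sum.elim vsP vsS b → Sum.elim vsP vsS b < Sum.elim vsP vsS c →
    Sum.elim vsP vsS c < Sum.elim vsP vsS d → Sum.elim usP usS b < Sum.elim usP usS d →
    Sum.elim usP usS d < Sum.elim usP usS a → Sum.elim usP usS a < Sum.elim usP usS c → False
  h1 : ∀ g t : EP ⊕ ES, Sum.elim (· ∈ A) (· ∈ B) g → Sum.elim (· ∈ A) (· ∈ B) t →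
    Sum.elim parP parS g → Sum.elim vsP vsS t ≠ Sum.elim lP lS g
  h2 : ∀ g a c e : EP ⊕ ES, Sum.elim (· ∈ A) (· ∈ B) g → Sum.elim (· ∈ A) (· ∈ B) a →
    Sum.elim (· ∈ A) (· ∈ B) c → Sum.elim (· ∈ A) (· ∈ B) e → Sum.elim parP parS g →
    Sum.elim vsP vsS a < Sum.elim lP lS g → Sum.elim lP lS g < Sum.elim vsP vsS c →
    Sum.elim vsP vsS c < Sum.elim vsP vsS e → Sum.elim usP usS e < Sum.elim usP usS a →
    Sum.elim usP usS a < Sum.elim usP usS c → False
  h3 : ∀ g ∈ A, ∀ s ∈ B, parP g → parS s → lP g = lS s → R g s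
  h4 : ∀ g ∈ A, ∀ s ∈ B, (vsP g = vsS s ↔ usP g = usS s)

theorem cell_mid {EP ES : Type*} [Finite EP] [Finite ES] {A : Set EP} {B : Set ES}
    {u v : EP → ℚ} {u' v' : ES → ℚ} (hu : ∀ g ∈ A, 0 < u g)
    (iu : ∀ g ∈ A, ∀ g' ∈ A, u g = u g' → g = g') (iv : ∀ g ∈ A, ∀ g' ∈ A, v g = v g' → g = g')
    (n0 : NoPat A u v) (hu' : ∀ g ∈ B, 0 < u' g) (hv' : ∀ g ∈ B, 0 < v' g)
    (iv' : ∀ g ∈ B, ∀ g' ∈ B, v' g = v' g' → g = g')
    (n0' : NoPat B u' v') {parP : EP → Prop} {parS : ES → Prop}
    (ap : ∀ g ∈ A, parP g → ∀ a ∈ A, ∀ c ∈ A, ∀ d ∈ A, v a ≤ v g → v g < v c → v c < v d →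
      u d < u a → u a < u c → False)
    (ap' : ∀ g ∈ B, parS g → ∀ a ∈ B, ∀ c ∈ B, ∀ d ∈ B, v' a ≤ v' g → v' g < v' c →
      v' c < v' d → u' d < u' a → u' a < u' c → False)
    {e : EP} {f : ES} (he : e ∈ A) (hf : f ∈ B) (pe : parP e) (pf : parS f) :
    ∃ (usP vsP lP : EP → ℚ) (usS vsS lS : ES → ℚ),
      CellData A B u v u' v' parP parS (fun g s => g = e ∧ s = f) usP vsP lP usS vsS lS ∧
      lP e = lS f := by
  classical
  -- the gaps
  obtain ⟨δ, hδ, gap⟩ := exists_gap (fun x : Option (EP ⊕ EP) =>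
    match x with
    | none => (0 : ℚ)
    | some (Sum.inl g) => u g
    | some (Sum.inr g) => v g)
  obtain ⟨η, hη, gap'⟩ := exists_gap (fun x : ES => v' x)
  have gv : ∀ g g' : EP, v g < v g' → v g + δ < v g' := fun g g' h =>
    gap (some (Sum.inr g)) (some (Sum.inr g')) h
  have gu : ∀ g g' : EP, u g < u g' → u g + δ < u g' := fun g g' h =>
    gap (some (Sum.inl g)) (some (Sum.inl g')) h
  have gu0 : ∀ g : EP, 0 < u g → 0 + δ < u g := fun g h =>
    gap none (some (Sum.inl g)) h
  obtain ⟨c, c0, hcF, ci, cii, ciii⟩ := claimB hu iu n0 (v e + δ)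
  have nte : ∀ g : EP, ∀ g' : EP, v g ≠ v g' + δ := by
    intro g g' h
    have h1 : v g' < v g := by linarith
    have := gv g' g h1
    linarith
  have ci' : ∀ g ∈ A, u g ≤ c → v g ≤ v e := by
    intro g hg hle
    have h1 := ci g hg (nte g e) hle
    by_contra hc
    push Not at hc
    have := gv e g hc
    linarith
  -- comparison facts
  have V1 : ∀ g : EP, ∀ x : ℚ, x < 1 → v g < v e + δ * x → v g ≤ v e := by
    intro g x hx h
    by_contra hc
    push Not at hc
    have := gv e g hc
    nlinarith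
  have V2 : ∀ g : EP, ∀ x : ℚ, 0 < x → v e + δ * x < v g → v e + δ < v g := by
    intro g x hx h
    have : 0 < δ * x := mul_pos hδ hx
    exact gv e g (by linarith)
  have U1 : ∀ g ∈ A, ∀ x : ℚ, x < 1 → u g < c + δ * x → u g ≤ c := by
    intro g hg x hx h
    by_contra hc
    push Not at hc
    have h2 : c + δ < u g := by
      rcases hcF with h0 | ⟨g0, hg0, h0⟩
      · rw [h0]
        exact gu0 g (hu g hg)
      · rw [← h0] at hc ⊢
        exact gu g0 g hc
    nlinarith
  have U2 : ∀ g : EP, ∀ x : ℚ, 0 < x → c + δ * x < u g → c < u g := by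
    intro g x hx h
    have : 0 < δ * x := mul_pos hδ hx
    linarith
  have W1 : ∀ g : EP, ∀ x : ℚ, 0 < x → x < 1 → v g ≠ v e + δ * x := by
    intro g x hx hx1 h
    have : 0 < δ * x := mul_pos hδ hx
    have h2 := gv e g (by linarith)
    nlinarith
  have W2 : ∀ g : EP, ∀ x : ℚ, g ∈ A → 0 < x → x < 1 → u g ≠ c + δ * x := by
    intro g x hg hx hx1 h
    have h3 : 0 < δ * x := mul_pos hδ hx
    have h2 : c + δ < u g := by
      rcases hcF with h0 | ⟨g0, hg0, h0⟩
      · rw [h0]
        exact gu0 g (hu g hg)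
      · rw [← h0]
        exact gu g0 g (by rw [h0]; linarith)
    nlinarith
  have pv0 : ∀ s ∈ B, 0 < phi (v' s) := fun s hs => phi_pos (hv' s hs)
  have pv1 : ∀ s ∈ B, phi (v' s) < 1 := fun s hs => phi_lt_one (hv' s hs)
  have pu0 : ∀ s ∈ B, 0 < phi (u' s) := fun s hs => phi_pos (hu' s hs)
  have pu1 : ∀ s ∈ B, phi (u' s) < 1 := fun s hs => phi_lt_one (hu' s hs)
  have pl0 : ∀ s ∈ B, 0 < phi (v' s + η) := fun s hs => phi_pos (by linarith [hv' s hs])
  have pl1 : ∀ s ∈ B, phi (v' s + η) < 1 := fun s hs => phi_lt_one (by linarith [hv' s hs])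
  have mulφ : ∀ x z : ℚ, δ * x < δ * z ↔ x < z := fun x z => mul_lt_mul_iff_right₀ hδ
  have act_e : ∀ a ∈ A, ∀ c ∈ A, ∀ d ∈ A, v a ≤ v e → v e < v c → v c < v d →
      u d < u a → u a < u c → False := ap e he pe
  have A0 : ∀ a b cc d : EP ⊕ ES, Sum.elim (· ∈ A) (· ∈ B) a → Sum.elim (· ∈ A) (· ∈ B) b →
      Sum.elim (· ∈ A) (· ∈ B) cc → Sum.elim (· ∈ A) (· ∈ B) d →
      Sum.elim v (fun s => v e + δ * phi (v' s)) a < Sum.elim v (fun s => v e + δ * phi (v' s)) b →
      Sum.elim v (fun s => v e + δ * phi (v' s)) b < Sum.elim v (fun s => v e + δ * phi (v' s)) cc →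
      Sum.elim v (fun s => v e + δ * phi (v' s)) cc < Sum.elim v (fun s => v e + δ * phi (v' s)) d →
      Sum.elim u (fun s => c + δ * phi (u' s)) b < Sum.elim u (fun s => c + δ * phi (u' s)) d →
      Sum.elim u (fun s => c + δ * phi (u' s)) d < Sum.elim u (fun s => c + δ * phi (u' s)) a →
      Sum.elim u (fun s => c + δ * phi (u' s)) a < Sum.elim u (fun s => c + δ * phi (u' s)) cc →
      False := by
    intro a b cc d ma mb mc md k1 k2 k3 k4 k5 k6
    rcases a with a | a <;> rcases b with b | b <;> rcases cc with cc | cc <;>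
      rcases d with d | d <;> simp only [Sum.elim_inl, Sum.elim_inr] at ma mb mc md k1 k2 k3 k4 k5 k6
    · -- AAAA
      exact n0 a ma b mb cc mc d md k1 k2 k3 k4 k5 k6
    · -- AAAB
      have h1 := V1 cc _ (pv1 d md) k3
      have h2 := U1 b mb _ (pu1 d md) k4
      have h3 := U2 a _ (pu0 d md) k5
      exact cii a ma b mb cc mc k1 k2 (by linarith) h2 h3 k6
    · -- AABA
      have h1 := V2 d _ (pv0 cc mc) k3
      have h2 := U1 a ma _ (pu1 cc mc) k6
      have h3 := ci' d md (by linarith)
      linarith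
    · -- AABB
      have h2 := U1 a ma _ (pu1 cc mc) k6
      have h3 := U2 a _ (pu0 d md) k5
      linarith
    · -- ABAA
      have h1 := V1 a _ (pv1 b mb) k1
      have h2 := V2 cc _ (pv0 b mb) k2
      exact act_e a ma cc mc d md h1 (by linarith) k3 k5 k6
    · -- ABAB
      have h1 := V1 cc _ (pv1 d md) k3
      have h2 := V2 cc _ (pv0 b mb) k2
      linarith
    · -- ABBA
      have h1 := U2 d _ (pu0 b mb) k4
      have h2 := U1 a ma _ (pu1 cc mc) k6
      linarith
    · -- ABBB
      have h1 := U2 a _ (pu0 d md) k5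
      have h2 := U1 a ma _ (pu1 cc mc) k6
      linarith
    · -- BAAA
      have h1 := V2 b _ (pv0 a ma) k1
      have h2 := U1 d md _ (pu1 a ma) k5
      have h3 := ci' b mb (by linarith)
      linarith
    · -- BAAB
      have h1 := V2 b _ (pv0 a ma) k1
      have h2 := V1 cc _ (pv1 d md) k3
      linarith
    · -- BABA
      have h1 := V2 b _ (pv0 a ma) k1
      have h2 := V1 b _ (pv1 cc mc) k2
      linarith
    · -- BABB
      have h1 := V2 b _ (pv0 a ma) k1
      have h2 := V1 b _ (pv1 cc mc) k2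
      linarith
    · -- BBAA
      have h1 := U2 d _ (pu0 b mb) k4
      have h2 := U1 d md _ (pu1 a ma) k5
      linarith
    · -- BBAB
      have h1 := V2 cc _ (pv0 b mb) k2
      have h2 := V1 cc _ (pv1 d md) k3
      linarith
    · -- BBBA
      have h1 := U2 d _ (pu0 b mb) k4
      have h2 := U1 d md _ (pu1 a ma) k5
      linarith
    · -- BBBB
      rw [add_lt_add_iff_left, mulφ] at k1 k2 k3 k4 k5 k6
      exact n0' a ma b mb cc mc d md (lt_of_phi (hv' b mb) k1) (lt_of_phi (hv' cc mc) k2)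
        (lt_of_phi (hv' d md) k3) (lt_of_phi (hu' d md) k4) (lt_of_phi (hu' a ma) k5)
        (lt_of_phi (hu' cc mc) k6)
  have HA : ∀ g ∈ A, g ≠ e → parP g → ∀ a cc d : EP ⊕ ES, Sum.elim (· ∈ A) (· ∈ B) a →
      Sum.elim (· ∈ A) (· ∈ B) cc → Sum.elim (· ∈ A) (· ∈ B) d →
      Sum.elim v (fun s => v e + δ * phi (v' s)) a < v g + δ →
      v g + δ < Sum.elim v (fun s => v e + δ * phi (v' s)) cc →
      Sum.elim v (fun s => v e + δ * phi (v' s)) cc < Sum.elim v (fun s => v e + δ * phi (v' s)) d →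
      Sum.elim u (fun s => c + δ * phi (u' s)) d < Sum.elim u (fun s => c + δ * phi (u' s)) a →
      Sum.elim u (fun s => c + δ * phi (u' s)) a < Sum.elim u (fun s => c + δ * phi (u' s)) cc →
      False := by
    intro g hg hge hpg a cc d ma mc md k1 k2 k3 k5 k6
    have hact : ∀ a ∈ A, ∀ c ∈ A, ∀ d ∈ A, v a < v g + δ → v g + δ < v c → v c < v d →
        u d < u a → u a < u c → False := by
      intro a ha c hc d hd h1 h2 h3 h4 h5
      have h1' : v a ≤ v g := by
        by_contra hcon
        push Not at hcon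
        have := gv g a hcon
        linarith
      exact ap g hg hpg a ha c hc d hd h1' (by linarith) h3 h4 h5
    have hsite : Site A u v (v g + δ) := ⟨fun g' _ => nte g' g, hact⟩
    have hne : v g ≠ v e := fun h => hge (iv g hg e he h)
    have T2 : ∀ x : ℚ, 0 < x → v e + δ * x < v g + δ → v e + δ < v g := by
      intro x hx h
      have h0 : 0 < δ * x := mul_pos hδ hx
      rcases lt_or_gt_of_ne hne with h1 | h1
      · have := gv g e h1
        linarith
      · exact gv e g h1
    have T3 : ∀ x : ℚ, x < 1 → v g + δ < v e + δ * x → v g + δ < v e := by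
      intro x hx h
      rcases lt_or_gt_of_ne hne with h1 | h1
      · exact gv g e h1
      · have := gv e g h1
        nlinarith
    rcases a with a | a <;> rcases cc with cc | cc <;>
      rcases d with d | d <;> simp only [Sum.elim_inl, Sum.elim_inr] at ma mc md k1 k2 k3 k5 k6
    · -- AAA
      exact hact a ma cc mc d md k1 k2 k3 k5 k6
    · -- AAB
      have h1 := V1 cc _ (pv1 d md) k3
      have h3 := U2 a _ (pu0 d md) k5
      exact ciii _ hsite (by linarith) a ma cc mc k1 k2 (by linarith) h3 k6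
    · -- ABA
      have h1 := V2 d _ (pv0 cc mc) k3
      have h2 := U1 a ma _ (pu1 cc mc) k6
      have h3 := ci' d md (by linarith)
      linarith
    · -- ABB
      have h2 := U1 a ma _ (pu1 cc mc) k6
      have h3 := U2 a _ (pu0 d md) k5
      linarith
    · -- BAA
      have h1 := T2 _ (pv0 a ma) k1
      have h2 := U1 d md _ (pu1 a ma) k5
      have h3 := ci' d md h2
      linarith
    · -- BAB
      have h1 := T2 _ (pv0 a ma) k1
      have h2 := V1 cc _ (pv1 d md) k3
      linarith
    · -- BBA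
      have h1 := T2 _ (pv0 a ma) k1
      have h2 := T3 _ (pv1 cc mc) k2
      linarith
    · -- BBB
      have h1 := T2 _ (pv0 a ma) k1
      have h2 := T3 _ (pv1 cc mc) k2
      linarith
  have HB : ∀ w : ℚ, 0 < w → (∀ a ∈ B, ∀ c ∈ B, ∀ d ∈ B, v' a < w → w < v' c →
      v' c < v' d → u' d < u' a → u' a < u' c → False) →
      ∀ a cc d : EP ⊕ ES, Sum.elim (· ∈ A) (· ∈ B) a →
      Sum.elim (· ∈ A) (· ∈ B) cc → Sum.elim (· ∈ A) (· ∈ B) d →
      Sum.elim v (fun s => v e + δ * phi (v' s)) a < v e + δ * phi w →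
      v e + δ * phi w < Sum.elim v (fun s => v e + δ * phi (v' s)) cc →
      Sum.elim v (fun s => v e + δ * phi (v' s)) cc < Sum.elim v (fun s => v e + δ * phi (v' s)) d →
      Sum.elim u (fun s => c + δ * phi (u' s)) d < Sum.elim u (fun s => c + δ * phi (u' s)) a →
      Sum.elim u (fun s => c + δ * phi (u' s)) a < Sum.elim u (fun s => c + δ * phi (u' s)) cc →
      False := by
    intro w hw hact a cc d ma mc md k1 k2 k3 k5 k6
    have w0 := phi_pos hw
    have w1 := phi_lt_one hw
    rcases a with a | a <;> rcases cc with cc | cc <;>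
      rcases d with d | d <;> simp only [Sum.elim_inl, Sum.elim_inr] at ma mc md k1 k2 k3 k5 k6
    · -- AAA
      have h1 := V1 a _ w1 k1
      have h2 := V2 cc _ w0 k2
      exact act_e a ma cc mc d md h1 (by linarith) k3 k5 k6
    · -- AAB
      have h1 := V1 cc _ (pv1 d md) k3
      have h2 := V2 cc _ w0 k2
      linarith
    · -- ABA
      have h1 := V2 d _ (pv0 cc mc) k3
      have h2 := U1 a ma _ (pu1 cc mc) k6
      have h3 := ci' d md (by linarith)
      linarith
    · -- ABB
      have h2 := U1 a ma _ (pu1 cc mc) k6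
      have h3 := U2 a _ (pu0 d md) k5
      linarith
    · -- BAA
      have h1 := V2 cc _ w0 k2
      have h2 := U1 d md _ (pu1 a ma) k5
      have h3 := ci' d md h2
      linarith
    · -- BAB
      have h1 := V2 cc _ w0 k2
      have h2 := V1 cc _ (pv1 d md) k3
      linarith
    · -- BBA
      have h1 := V2 d _ (pv0 cc mc) k3
      have h2 := U1 d md _ (pu1 a ma) k5
      have h3 := ci' d md h2
      linarith
    · -- BBB
      rw [add_lt_add_iff_left, mulφ] at k1 k2 k3 k5 k6
      exact hact a ma cc mc d md (lt_of_phi hw k1) (lt_of_phi (hv' cc mc) k2)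
        (lt_of_phi (hv' d md) k3) (lt_of_phi (hu' a ma) k5)
        (lt_of_phi (hu' cc mc) k6)
  have HBs : ∀ s ∈ B, parS s → ∀ a ∈ B, ∀ c ∈ B, ∀ d ∈ B, v' a < v' s + η → v' s + η < v' c →
      v' c < v' d → u' d < u' a → u' a < u' c → False := by
    intro s hs ps a ha c hc d hd h1 h2 h3 h4 h5
    have h1' : v' a ≤ v' s := by
      by_contra hcon
      push Not at hcon
      have := gap' s a hcon
      linarith
    exact ap' s hs ps a ha c hc d hd h1' (by linarith) h3 h4 h5
  have Bne : ∀ s ∈ B, ∀ t ∈ B, v e + δ * phi (v' t) ≠ v e + δ * phi (v' s + η) := by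
    intro s hs t ht h
    rcases le_or_gt (v' t) (v' s) with h1 | h1
    · have := phi_lt (hv' t ht) (show v' t < v' s + η by linarith)
      rw [← mulφ] at this
      linarith
    · have := phi_lt (show 0 < v' s + η by linarith [hv' s hs]) (gap' s t h1)
      rw [← mulφ] at this
      linarith
  refine ⟨u, v, fun g => if g = e then v e + δ * phi (v' f + η) else v g + δ,
    fun s => c + δ * phi (u' s), fun s => v e + δ * phi (v' s),
    fun s => v e + δ * phi (v' s + η), ?_, by simp⟩
  constructor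
  · intro g hg g' hg' h
    split_ifs with hge
    · subst hge
      have := gv g g' h
      have := pl1 f hf
      nlinarith
    · exact gv g g' h
  · intro g hg
    split_ifs with hge
    · subst hge
      have := mul_pos hδ (pl0 f hf)
      linarith
    · linarith
  · intro g hg g' hg' h
    exact h
  · exact hu
  · intro g hg g' hg' h
    have := phi_lt (show 0 < v' g + η by linarith [hv' g hg]) (gap' g g' h)
    rw [← mulφ] at this
    linarith
  · intro g hg
    have := phi_lt (hv' g hg) (show v' g < v' g + η by linarith)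
    rw [← mulφ] at this
    linarith
  · intro g hg g' hg' h
    have := phi_lt (hu' g hg) h
    rw [← mulφ] at this
    linarith
  · intro g hg
    have := mul_pos hδ (pu0 g hg)
    linarith
  · exact A0
  · rintro (g | g) (t | t) hg ht hp <;> simp only [Sum.elim_inl, Sum.elim_inr] at hg ht hp ⊢
    · split_ifs with hge
      · exact W1 t _ (pl0 f hf) (pl1 f hf)
      · exact nte t g
    · split_ifs with hge
      · exact Bne f hf t ht
      · intro h
        have hne : v g ≠ v e := fun h => hge (iv g hg e he h)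
        have h0 := mul_pos hδ (pv0 t ht)
        rcases lt_or_gt_of_ne hne with h1 | h1
        · have := gv g e h1
          linarith
        · have := gv e g h1
          have := pv1 t ht
          nlinarith
    · exact W1 t _ (pl0 g hg) (pl1 g hg)
    · exact Bne g hg t ht
  · rintro (g | g) a cc d hg ha hcc hd hp k1 k2 k3 k4 k5 <;>
      simp only [Sum.elim_inl, Sum.elim_inr] at hg hp
    · by_cases hge : g = e
      · subst hge
        simp only [Sum.elim_inl, if_true] at k1 k2
        exact HB _ (show 0 < v' f + η by linarith [hv' f hf]) (HBs f hf pf) a cc d ha hcc hd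
          k1 k2 k3 k4 k5
      · simp only [Sum.elim_inl, if_neg hge] at k1 k2
        exact HA g hg hge hp a cc d ha hcc hd k1 k2 k3 k4 k5
    · simp only [Sum.elim_inr] at k1 k2
      exact HB _ (show 0 < v' g + η by linarith [hv' g hg]) (HBs g hg hp) a cc d ha hcc hd
        k1 k2 k3 k4 k5
  · intro g hg s hs hpg hps h
    beta_reduce at h
    split_ifs at h with hge
    · refine ⟨hge, ?_⟩
      have h1 : δ * phi (v' f + η) = δ * phi (v' s + η) := by linarith
      rcases lt_trichotomy (v' s) (v' f) with h2 | h2 | h2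
      · have := phi_lt (show 0 < v' s + η by linarith [hv' s hs])
          (show v' s + η < v' f + η by linarith)
        rw [← mulφ] at this
        linarith
      · exact iv' s hs f hf h2
      · have := phi_lt (show 0 < v' f + η by linarith [hv' f hf])
          (show v' f + η < v' s + η by linarith)
        rw [← mulφ] at this
        linarith
    · exfalso
      have hne : v g ≠ v e := fun h => hge (iv g hg e he h)
      have h0 := mul_pos hδ (pl0 s hs)
      rcases lt_or_gt_of_ne hne with h1 | h1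
      · have := gv g e h1
        linarith
      · have := gv e g h1
        have := pl1 s hs
        nlinarith
  · intro g hg s hs
    constructor
    · intro h
      exact absurd h (W1 g _ (pv0 s hs) (pv1 s hs))
    · intro h
      exact absurd h (W2 g _ hg (pu0 s hs) (pu1 s hs))

end Pool.Agent.H47.Amal
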