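import Pool.Agent.H47.Amal.ThmR

/-!
The case in which `x` is the leftmost and `y` the rightmost point, and the main amalgamation
theorem for point sets.
-/

namespace Pool.Agent.H47.Amal

theorem phi_lt0 {s t : ℚ} (hs : 0 ≤ s) (hst : s < t) : phi s < phi t := by
  unfold phi
  rw [div_lt_div_iff₀ (by linarith) (by linarith)]
  nlinarith

theorem phi_nn {s : ℚ} (hs : 0 ≤ s) : 0 ≤ phi s := by
  unfold phi
  positivity

theorem phi_one {s : ℚ} (hs : 0 ≤ s) : phi s < 1 := by
  unfold phi
  rw [div_lt_one (by linarith)]
  linarith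

/-- Columns, first side. -/
def fP (l r t : ℚ) : ℚ := if t = r then 3 else phi (t - l)

/-- Columns, second side. -/
def fS (l r t : ℚ) : ℚ := if t = l then 0 else if t = r then 3 else 1 + phi (t - l)

/-- Rows, first side. -/
def gP (l r t : ℚ) : ℚ :=
  if t < l then -phi (l - t) else if t < r then phi (t - l) else if t = r then 2
  else 3 + phi (t - r)

/-- Rows, second side. -/
def gS (l r t : ℚ) : ℚ :=
  if t < l then -1 - phi (l - t) else if t = l then 0 else if t < r then 1 + phi (t - l)
  else if t = r then 2 else 2 + phi (t - r)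

theorem fP_mono {l r t t' : ℚ} (h1 : l ≤ t) (h3 : t' ≤ r) (h : t < t') :
    fP l r t < fP l r t' := by
  unfold fP
  rw [if_neg (by linarith)]
  split_ifs with h4
  · have := phi_one (show 0 ≤ t - l by linarith)
    linarith
  · exact phi_lt0 (by linarith) (by linarith)

theorem fS_mono {l r t t' : ℚ} (h1 : l ≤ t) (h3 : t' ≤ r) (h : t < t') :
    fS l r t < fS l r t' := by
  unfold fS
  rw [if_neg (show t' ≠ l by linarith), if_neg (show t ≠ r by linarith)]
  have a1 := phi_one (show 0 ≤ t - l by linarith)
  have a2 := phi_nn (show 0 ≤ t' - l by linarith)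
  have a3 := phi_lt0 (show 0 ≤ t - l by linarith) (show t - l < t' - l by linarith)
  split_ifs <;> linarith

theorem gP_mono {l r t t' : ℚ} (hlr : l < r) (h : t < t') : gP l r t < gP l r t' := by
  unfold gP
  split_ifs with c1 c2 c3 c4 c5 c6 c7 c8 c9 c10 c11 c12
  · have := phi_lt0 (show 0 ≤ l - t' by linarith) (show l - t' < l - t by linarith)
    linarith
  · have := phi_pos (show 0 < l - t by linarith)
    have := phi_nn (show 0 ≤ t' - l by linarith)
    linarith
  · have := phi_pos (show 0 < l - t by linarith)
    linarith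
  · have := phi_pos (show 0 < l - t by linarith)
    have := phi_nn (show 0 ≤ t' - r by linarith)
    linarith
  · linarith
  · exact phi_lt0 (by linarith) (by linarith)
  · have := phi_one (show 0 ≤ t - l by linarith)
    linarith
  · have := phi_one (show 0 ≤ t - l by linarith)
    have := phi_nn (show 0 ≤ t' - r by linarith)
    linarith
  · linarith
  · linarith
  · linarith
  · have := phi_nn (show 0 ≤ t' - r by linarith)
    linarith
  · linarith
  · linarith
  · linarith
  · have := phi_lt0 (show 0 ≤ t - r by linarith) (show t - r < t' - r by linarith)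
    linarith

theorem gS_mono {l r t t' : ℚ} (hlr : l < r) (h : t < t') : gS l r t < gS l r t' := by
  have key : ∀ t : ℚ, (t < l ∧ gS l r t = -1 - phi (l - t)) ∨ (t = l ∧ gS l r t = 0) ∨
      (l < t ∧ t < r ∧ gS l r t = 1 + phi (t - l)) ∨ (t = r ∧ gS l r t = 2) ∨
      (r < t ∧ gS l r t = 2 + phi (t - r)) := by
    intro t
    unfold gS
    rcases lt_trichotomy t l with h | h | h
    · left
      exact ⟨h, if_pos h⟩
    · right; left
      exact ⟨h, by rw [if_neg (by linarith), if_pos h]⟩
    · right; right
      rcases lt_trichotomy t r with h' | h' | h'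
      · left
        exact ⟨h, h', by rw [if_neg (by linarith), if_neg (by linarith), if_pos h']⟩
      · right; left
        exact ⟨h', by rw [if_neg (by linarith), if_neg (by linarith), if_neg (by linarith),
          if_pos h']⟩
      · right; right
        exact ⟨h', by rw [if_neg (by linarith), if_neg (by linarith), if_neg (by linarith),
          if_neg (by linarith)]⟩
  rcases key t with ⟨h1, e⟩ | ⟨h1, e⟩ | ⟨h1, h2, e⟩ | ⟨h1, e⟩ | ⟨h1, e⟩ <;>
    rcases key t' with ⟨h1', e'⟩ | ⟨h1', e'⟩ | ⟨h1', h2', e'⟩ | ⟨h1', e'⟩ | ⟨h1', e'⟩ <;>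
    rw [e, e']
  · have := phi_lt0 (show 0 ≤ l - t' by linarith) (show l - t' < l - t by linarith)
    linarith
  · have := phi_pos (show 0 < l - t by linarith)
    linarith
  · have := phi_pos (show 0 < l - t by linarith)
    have := phi_pos (show 0 < t' - l by linarith)
    linarith
  · have := phi_pos (show 0 < l - t by linarith)
    linarith
  · have := phi_pos (show 0 < l - t by linarith)
    have := phi_pos (show 0 < t' - r by linarith)
    linarith
  · linarith
  · linarith
  · have := phi_pos (show 0 < t' - l by linarith)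
    linarith
  · norm_num
  · have := phi_pos (show 0 < t' - r by linarith)
    linarith
  · linarith
  · linarith
  · have := phi_lt0 (show 0 ≤ t - l by linarith) (show t - l < t' - l by linarith)
    linarith
  · have := phi_lt_one (show 0 < t - l by linarith)
    linarith
  · have := phi_lt_one (show 0 < t - l by linarith)
    have := phi_pos (show 0 < t' - r by linarith)
    linarith
  · linarith
  · linarith
  · linarith
  · linarith
  · have := phi_pos (show 0 < t' - r by linarith)
    linarith
  · linarith
  · linarith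
  · linarith
  · linarith
  · have := phi_lt0 (show 0 ≤ t - r by linarith) (show t - r < t' - r by linarith)
    linarith

theorem reflect {α : Type*} {X F : α → ℚ} (hX : Function.Injective X)
    (h : ∀ a b, X a < X b → F a < F b) {a b : α} (hab : F a < F b) : X a < X b := by
  rcases lt_trichotomy (X a) (X b) with h' | h' | h'
  · exact h'
  · rw [hX h'] at hab
    exact absurd hab (lt_irrefl _)
  · have := h b a h'
    linarith

theorem core_av {α β : Type*} {X Y : α → ℚ} {x y : α} {X' Y' : β → ℚ} {x' y' : β}
    (hX : Function.Injective X) (hY : Function.Injective Y)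
    (hX' : Function.Injective X') (hY' : Function.Injective Y') (hAv : Av X Y)
    (hAv' : Av X' Y') {F G : α → ℚ} {F' G' : β → ℚ} (mF : ∀ a b, X a < X b → F a < F b)
    (mG : ∀ a b, Y a < Y b → G a < G b) (mF' : ∀ a b, X' a < X' b → F' a < F' b)
    (mG' : ∀ a b, Y' a < Y' b → G' a < G' b) (Fx : F x = 0) (Gx : G x = 0) (Fx' : F' x' = 0)
    (Gx' : G' x' = 0) (Fy : F y = 3) (Gy : G y = 2) (Fy' : F' y' = 3) (Gy' : G' y' = 2)
    (cP : ∀ a, (F a = 0 ∧ G a = 0) ∨ (F a = 3 ∧ G a = 2) ∨ (0 < F a ∧ F a < 1 ∧
      ((-1 < G a ∧ G a < 0) ∨ (0 < G a ∧ G a < 1) ∨ 3 < G a)))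
    (cS : ∀ a, (F' a = 0 ∧ G' a = 0) ∨ (F' a = 3 ∧ G' a = 2) ∨ (1 < F' a ∧ F' a < 2 ∧
      ((-2 < G' a ∧ G' a < -1) ∨ (1 < G' a ∧ G' a < 2) ∨ (2 < G' a ∧ G' a < 3)))) :
    Av (Sum.elim F F') (Sum.elim G G') := by
  have rF := fun a b => reflect (a := a) (b := b) hX mF
  have rG := fun a b => reflect (a := a) (b := b) hY mG
  have rF' := fun a b => reflect (a := a) (b := b) hX' mF'
  have rG' := fun a b => reflect (a := a) (b := b) hY' mG'
  -- transferred avoidance
  have AP : ∀ a b c d, F a < F b → F b < F c → F c < F d → G b < G d → G d < G a → G a < G c →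
      False := fun a b c d k1 k2 k3 k4 k5 k6 => hAv a b c d (rF _ _ k1) (rF _ _ k2) (rF _ _ k3)
        (rG _ _ k4) (rG _ _ k5) (rG _ _ k6)
  have AS : ∀ a b c d, F' a < F' b → F' b < F' c → F' c < F' d → G' b < G' d → G' d < G' a →
      G' a < G' c → False := fun a b c d k1 k2 k3 k4 k5 k6 => hAv' a b c d (rF' _ _ k1)
        (rF' _ _ k2) (rF' _ _ k3) (rG' _ _ k4) (rG' _ _ k5) (rG' _ _ k6)
  -- classes
  have cls : ∀ w : α ⊕ β, (Sum.elim F F' w = 0 ∧ Sum.elim G G' w = 0) ∨
      (Sum.elim F F' w = 3 ∧ Sum.elim G G' w = 2) ∨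
      (∃ a, F a = Sum.elim F F' w ∧ G a = Sum.elim G G' w ∧ 0 < Sum.elim F F' w ∧
        Sum.elim F F' w < 1 ∧ ((-1 < Sum.elim G G' w ∧ Sum.elim G G' w < 0) ∨
          (0 < Sum.elim G G' w ∧ Sum.elim G G' w < 1) ∨ 3 < Sum.elim G G' w)) ∨
      (∃ a, F' a = Sum.elim F F' w ∧ G' a = Sum.elim G G' w ∧ 1 < Sum.elim F F' w ∧
        Sum.elim F F' w < 2 ∧ ((-2 < Sum.elim G G' w ∧ Sum.elim G G' w < -1) ∨
          (1 < Sum.elim G G' w ∧ Sum.elim G G' w < 2) ∨
          (2 < Sum.elim G G' w ∧ Sum.elim G G' w < 3))) := by
    rintro (a | a)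
    · rcases cP a with h | h | ⟨h1, h2, h3⟩
      · exact Or.inl h
      · exact Or.inr (Or.inl h)
      · exact Or.inr (Or.inr (Or.inl ⟨a, rfl, rfl, h1, h2, h3⟩))
    · rcases cS a with h | h | ⟨h1, h2, h3⟩
      · exact Or.inl h
      · exact Or.inr (Or.inl h)
      · exact Or.inr (Or.inr (Or.inr ⟨a, rfl, rfl, h1, h2, h3⟩))
  intro wa wb wc wd
  generalize hfa : Sum.elim F F' wa = fa
  generalize hfb : Sum.elim F F' wb = fb
  generalize hfc : Sum.elim F F' wc = fc
  generalize hfd : Sum.elim F F' wd = fd
  generalize hga : Sum.elim G G' wa = ga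
  generalize hgb : Sum.elim G G' wb = gb
  generalize hgc : Sum.elim G G' wc = gc
  generalize hgd : Sum.elim G G' wd = gd
  have ca := cls wa
  have cb := cls wb
  have cc := cls wc
  have cd := cls wd
  rw [hfa, hga] at ca
  rw [hfb, hgb] at cb
  rw [hfc, hgc] at cc
  rw [hfd, hgd] at cd
  intro k1 k2 k3 k4 k5 k6
  -- `b` and `c` are proper
  have pb : (∃ a, F a = fb ∧ G a = gb ∧ 0 < fb ∧ fb < 1 ∧ ((-1 < gb ∧ gb < 0) ∨
      (0 < gb ∧ gb < 1) ∨ 3 < gb)) ∨ (∃ a, F' a = fb ∧ G' a = gb ∧ 1 < fb ∧ fb < 2 ∧
      ((-2 < gb ∧ gb < -1) ∨ (1 < gb ∧ gb < 2) ∨ (2 < gb ∧ gb < 3))) := by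
    have h0 : 0 ≤ fa := by
      rcases ca with h | h | ⟨_, _, _, h, _⟩ | ⟨_, _, _, h, _⟩
      · exact h.1.ge
      · linarith [h.1]
      · exact h.le
      · linarith
    have h3 : fd ≤ 3 := by
      rcases cd with h | h | ⟨_, _, _, _, h, _⟩ | ⟨_, _, _, _, h, _⟩
      · linarith [h.1]
      · exact h.1.le
      · linarith
      · linarith
    rcases cb with h | h | h | h
    · linarith [h.1]
    · linarith [h.1]
    · exact Or.inl h
    · exact Or.inr h
  have pc : (∃ a, F a = fc ∧ G a = gc ∧ 0 < fc ∧ fc < 1 ∧ ((-1 < gc ∧ gc < 0) ∨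
      (0 < gc ∧ gc < 1) ∨ 3 < gc)) ∨ (∃ a, F' a = fc ∧ G' a = gc ∧ 1 < fc ∧ fc < 2 ∧
      ((-2 < gc ∧ gc < -1) ∨ (1 < gc ∧ gc < 2) ∨ (2 < gc ∧ gc < 3))) := by
    have h0 : 0 ≤ fa := by
      rcases ca with h | h | ⟨_, _, _, h, _⟩ | ⟨_, _, _, h, _⟩
      · exact h.1.ge
      · linarith [h.1]
      · exact h.le
      · linarith
    have h3 : fd ≤ 3 := by
      rcases cd with h | h | ⟨_, _, _, _, h, _⟩ | ⟨_, _, _, _, h, _⟩
      · linarith [h.1]
      · exact h.1.le
      · linarith
      · linarith
    rcases cc with h | h | h | h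
    · linarith [h.1]
    · linarith [h.1]
    · exact Or.inl h
    · exact Or.inr h
  rcases pb with ⟨b, b1, b2, b3, b4, b5⟩ | ⟨b, b1, b2, b3, b4, b5⟩
  · rcases pc with ⟨c, c1, c2, c3, c4, c5⟩ | ⟨c, c1, c2, c3, c4, c5⟩
    · -- b, c in P
      rcases ca with ha | ha | ⟨a, a1, a2, a3, a4, a5⟩ | ⟨a, a1, a2, a3, a4, a5⟩
      · rcases cd with hd | hd | ⟨d, d1, d2, d3, d4, d5⟩ | ⟨d, d1, d2, d3, d4, d5⟩
        · linarith [hd.1]
        · exact AP x b c y (by linarith [ha.1]) (by linarith) (by linarith [hd.1])
            (by linarith [hd.2]) (by linarith [ha.2, hd.2]) (by linarith [ha.2])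
        · exact AP x b c d (by linarith [ha.1]) (by linarith) (by linarith)
            (by linarith) (by linarith [ha.2]) (by linarith [ha.2])
        · -- xPPS
          rcases d5 with h | h | h <;> rcases b5 with h' | h' | h' <;> linarith [ha.2]
      · linarith [ha.1]
      · rcases cd with hd | hd | ⟨d, d1, d2, d3, d4, d5⟩ | ⟨d, d1, d2, d3, d4, d5⟩
        · linarith [hd.1]
        · exact AP a b c y (by linarith) (by linarith) (by linarith [hd.1])
            (by linarith [hd.2]) (by linarith [hd.2]) (by linarith)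
        · exact AP a b c d (by linarith) (by linarith) (by linarith)
            (by linarith) (by linarith) (by linarith)
        · -- PPPS
          have hd1 : -1 < gd := by
            rcases b5 with h' | h' | h' <;> linarith
          have hd2 : 1 < gd := by
            rcases d5 with h | h | h
            · linarith [h.2]
            · exact h.1
            · linarith [h.1]
          have ha1 : 3 < ga := by
            rcases a5 with h | h | h
            · linarith [h.2]
            · linarith [h.2]
            · exact h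
          have hd3 : gd < 3 := by
            rcases d5 with h | h | h
            · linarith [h.2]
            · linarith [h.2]
            · exact h.2
          have hb1 : gb < 1 := by
            rcases b5 with h | h | h
            · linarith [h.2]
            · linarith [h.2]
            · linarith
          exact AP a b c y (by linarith) (by linarith) (by linarith) (by linarith)
            (by linarith) (by linarith)
      · linarith
    · -- b in P, c in S
      have hb0 : -1 < gb := by
        rcases b5 with h' | h' | h' <;> linarith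
      have hc0 : gc < 3 := by
        rcases c5 with h' | h' | h' <;> linarith
      rcases ca with ha | ha | ⟨a, a1, a2, a3, a4, a5⟩ | ⟨a, a1, a2, a3, a4, a5⟩
      · rcases cd with hd | hd | ⟨d, d1, d2, d3, d4, d5⟩ | ⟨d, d1, d2, d3, d4, d5⟩
        · linarith [hd.1]
        · -- xPSy
          linarith [ha.2, hd.2]
        · linarith
        · -- xPSS
          rcases d5 with h | h | h <;> linarith [ha.2]
      · linarith [ha.1]
      · have ha1 : ga < 1 := by
          rcases a5 with h | h | h <;> linarith
        rcases cd with hd | hd | ⟨d, d1, d2, d3, d4, d5⟩ | ⟨d, d1, d2, d3, d4, d5⟩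
        · linarith [hd.1]
        · -- PPSy
          linarith [hd.2]
        · linarith
        · -- PPSS
          rcases d5 with h | h | h <;> linarith
      · linarith
  · rcases pc with ⟨c, c1, c2, c3, c4, c5⟩ | ⟨c, c1, c2, c3, c4, c5⟩
    · linarith
    · -- b, c in S
      have hc0 : gc < 3 := by
        rcases c5 with h' | h' | h' <;> linarith
      rcases ca with ha | ha | ⟨a, a1, a2, a3, a4, a5⟩ | ⟨a, a1, a2, a3, a4, a5⟩
      · rcases cd with hd | hd | ⟨d, d1, d2, d3, d4, d5⟩ | ⟨d, d1, d2, d3, d4, d5⟩
        · linarith [hd.1]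
        · exact AS x' b c y' (by linarith [ha.1]) (by linarith) (by linarith [hd.1])
            (by linarith [hd.2]) (by linarith [ha.2, hd.2]) (by linarith [ha.2])
        · linarith
        · exact AS x' b c d (by linarith [ha.1]) (by linarith) (by linarith)
            (by linarith) (by linarith [ha.2]) (by linarith [ha.2])
      · linarith [ha.1]
      · have ha1 : ga < 1 := by
          rcases a5 with h | h | h <;> linarith
        rcases cd with hd | hd | ⟨d, d1, d2, d3, d4, d5⟩ | ⟨d, d1, d2, d3, d4, d5⟩
        · linarith [hd.1]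
        · -- PSSy
          linarith [hd.2]
        · linarith
        · -- PSSS
          have hd1 : gd < -1 := by
            rcases d5 with h | h | h
            · exact h.2
            · linarith
            · linarith
          have ha0 : -1 < ga := by
            rcases a5 with h' | h' | h' <;> linarith
          have hc1 : 1 < gc := by
            rcases c5 with h | h | h
            · linarith
            · exact h.1
            · linarith
          exact AS x' b c d (by linarith) (by linarith) (by linarith) (by linarith)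
            (by linarith) (by linarith)
      · rcases cd with hd | hd | ⟨d, d1, d2, d3, d4, d5⟩ | ⟨d, d1, d2, d3, d4, d5⟩
        · linarith [hd.1]
        · exact AS a b c y' (by linarith) (by linarith) (by linarith [hd.1])
            (by linarith [hd.2]) (by linarith [hd.2]) (by linarith)
        · linarith
        · exact AS a b c d (by linarith) (by linarith) (by linarith)
            (by linarith) (by linarith) (by linarith)

end Pool.Agent.H47.Amal
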