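import Pool.Agent.H47.Amal.Tree

/-!
Gluing two systems of addresses along the ancestors of a marked element.
-/

namespace Pool.Agent.H47.Amal

/-- A centred structure with its tree and its local data. -/
structure Side (E : Type*) where
  q : E → ZMod 4
  u : E → ℚ
  v : E → ℚ
  lv : E → ℕ
  p : E → E
  us : E → ℚ
  vs : E → ℚ
  l : E → ℚ
  cen : Cen q u v
  lev : Lev q u v lv p
  loc : Loc q u v lv p us vs l

namespace Side

variable {E : Type*} (P : Side E)

/-- Same cell. -/
def sc (e e' : E) : Prop := SC P.q P.lv P.p e e'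

/-- Elements with a child. -/
def par (g : E) : Prop := ∃ c, 0 < P.lv c ∧ P.p c = g

/-- The ancestor of `y` at level `k`. -/
def anc (y : E) (k : ℕ) : E := P.p^[P.lv y - k] y

variable {P}

theorem iter_lv (y : E) : ∀ n, n ≤ P.lv y → P.lv (P.p^[n] y) = P.lv y - n := by
  intro n
  induction n with
  | zero => intro _; simp
  | succ n ih =>
    intro hn
    have h1 := ih (by omega)
    rw [Function.iterate_succ_apply']
    have := P.lev.pl (P.p^[n] y) (by omega)
    omega

theorem iter_q (y : E) : ∀ n, n ≤ P.lv y → P.q (P.p^[n] y) = P.q y + n := by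
  intro n
  induction n with
  | zero => intro _; simp
  | succ n ih =>
    intro hn
    have h1 := ih (by omega)
    have h2 := iter_lv (P := P) y n (by omega)
    rw [Function.iterate_succ_apply']
    have := P.lev.pq (P.p^[n] y) (by omega)
    rw [this, h1]
    push_cast
    ring

theorem anc_lv {y : E} {k : ℕ} (hk : k ≤ P.lv y) : P.lv (P.anc y k) = k := by
  unfold anc
  rw [iter_lv y _ (by omega)]
  omega

theorem anc_q {y : E} {k : ℕ} (hk : k ≤ P.lv y) :
    P.q (P.anc y k) = P.q y + ((P.lv y - k : ℕ) : ZMod 4) := by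
  unfold anc
  rw [iter_q y _ (by omega)]

theorem anc_p {y : E} {k : ℕ} (hk : k < P.lv y) : P.p (P.anc y (k + 1)) = P.anc y k := by
  unfold anc
  have := Function.iterate_succ_apply' P.p (P.lv y - (k + 1)) y
  rw [← this, show (P.lv y - (k + 1)).succ = P.lv y - k by omega]

theorem anc_top (y : E) : P.anc y (P.lv y) = y := by
  unfold anc
  rw [Nat.sub_self]
  rfl

theorem v_lt {g g' : E} (h : P.sc g g') (hv : P.vs g < P.vs g') : P.v g < P.v g' := by
  rcases lt_trichotomy (P.v g) (P.v g') with h' | h' | h'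
  · exact h'
  · rw [P.cen.iv g g' h.1 h'] at hv
    exact absurd hv (lt_irrefl _)
  · have h1 := P.loc.la g' g h.symm h'
    have h2 := P.loc.lb g'
    linarith

theorem u_lt {g g' : E} (h : P.sc g g') (hv : P.us g < P.us g') : P.u g < P.u g' := by
  rcases lt_trichotomy (P.u g) (P.u g') with h' | h' | h'
  · exact h'
  · rw [P.cen.iu g g' h.1 h'] at hv
    exact absurd hv (lt_irrefl _)
  · have h1 := P.loc.lc g' g h.symm h'
    linarith

theorem l_ne {g g' : E} (h : P.sc g g') : P.vs g ≠ P.l g' := by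
  intro he
  rcases lt_trichotomy (P.v g) (P.v g') with h' | h' | h'
  · have h1 := P.loc.la g g' h h'
    have h2 := P.loc.lb g'
    have h3 := P.loc.lb g
    linarith
  · rw [P.cen.iv g g' h.1 h'] at he
    have h2 := P.loc.lb g'
    linarith
  · have h1 := P.loc.la g' g h.symm h'
    linarith

theorem no_pat {a b c d : E} (h1 : P.sc a b) (h2 : P.sc b c) (h3 : P.sc c d)
    (k1 : P.vs a < P.vs b) (k2 : P.vs b < P.vs c) (k3 : P.vs c < P.vs d)
    (k4 : P.us b < P.us d) (k5 : P.us d < P.us a) (k6 : P.us a < P.us c) : False := by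
  have e1 := v_lt h1 k1
  have e2 := v_lt h2 k2
  have e3 := v_lt h3 k3
  have e4 := u_lt (h2.trans h3) k4
  have e5 := u_lt (h1.trans (h2.trans h3)).symm k5
  have e6 := u_lt (h1.trans h2) k6
  exact P.cen.ax.c0 a b c d h1.1 h2.1 h3.1 e1 e2 e3 e4 e5 e6

theorem act {g a c e : E} (hg : P.par g) (h0 : P.sc g a) (h1 : P.sc a c) (h2 : P.sc c e)
    (k1 : P.vs a < P.l g) (k2 : P.l g < P.vs c) (k3 : P.vs c < P.vs e)
    (k4 : P.us e < P.us a) (k5 : P.us a < P.us c) : False := by
  obtain ⟨b, hb0, rfl⟩ := hg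
  have p1 := P.lev.pq b hb0
  have p2 := P.lev.pl b hb0
  have p3 := P.lev.pv b hb0
  have e1 : P.v a < P.u b := by
    rcases lt_or_ge (P.v (P.p b)) (P.v a) with h | h
    · have := P.loc.la _ _ h0 h
      linarith
    · linarith
  have e2 : P.u b < P.v c := by
    have h3 : P.v (P.p b) < P.v c := by
      rcases lt_trichotomy (P.v (P.p b)) (P.v c) with h | h | h
      · exact h
      · have := P.cen.iv _ _ (h0.trans h1).1 h
        rw [← this] at k2
        have := P.loc.lb (P.p b)
        linarith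
      · have h5 := P.loc.la _ _ (h0.trans h1).symm h
        have h6 := P.loc.lb (P.p b)
        have h7 := P.loc.lb c
        linarith
    have hq : P.q c = P.q b + 1 := by rw [← (h0.trans h1).1, p1]
    rcases lt_trichotomy (P.u b) (P.v c) with h | h | h
    · exact h
    · exact absurd h.symm (P.cen.iuv c b hq)
    · have := P.lev.pm b c hb0 hq (by rw [← (h0.trans h1).2.1, p2]) h
      linarith
  have e3 := v_lt h2 k3
  have e4 := u_lt (h1.trans h2).symm k4
  have e5 := u_lt h1 k5
  exact P.cen.ax.c3 a b c e h1.1 h2.1 (by rw [← h0.1, p1]) e1 e2 e3 e4 e5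

end Side

/-- The union path cell. -/
def MC {EP ES : Type*} (P : Side EP) (S : Side ES) (y : EP) (y' : ES) (k : ℕ) :
    EP ⊕ ES → Prop :=
  Sum.elim (fun g => P.sc g (P.anc y k)) (fun s => S.sc s (S.anc y' (k - (P.lv y - S.lv y'))))

/-- The hypotheses on the merged path cells. -/
structure Joint {EP ES : Type*} (P : Side EP) (S : Side ES) (y : EP) (y' : ES) : Prop where
  hq : P.q y = S.q y'
  hl : S.lv y' ≤ P.lv y
  h0 : ∀ k, P.lv y - S.lv y' ≤ k → k ≤ P.lv y → ∀ a b c d, MC P S y y' k a →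
    MC P S y y' k b → MC P S y y' k c → MC P S y y' k d →
    Sum.elim P.vs S.vs a < Sum.elim P.vs S.vs b → Sum.elim P.vs S.vs b < Sum.elim P.vs S.vs c →
    Sum.elim P.vs S.vs c < Sum.elim P.vs S.vs d → Sum.elim P.us S.us b < Sum.elim P.us S.us d →
    Sum.elim P.us S.us d < Sum.elim P.us S.us a → Sum.elim P.us S.us a < Sum.elim P.us S.us c →
    False
  h1 : ∀ k, P.lv y - S.lv y' ≤ k → k ≤ P.lv y → ∀ g t, MC P S y y' k g → MC P S y y' k t →
    Sum.elim P.par S.par g → Sum.elim P.vs S.vs t ≠ Sum.elim P.l S.l g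
  h2 : ∀ k, P.lv y - S.lv y' ≤ k → k ≤ P.lv y → ∀ g a c e, MC P S y y' k g →
    MC P S y y' k a → MC P S y y' k c → MC P S y y' k e → Sum.elim P.par S.par g →
    Sum.elim P.vs S.vs a < Sum.elim P.l S.l g → Sum.elim P.l S.l g < Sum.elim P.vs S.vs c →
    Sum.elim P.vs S.vs c < Sum.elim P.vs S.vs e → Sum.elim P.us S.us e < Sum.elim P.us S.us a →
    Sum.elim P.us S.us a < Sum.elim P.us S.us c → False
  h3 : ∀ k, P.lv y - S.lv y' ≤ k → k ≤ P.lv y → ∀ g s, MC P S y y' k (Sum.inl g) →
    MC P S y y' k (Sum.inr s) → P.par g → S.par s → P.l g = S.l s →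
    k < P.lv y ∧ g = P.anc y k ∧ s = S.anc y' (k - (P.lv y - S.lv y'))
  h3' : ∀ k, P.lv y - S.lv y' ≤ k → k < P.lv y →
    P.l (P.anc y k) = S.l (S.anc y' (k - (P.lv y - S.lv y')))
  h4 : ∀ k, P.lv y - S.lv y' ≤ k → k ≤ P.lv y → ∀ g s, MC P S y y' k (Sum.inl g) →
    MC P S y y' k (Sum.inr s) → (P.vs g = S.vs s ↔ P.us g = S.us s)
  h5 : P.vs y = S.vs y' ∧ P.us y = S.us y'

section

variable {EP ES : Type*} (P : Side EP) (S : Side ES) (y : EP) (y' : ES)

open Classical in
/-- Base prefixes of the first side. -/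
noncomputable def baseP (i : ZMod 4) (j : ℕ) : ℚ := if j = 0 ∧ i = P.q (P.anc y 0) then 1 else 0

/-- Prefixes of the first side. -/
noncomputable def preP : EP → ℕ → ℚ := pre 1 (baseP P y) P.q P.lv P.p P.l

open Classical in
/-- Base prefixes of the second side. -/
noncomputable def baseS (i : ZMod 4) (j : ℕ) : ℚ :=
  if i = S.q (S.anc y' 0) then preP P y (P.anc y (P.lv y - S.lv y')) j
  else if j = 0 then 2 else 0

/-- Prefixes of the second side. -/
noncomputable def preS : ES → ℕ → ℚ :=
  pre (1 + (P.lv y - S.lv y')) (baseS P S y y') S.q S.lv S.p S.l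

variable {P S y y'}

theorem baseP_supp : ∀ i j, 1 ≤ j → baseP P y i j = 0 := by
  intro i j hj
  unfold baseP
  rw [if_neg]
  rintro ⟨h, _⟩
  omega

theorem preP_supp (e : EP) : ∀ j, 1 + P.lv e ≤ j → preP P y e j = 0 :=
  pre_supp' P.lev baseP_supp e

theorem baseS_supp (hl : S.lv y' ≤ P.lv y) :
    ∀ i j, 1 + (P.lv y - S.lv y') ≤ j → baseS P S y y' i j = 0 := by
  intro i j hj
  unfold baseS
  split_ifs with h1 h2
  · exact preP_supp _ j (by rw [Side.anc_lv (by omega)]; exact hj)
  · omega
  · rfl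

theorem preS_supp (hl : S.lv y' ≤ P.lv y) (s : ES) :
    ∀ j, 1 + (P.lv y - S.lv y') + S.lv s ≤ j → preS P S y y' s j = 0 :=
  pre_supp' S.lev (baseS_supp hl) s

theorem preP_zero : ∀ (n : ℕ) (e : EP), P.lv e = n → preP P y e 0 = 0 ∨ preP P y e 0 = 1 := by
  intro n
  induction n with
  | zero =>
    intro e he
    unfold preP
    rw [pre_zero he]
    unfold baseP
    split_ifs
    · right; rfl
    · left; rfl
  | succ n ih =>
    intro e he
    have h0 : 0 < P.lv e := by omega
    have h1 := P.lev.pl e h0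
    have := ih (P.p e) (by omega)
    unfold preP at this ⊢
    rw [pre_succ P.lev h0, Function.update_of_ne (by omega)]
    exact this

theorem preP_inj {e e' : EP} (hq : P.q e = P.q e') (hl : P.lv e = P.lv e')
    (h : preP P y e = preP P y e') : P.sc e e' :=
  pre_inj P.cen P.lev baseP_supp P.loc hq hl h

theorem preS_inj (hl : S.lv y' ≤ P.lv y) {s s' : ES} (hq : S.q s = S.q s')
    (hl' : S.lv s = S.lv s') (h : preS P S y y' s = preS P S y y' s') : S.sc s s' :=
  pre_inj S.cen S.lev (baseS_supp hl) S.loc hq hl' h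

theorem preP_succ {e : EP} (h : 0 < P.lv e) :
    preP P y e = Function.update (preP P y (P.p e)) (P.lv e) (P.l (P.p e)) := by
  have := P.lev.pl e h
  unfold preP
  rw [pre_succ P.lev h, show 1 + P.lv (P.p e) = P.lv e by omega]

theorem preS_succ {s : ES} (h : 0 < S.lv s) :
    preS P S y y' s = Function.update (preS P S y y' (S.p s)) ((P.lv y - S.lv y') + S.lv s)
      (S.l (S.p s)) := by
  have := S.lev.pl s h
  unfold preS
  rw [pre_succ S.lev h, show 1 + (P.lv y - S.lv y') + S.lv (S.p s) =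
    (P.lv y - S.lv y') + S.lv s by omega]

theorem anc_q_eq (J : Joint P S y y') {k : ℕ} (h1 : P.lv y - S.lv y' ≤ k) (h2 : k ≤ P.lv y) :
    P.q (P.anc y k) = S.q (S.anc y' (k - (P.lv y - S.lv y'))) := by
  have := J.hl
  rw [Side.anc_q h2, Side.anc_q (by omega), J.hq]
  congr 2
  omega

theorem preS_anc (J : Joint P S y y') : ∀ n, n ≤ S.lv y' →
    preP P y (P.anc y (n + (P.lv y - S.lv y'))) = preS P S y y' (S.anc y' n) := by
  intro n
  have hl := J.hl
  induction n with
  | zero =>
    intro _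
    have : preS P S y y' (S.anc y' 0) = baseS P S y y' (S.q (S.anc y' 0)) := by
      unfold preS
      rw [pre_zero (Side.anc_lv (by omega))]
    rw [this]
    funext j
    unfold baseS
    rw [if_pos rfl, Nat.zero_add]
  | succ n ih =>
    intro hn
    have h1 := ih (by omega)
    have l1 : P.lv (P.anc y (n + 1 + (P.lv y - S.lv y'))) = n + 1 + (P.lv y - S.lv y') :=
      Side.anc_lv (by omega)
    have l2 : S.lv (S.anc y' (n + 1)) = n + 1 := Side.anc_lv (by omega)
    have p1 : P.p (P.anc y (n + 1 + (P.lv y - S.lv y'))) = P.anc y (n + (P.lv y - S.lv y')) := by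
      rw [show n + 1 + (P.lv y - S.lv y') = n + (P.lv y - S.lv y') + 1 by omega]
      exact Side.anc_p (by omega)
    have p2 : S.p (S.anc y' (n + 1)) = S.anc y' n := Side.anc_p (by omega)
    rw [preP_succ (by omega), preS_succ (by omega), p1, p2, l1, l2, h1,
      J.h3' (n + (P.lv y - S.lv y')) (by omega) (by omega),
      show n + (P.lv y - S.lv y') - (P.lv y - S.lv y') = n by omega,
      show n + 1 + (P.lv y - S.lv y') = P.lv y - S.lv y' + (n + 1) by omega]

theorem join (J : Joint P S y y') : ∀ (n : ℕ) (e : EP) (s : ES), S.lv s = n → P.q e = S.q s →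
    P.lv e = P.lv y - S.lv y' + S.lv s → preP P y e = preS P S y y' s →
    P.lv e ≤ P.lv y ∧ MC P S y y' (P.lv e) (Sum.inl e) ∧ MC P S y y' (P.lv e) (Sum.inr s) := by
  intro n
  have hl := J.hl
  induction n with
  | zero =>
    intro e s hs hq hlv hp
    have hk : P.lv e = P.lv y - S.lv y' := by omega
    have hb : preS P S y y' s = baseS P S y y' (S.q s) := by
      unfold preS
      rw [pre_zero hs]
    by_cases hm : S.q s = S.q (S.anc y' 0)
    · have hp' : preP P y e = preP P y (P.anc y (P.lv y - S.lv y')) := by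
        rw [hp, hb]
        funext j
        unfold baseS
        rw [if_pos hm]
      have l1 : P.lv (P.anc y (P.lv y - S.lv y')) = P.lv y - S.lv y' :=
        Side.anc_lv (by omega)
      have l2 : S.lv (S.anc y' 0) = 0 := Side.anc_lv (by omega)
      have q1 := anc_q_eq J (k := P.lv y - S.lv y') le_rfl (by omega)
      rw [Nat.sub_self] at q1
      have hsc : P.sc e (P.anc y (P.lv y - S.lv y')) :=
        preP_inj (by rw [q1, hq, hm]) (by rw [l1, hk]) hp'
      refine ⟨by omega, ?_, ?_⟩
      · unfold MC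
        simp only [Sum.elim_inl]
        rw [hk]
        exact hsc
      · unfold MC
        simp only [Sum.elim_inr]
        rw [hk, Nat.sub_self]
        exact ⟨hm, by rw [hs, l2], fun h => by omega⟩
    · exfalso
      have h2 : preS P S y y' s 0 = 2 := by
        rw [hb]
        unfold baseS
        rw [if_neg hm, if_pos rfl]
      rw [← hp] at h2
      rcases preP_zero (y := y) _ e rfl with h3 | h3
      · rw [h3] at h2
        norm_num at h2
      · rw [h3] at h2
        norm_num at h2
  | succ n ih =>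
    intro e s hs hq hlv hp
    have s0 : 0 < S.lv s := by omega
    have e0 : 0 < P.lv e := by omega
    have s1 := S.lev.pl s s0
    have e1 := P.lev.pl e e0
    have s2 := S.lev.pq s s0
    have e2 := P.lev.pq e e0
    have hp2 := hp
    rw [preP_succ e0, preS_succ s0, ← hlv] at hp2
    have hloc : P.l (P.p e) = S.l (S.p s) := by
      have := congrFun hp2 (P.lv e)
      rwa [Function.update_self, Function.update_self] at this
    have hpre : preP P y (P.p e) = preS P S y y' (S.p s) := by
      funext j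
      by_cases hj : j = P.lv e
      · rw [preP_supp (P.p e) j (by omega), preS_supp hl (S.p s) j (by omega)]
      · have := congrFun hp2 j
        rwa [Function.update_of_ne hj, Function.update_of_ne hj] at this
    obtain ⟨i1, i2, i3⟩ := ih (P.p e) (S.p s) (by omega) (by rw [e2, s2, hq]) (by omega) hpre
    obtain ⟨j1, j2, j3⟩ := J.h3 (P.lv (P.p e)) (by omega) i1 _ _ i2 i3 ⟨e, e0, rfl⟩
      ⟨s, s0, rfl⟩ hloc
    have l1 : P.lv (P.anc y (P.lv e)) = P.lv e := Side.anc_lv (by omega)
    have l2 : S.lv (S.anc y' (P.lv e - (P.lv y - S.lv y'))) = P.lv e - (P.lv y - S.lv y') :=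
      Side.anc_lv (by omega)
    have p1 : P.p (P.anc y (P.lv e)) = P.anc y (P.lv (P.p e)) := by
      have := Side.anc_p (P := P) (y := y) (k := P.lv (P.p e)) (by omega)
      rwa [e1] at this
    have p2 : S.p (S.anc y' (P.lv e - (P.lv y - S.lv y'))) =
        S.anc y' (P.lv (P.p e) - (P.lv y - S.lv y')) := by
      have := Side.anc_p (P := S) (y := y') (k := P.lv (P.p e) - (P.lv y - S.lv y')) (by omega)
      rwa [show P.lv (P.p e) - (P.lv y - S.lv y') + 1 = P.lv e - (P.lv y - S.lv y') by omega]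
        at this
    have q1 : P.q (P.anc y (P.lv e)) = P.q e := by
      have h := P.lev.pq (P.anc y (P.lv e)) (by omega)
      rw [p1, ← j2, e2] at h
      exact (add_right_cancel h).symm
    have q2 : S.q (S.anc y' (P.lv e - (P.lv y - S.lv y'))) = S.q s := by
      have h := S.lev.pq (S.anc y' (P.lv e - (P.lv y - S.lv y'))) (by omega)
      rw [p2, ← j3, s2] at h
      exact (add_right_cancel h).symm
    refine ⟨by omega, ?_, ?_⟩
    · unfold MC
      simp only [Sum.elim_inl]
      exact ⟨q1.symm, l1.symm, fun _ => by rw [p1, ← j2]⟩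
    · unfold MC
      simp only [Sum.elim_inr]
      exact ⟨q2.symm, by rw [l2]; omega, fun _ => by rw [p2, ← j3]⟩

/-- Lengths in the union. -/
def lenT (P : Side EP) (S : Side ES) (y : EP) (y' : ES) : EP ⊕ ES → ℕ :=
  Sum.elim (fun e => 1 + P.lv e) (fun s => 1 + (P.lv y - S.lv y') + S.lv s)

/-- Prefixes in the union. -/
noncomputable def preT (P : Side EP) (S : Side ES) (y : EP) (y' : ES) : EP ⊕ ES → ℕ → ℚ :=
  Sum.elim (preP P y) (preS P S y y')

theorem preT_supp (J : Joint P S y y') : ∀ t j, lenT P S y y' t ≤ j → preT P S y y' t j = 0 := by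
  rintro (e | s) j hj
  · exact preP_supp e j hj
  · exact preS_supp J.hl s j hj

/-- Same address prefix. -/
def Sm (P : Side EP) (S : Side ES) (y : EP) (y' : ES) (t t' : EP ⊕ ES) : Prop :=
  Sum.elim P.q S.q t = Sum.elim P.q S.q t' ∧ lenT P S y y' t = lenT P S y y' t' ∧
    preT P S y y' t = preT P S y y' t'

theorem Sm.refl (t : EP ⊕ ES) : Sm P S y y' t t := ⟨rfl, rfl, rfl⟩

theorem Sm.symm {t t' : EP ⊕ ES} (h : Sm P S y y' t t') : Sm P S y y' t' t :=
  ⟨h.1.symm, h.2.1.symm, h.2.2.symm⟩

theorem Sm.trans {t t' t'' : EP ⊕ ES} (h : Sm P S y y' t t') (h' : Sm P S y y' t' t'') :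
    Sm P S y y' t t'' :=
  ⟨h.1.trans h'.1, h.2.1.trans h'.2.1, h.2.2.trans h'.2.2⟩

theorem Sm.left {e e' : EP} (h : Sm P S y y' (Sum.inl e) (Sum.inl e')) : P.sc e e' := by
  obtain ⟨h1, h2, h3⟩ := h
  simp only [Sum.elim_inl, lenT, preT] at h1 h2 h3
  exact preP_inj h1 (by omega) h3

theorem Sm.right (hl : S.lv y' ≤ P.lv y) {s s' : ES}
    (h : Sm P S y y' (Sum.inr s) (Sum.inr s')) : S.sc s s' := by
  obtain ⟨h1, h2, h3⟩ := h
  simp only [Sum.elim_inr, lenT, preT] at h1 h2 h3
  exact preS_inj hl h1 (by omega) h3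

theorem Sm.mix (J : Joint P S y y') {e : EP} {s : ES}
    (h : Sm P S y y' (Sum.inl e) (Sum.inr s)) : P.lv y - S.lv y' ≤ P.lv e ∧ P.lv e ≤ P.lv y ∧
      P.lv e = P.lv y - S.lv y' + S.lv s ∧
      MC P S y y' (P.lv e) (Sum.inl e) ∧ MC P S y y' (P.lv e) (Sum.inr s) := by
  obtain ⟨h1, h2, h3⟩ := h
  simp only [Sum.elim_inl, Sum.elim_inr, lenT, preT] at h1 h2 h3
  have := join J _ e s rfl h1 (by omega) h3
  exact ⟨by omega, this.1, by omega, this.2⟩

theorem classes (J : Joint P S y y') (t0 : EP ⊕ ES) :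
    (∀ t, Sm P S y y' t t0 → ∃ e, t = Sum.inl e) ∨
    (∀ t, Sm P S y y' t t0 → ∃ s, t = Sum.inr s) ∨
    ∃ k, P.lv y - S.lv y' ≤ k ∧ k ≤ P.lv y ∧ ∀ t, Sm P S y y' t t0 → MC P S y y' k t := by
  by_cases hR : ∃ s, Sm P S y y' (Sum.inr s) t0
  · by_cases hL : ∃ e, Sm P S y y' (Sum.inl e) t0
    · right; right
      obtain ⟨s, hs⟩ := hR
      obtain ⟨e, he⟩ := hL
      have hes := (he.trans hs.symm).mix J
      refine ⟨P.lv e, hes.1, hes.2.1, ?_⟩
      rintro (e' | s') ht
      · have h1 := (ht.trans hs.symm).mix J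
        have h2 : P.lv e' = P.lv e := by omega
        rw [← h2]
        exact h1.2.2.2.1
      · exact ((he.trans ht.symm).mix J).2.2.2.2
    · right; left
      rintro (e | s) ht
      · exact absurd ⟨e, ht⟩ hL
      · exact ⟨s, rfl⟩
  · left
    rintro (e | s) ht
    · exact ⟨e, rfl⟩
    · exact absurd ⟨s, ht⟩ hR

theorem parent_left {c : EP} (J : Joint P S y y') (h0 : 0 < P.lv c) {g : EP ⊕ ES}
    (hq : Sum.elim P.q S.q g = P.q c + 1) (hlen : 1 + P.lv c = lenT P S y y' g + 1)
    (hpre : ∀ j < lenT P S y y' g, preP P y c j = preT P S y y' g j) :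
    Sm P S y y' (Sum.inl (P.p c)) g ∧ P.par (P.p c) ∧
      preP P y c (lenT P S y y' g) = P.l (P.p c) := by
  have p1 := P.lev.pl c h0
  have p2 := P.lev.pq c h0
  have hlc : lenT P S y y' g = P.lv c := by omega
  refine ⟨⟨?_, ?_, ?_⟩, ⟨c, h0, rfl⟩, ?_⟩
  · simp only [Sum.elim_inl]
    rw [hq, p2]
  · rw [hlc]
    simp only [Sum.elim_inl, lenT]
    omega
  · funext j
    by_cases hj : j < P.lv c
    · have := hpre j (by omega)
      rw [← this, preP_succ h0, Function.update_of_ne (by omega)]
      rfl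
    · rw [preT_supp J g j (by omega)]
      exact preP_supp _ j (by omega)
  · rw [hlc, preP_succ h0, Function.update_self]

theorem parent_right {c : ES} (J : Joint P S y y') (h0 : 0 < S.lv c) {g : EP ⊕ ES}
    (hq : Sum.elim P.q S.q g = S.q c + 1)
    (hlen : 1 + (P.lv y - S.lv y') + S.lv c = lenT P S y y' g + 1)
    (hpre : ∀ j < lenT P S y y' g, preS P S y y' c j = preT P S y y' g j) :
    Sm P S y y' (Sum.inr (S.p c)) g ∧ S.par (S.p c) ∧
      preS P S y y' c (lenT P S y y' g) = S.l (S.p c) := by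
  have p1 := S.lev.pl c h0
  have p2 := S.lev.pq c h0
  have hlc : lenT P S y y' g = P.lv y - S.lv y' + S.lv c := by omega
  refine ⟨⟨?_, ?_, ?_⟩, ⟨c, h0, rfl⟩, ?_⟩
  · simp only [Sum.elim_inr]
    rw [hq, p2]
  · rw [hlc]
    simp only [Sum.elim_inr, lenT]
    omega
  · funext j
    by_cases hj : j < P.lv y - S.lv y' + S.lv c
    · have := hpre j (by omega)
      rw [← this, preS_succ h0, Function.update_of_ne (by omega)]
      rfl
    · rw [preT_supp J g j (by omega)]
      exact preS_supp J.hl _ j (by omega)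
  · rw [hlc, preS_succ h0, Function.update_self]

theorem parents (J : Joint P S y y') {b g : EP ⊕ ES}
    (hq : Sum.elim P.q S.q g = Sum.elim P.q S.q b + 1)
    (hlen : lenT P S y y' b = lenT P S y y' g + 1)
    (hpre : ∀ j < lenT P S y y' g, preT P S y y' b j = preT P S y y' g j) :
    ∃ g', Sm P S y y' g' g ∧ Sum.elim P.par S.par g' ∧
      preT P S y y' b (lenT P S y y' g) = Sum.elim P.l S.l g' := by
  have hl := J.hl
  rcases b with c | c
  · by_cases h0 : 0 < P.lv c
    · exact ⟨Sum.inl (P.p c), parent_left J h0 hq hlen hpre⟩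
    · exfalso
      rcases g with h | h
      · simp only [lenT, Sum.elim_inl] at hlen
        omega
      · simp only [lenT, Sum.elim_inl, Sum.elim_inr] at hlen
        omega
  · by_cases h0 : 0 < S.lv c
    · exact ⟨Sum.inr (S.p c), parent_right J h0 hq hlen hpre⟩
    · have hc0 : S.lv c = 0 := by omega
      rcases g with h | h
      · simp only [lenT, Sum.elim_inl, Sum.elim_inr] at hlen
        have hb : preS P S y y' c = baseS P S y y' (S.q c) := by
          unfold preS
          rw [pre_zero hc0]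
        by_cases hm : S.q c = S.q (S.anc y' 0)
        · have hb' : preS P S y y' c = preP P y (P.anc y (P.lv y - S.lv y')) := by
            rw [hb]
            funext j
            unfold baseS
            rw [if_pos hm]
          have l1 : P.lv (P.anc y (P.lv y - S.lv y')) = P.lv y - S.lv y' :=
            Side.anc_lv (by omega)
          have q1 := anc_q_eq J (k := P.lv y - S.lv y') le_rfl (by omega)
          rw [Nat.sub_self] at q1
          have hpos : 0 < P.lv (P.anc y (P.lv y - S.lv y')) := by omega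
          have := parent_left J hpos (g := Sum.inl h) (by
            rw [hq, q1]
            simp only [Sum.elim_inr]
            rw [hm]) (by
            simp only [lenT, Sum.elim_inl]
            omega) (by
            intro j hj
            rw [← hpre j hj, ← hb']
            rfl)
          refine ⟨_, this.1, this.2.1, ?_⟩
          rw [Sum.elim_inl, ← this.2.2, ← hb']
          rfl
        · exfalso
          have h2 := hpre 0 (by simp only [lenT, Sum.elim_inl]; omega)
          simp only [preT, Sum.elim_inl, Sum.elim_inr] at h2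
          rw [hb] at h2
          unfold baseS at h2
          rw [if_neg hm, if_pos rfl] at h2
          rcases preP_zero (y := y) _ h rfl with h3 | h3
          · rw [h3] at h2
            norm_num at h2
          · rw [h3] at h2
            norm_num at h2
      · exfalso
        simp only [lenT, Sum.elim_inr] at hlen
        omega

/-- The union has no pattern. -/
theorem glue (J : Joint P S y y') : CenAx (Sum.elim P.q S.q)
    (adrU (lenT P S y y') (preT P S y y') (Sum.elim P.us S.us))
    (adrV (lenT P S y y') (preT P S y y') (Sum.elim P.vs S.vs)) := by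
  apply realize (preT_supp J)
  · rintro (e | s)
    · exact P.loc.ld e
    · exact S.loc.ld s
  · intro a b c d q1 q2 q3 l1 l2 l3 p1 p2 p3 k1 k2 k3 k4 k5 k6
    have sb : Sm P S y y' b a := ⟨q1.symm, l1.symm, p1.symm⟩
    have sc : Sm P S y y' c a := ⟨(q1.trans q2).symm, (l1.trans l2).symm, (p1.trans p2).symm⟩
    have sd : Sm P S y y' d a := ⟨(q1.trans (q2.trans q3)).symm, (l1.trans (l2.trans l3)).symm,
      (p1.trans (p2.trans p3)).symm⟩
    rcases classes J a with h | h | ⟨k, hk1, hk2, h⟩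
    · obtain ⟨a, rfl⟩ := h a (Sm.refl _)
      obtain ⟨b, rfl⟩ := h b sb
      obtain ⟨c, rfl⟩ := h c sc
      obtain ⟨d, rfl⟩ := h d sd
      exact Side.no_pat sb.left.symm (sb.trans sc.symm).left (sc.trans sd.symm).left k1 k2 k3
        k4 k5 k6
    · obtain ⟨a, rfl⟩ := h a (Sm.refl _)
      obtain ⟨b, rfl⟩ := h b sb
      obtain ⟨c, rfl⟩ := h c sc
      obtain ⟨d, rfl⟩ := h d sd
      exact Side.no_pat (sb.right J.hl).symm ((sb.trans sc.symm).right J.hl)
        ((sc.trans sd.symm).right J.hl) k1 k2 k3 k4 k5 k6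
    · exact J.h0 k hk1 hk2 a b c d (h a (Sm.refl _)) (h b sb) (h c sc) (h d sd) k1 k2 k3 k4 k5 k6
  · intro g b hq hlen hpre he
    obtain ⟨g', s1, s2, s3⟩ := parents J hq hlen hpre
    rw [s3] at he
    rcases classes J g with h | h | ⟨k, hk1, hk2, h⟩
    · obtain ⟨g, rfl⟩ := h g (Sm.refl _)
      obtain ⟨g', rfl⟩ := h g' s1
      exact Side.l_ne s1.symm.left he
    · obtain ⟨g, rfl⟩ := h g (Sm.refl _)
      obtain ⟨g', rfl⟩ := h g' s1
      exact Side.l_ne (s1.symm.right J.hl) he
    · exact J.h1 k hk1 hk2 g' g (h g' s1) (h g (Sm.refl _)) s2 he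
  · intro a b c e q1 q2 q3 l1 l2 p1 p2 hlen hpre k1 k2 k3 k4 k5
    obtain ⟨g', s1, s2, s3⟩ := parents J q3 hlen hpre
    rw [s3] at k1 k2
    have sc : Sm P S y y' c a := ⟨q1.symm, l1.symm, p1.symm⟩
    have se : Sm P S y y' e a := ⟨(q1.trans q2).symm, (l1.trans l2).symm, (p1.trans p2).symm⟩
    rcases classes J a with h | h | ⟨k, hk1, hk2, h⟩
    · obtain ⟨a, rfl⟩ := h a (Sm.refl _)
      obtain ⟨g', rfl⟩ := h g' s1
      obtain ⟨c, rfl⟩ := h c sc
      obtain ⟨e, rfl⟩ := h e se
      exact Side.act s2 s1.left sc.left.symm (sc.trans se.symm).left k1 k2 k3 k4 k5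
    · obtain ⟨a, rfl⟩ := h a (Sm.refl _)
      obtain ⟨g', rfl⟩ := h g' s1
      obtain ⟨c, rfl⟩ := h c sc
      obtain ⟨e, rfl⟩ := h e se
      exact Side.act s2 (s1.right J.hl) (sc.right J.hl).symm ((sc.trans se.symm).right J.hl)
        k1 k2 k3 k4 k5
    · exact J.h2 k hk1 hk2 g' a c e (h g' s1) (h a (Sm.refl _)) (h c sc) (h e se) s2 k1 k2 k3
        k4 k5

theorem upd_eq {n : ℕ} {f g : ℕ → ℚ} {x z : ℚ} (hf : ∀ j, n ≤ j → f j = 0)
    (hg : ∀ j, n ≤ j → g j = 0) (h : Function.update f n x = Function.update g n z) :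
    f = g ∧ x = z := by
  constructor
  · funext j
    by_cases hj : j = n
    · rw [hf j (by omega), hg j (by omega)]
    · have := congrFun h j
      rwa [Function.update_of_ne hj, Function.update_of_ne hj] at this
  · have := congrFun h n
    rwa [Function.update_self, Function.update_self] at this

theorem glue_eq (J : Joint P S y y') {e : EP} {s : ES} (hq : P.q e = S.q s) :
    adrU (lenT P S y y') (preT P S y y') (Sum.elim P.us S.us) (Sum.inl e) =
      adrU (lenT P S y y') (preT P S y y') (Sum.elim P.us S.us) (Sum.inr s) ↔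
    adrV (lenT P S y y') (preT P S y y') (Sum.elim P.vs S.vs) (Sum.inl e) =
      adrV (lenT P S y y') (preT P S y y') (Sum.elim P.vs S.vs) (Sum.inr s) := by
  unfold adrU adrV
  rw [val_eq, val_eq]
  have hs := preT_supp J
  constructor
  · rintro ⟨h1, h2⟩
    rw [h1] at h2
    obtain ⟨h3, h4⟩ := upd_eq (by rw [← h1]; exact hs _) (hs _) h2
    have hm := Sm.mix J (e := e) (s := s) ⟨hq, h1, h3⟩
    have := (J.h4 _ hm.1 hm.2.1 e s hm.2.2.2.1 hm.2.2.2.2).2 h4
    refine ⟨by omega, ?_⟩
    rw [h1, h3]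
    simp only [Sum.elim_inl, Sum.elim_inr]
    rw [this]
  · rintro ⟨h1, h2⟩
    have h1' : lenT P S y y' (Sum.inl e) = lenT P S y y' (Sum.inr s) := by omega
    rw [h1'] at h2
    obtain ⟨h3, h4⟩ := upd_eq (by rw [← h1']; exact hs _) (hs _) h2
    have hm := Sm.mix J (e := e) (s := s) ⟨hq, h1', h3⟩
    have := (J.h4 _ hm.1 hm.2.1 e s hm.2.2.2.1 hm.2.2.2.2).1 h4
    refine ⟨h1', ?_⟩
    rw [h1', h3]
    simp only [Sum.elim_inl, Sum.elim_inr]
    rw [this]

theorem glue_ne (J : Joint P S y y') (t t' : EP ⊕ ES) :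
    adrU (lenT P S y y') (preT P S y y') (Sum.elim P.us S.us) t ≠
      adrV (lenT P S y y') (preT P S y y') (Sum.elim P.vs S.vs) t' := by
  intro h
  unfold adrU adrV at h
  rw [val_eq] at h
  obtain ⟨h1, h2⟩ := h
  have := congrFun h2 (lenT P S y y' t)
  rw [Function.update_self, h1, Function.update_of_ne (by omega), preT_supp J t' _ (by omega)]
    at this
  have hpos : 0 < Sum.elim P.us S.us t := by
    rcases t with e | s
    · exact P.loc.ld e
    · exact S.loc.ld s
  rw [this] at hpos
  exact lt_irrefl _ hpos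

theorem glue_y (J : Joint P S y y') :
    adrU (lenT P S y y') (preT P S y y') (Sum.elim P.us S.us) (Sum.inl y) =
      adrU (lenT P S y y') (preT P S y y') (Sum.elim P.us S.us) (Sum.inr y') ∧
    adrV (lenT P S y y') (preT P S y y') (Sum.elim P.vs S.vs) (Sum.inl y) =
      adrV (lenT P S y y') (preT P S y y') (Sum.elim P.vs S.vs) (Sum.inr y') := by
  have hl := J.hl
  have h1 := preS_anc J (S.lv y') le_rfl
  rw [show S.lv y' + (P.lv y - S.lv y') = P.lv y by omega, Side.anc_top, Side.anc_top] at h1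
  have h2 : lenT P S y y' (Sum.inl y) = lenT P S y y' (Sum.inr y') := by
    simp only [lenT, Sum.elim_inl, Sum.elim_inr]
    omega
  have h3 : preT P S y y' (Sum.inl y) = preT P S y y' (Sum.inr y') := by
    simp only [preT, Sum.elim_inl, Sum.elim_inr]
    exact h1
  unfold adrU adrV
  rw [h2, h3]
  simp only [Sum.elim_inl, Sum.elim_inr, J.h5.1, J.h5.2, and_self]

end

end Pool.Agent.H47.Amal
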