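import Pool.Agent.H47.Amal.Plane

/-!
The data for the last cell, from an amalgam of the right parts; monotonicity of placement;
ranks of addresses.
-/

namespace Pool.Agent.H47.Amal

section mono

variable {α : Type*} {X Y : α → ℚ} {x : α}

theorem mono_pl (hX : Function.Injective X) (hY : Function.Injective Y)
    {U V : {a // a ≠ x} → ℚ} (hU : ∀ e, 0 < U e) (hV : ∀ e, 0 < V e)
    (m1 : ∀ e e' : {a // a ≠ x}, cq X Y x e.1 = cq X Y x e'.1 → cu X Y x e.1 < cu X Y x e'.1 →
      U e < U e')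
    (m2 : ∀ e e' : {a // a ≠ x}, cq X Y x e.1 = cq X Y x e'.1 → cv X Y x e.1 < cv X Y x e'.1 →
      V e < V e')
    (m3 : ∀ g e : {a // a ≠ x}, cq X Y x g.1 = cq X Y x e.1 + 1 →
      cv X Y x g.1 < cu X Y x e.1 → V g < U e)
    (m4 : ∀ g e : {a // a ≠ x}, cq X Y x g.1 = cq X Y x e.1 + 1 →
      cu X Y x e.1 < cv X Y x g.1 → U e < V g) (e e' : {a // a ≠ x}) :
    (X e.1 < X e'.1 → plF (cq X Y x e.1) (U e) (V e) < plF (cq X Y x e'.1) (U e') (V e')) ∧
    (Y e.1 < Y e'.1 → plG (cq X Y x e.1) (U e) (V e) < plG (cq X Y x e'.1) (U e') (V e')) := by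
  have u1 := hU e
  have u2 := hU e'
  have v1 := hV e
  have v2 := hV e'
  have n1 := m1 e e'
  have n1' := m1 e' e
  have n2 := m2 e e'
  have n2' := m2 e' e
  have n3 := m3 e e'
  have n3' := m3 e' e
  have n4 := m4 e e'
  have n4' := m4 e' e
  rcases cl hX hY e.2 with ⟨q, a, b, c, d⟩ | ⟨q, a, b, c, d⟩ | ⟨q, a, b, c, d⟩ | ⟨q, a, b, c, d⟩ <;>
    rcases cl hX hY e'.2 with ⟨q', a', b', c', d'⟩ | ⟨q', a', b', c', d'⟩ | ⟨q', a', b', c', d'⟩ |
      ⟨q', a', b', c', d'⟩
  · rw [q, q', (pl0 _ _).1, (pl0 _ _).2, (pl0 _ _).1, (pl0 _ _).2]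
    exact ⟨fun h => n2 (by rw [q, q']) (by rw [b, b']; linarith), fun h => n1 (by rw [q, q']) (by rw [a, a']; linarith)⟩
  · rw [q, q', (pl0 _ _).1, (pl0 _ _).2, (pl1 _ _).1, (pl1 _ _).2]
    exact ⟨fun h => by linarith, fun h => n4' (by rw [q, q']; rfl) (by rw [a, b']; linarith)⟩
  · exact ⟨fun h => by linarith, fun h => by linarith⟩
  · rw [q, q', (pl0 _ _).1, (pl0 _ _).2, (pl3 _ _).1, (pl3 _ _).2]
    exact ⟨fun h => n3 (by rw [q, q']; rfl) (by rw [b, a']; linarith), fun h => by linarith⟩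
  · rw [q, q', (pl1 _ _).1, (pl1 _ _).2, (pl0 _ _).1, (pl0 _ _).2]
    exact ⟨fun h => by linarith, fun h => n3 (by rw [q, q']; rfl) (by rw [b, a']; linarith)⟩
  · rw [q, q', (pl1 _ _).1, (pl1 _ _).2, (pl1 _ _).1, (pl1 _ _).2]
    exact ⟨fun h => by have := n1' (by rw [q, q']) (by rw [a, a']; linarith); linarith, fun h => n2 (by rw [q, q']) (by rw [b, b']; linarith)⟩
  · rw [q, q', (pl1 _ _).1, (pl1 _ _).2, (pl2 _ _).1, (pl2 _ _).2]
    exact ⟨fun h => by have := n3' (by rw [q, q']; rfl) (by rw [b', a]; linarith); linarith, fun h => by linarith⟩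
  · rw [q, q', (pl1 _ _).1, (pl1 _ _).2, (pl3 _ _).1, (pl3 _ _).2]
    exact ⟨fun h => by linarith, fun h => by linarith⟩
  · rw [q, q', (pl2 _ _).1, (pl2 _ _).2, (pl0 _ _).1, (pl0 _ _).2]
    exact ⟨fun h => by linarith, fun h => by linarith⟩
  · rw [q, q', (pl2 _ _).1, (pl2 _ _).2, (pl1 _ _).1, (pl1 _ _).2]
    exact ⟨fun h => by have := n4 (by rw [q, q']; rfl) (by rw [a', b]; linarith); linarith, fun h => by linarith⟩
  · rw [q, q', (pl2 _ _).1, (pl2 _ _).2, (pl2 _ _).1, (pl2 _ _).2]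
    exact ⟨fun h => by have := n2' (by rw [q, q']) (by rw [b, b']; linarith); linarith,
      fun h => by have := n1' (by rw [q, q']) (by rw [a, a']; linarith); linarith⟩
  · rw [q, q', (pl2 _ _).1, (pl2 _ _).2, (pl3 _ _).1, (pl3 _ _).2]
    exact ⟨fun h => by linarith, fun h => by have := n3' (by rw [q, q']; rfl) (by rw [b', a]; linarith); linarith⟩
  · rw [q, q', (pl3 _ _).1, (pl3 _ _).2, (pl0 _ _).1, (pl0 _ _).2]
    exact ⟨fun h => n4' (by rw [q, q']; rfl) (by rw [a, b']; linarith), fun h => by linarith⟩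
  · rw [q, q', (pl3 _ _).1, (pl3 _ _).2, (pl1 _ _).1, (pl1 _ _).2]
    exact ⟨fun h => by linarith, fun h => by linarith⟩
  · rw [q, q', (pl3 _ _).1, (pl3 _ _).2, (pl2 _ _).1, (pl2 _ _).2]
    exact ⟨fun h => by linarith, fun h => by have := n4 (by rw [q, q']; rfl) (by rw [a', b]; linarith); linarith⟩
  · rw [q, q', (pl3 _ _).1, (pl3 _ _).2, (pl3 _ _).1, (pl3 _ _).2]
    exact ⟨fun h => n1 (by rw [q, q']) (by rw [a, a']; linarith), fun h => by have := n2' (by rw [q, q']) (by rw [b, b']; linarith); linarith⟩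

end mono

section rank

open Classical in
/-- Rank of an address among the used ones. -/
noncomputable def rk (s : Finset Adr) (z : Adr) : ℚ := ((s.filter (fun w => w ≤ z)).card : ℚ)

theorem rk_mono {s : Finset Adr} {z z' : Adr} (h : z ≤ z') : rk s z ≤ rk s z' := by
  unfold rk
  norm_cast
  apply Finset.card_le_card
  intro w hw
  simp only [Finset.mem_filter] at hw ⊢
  exact ⟨hw.1, hw.2.trans h⟩

theorem rk_lt {s : Finset Adr} {z z' : Adr} (h : z < z') (hz : z' ∈ s) : rk s z < rk s z' := by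
  unfold rk
  norm_cast
  apply Finset.card_lt_card
  rw [Finset.ssubset_iff_of_subset]
  · refine ⟨z', by simp [hz], by simp [h]⟩
  · intro w hw
    simp only [Finset.mem_filter] at hw ⊢
    exact ⟨hw.1, hw.2.trans h.le⟩

theorem rk_pos {s : Finset Adr} {z : Adr} (hz : z ∈ s) : 0 < rk s z := by
  unfold rk
  norm_cast
  rw [Finset.card_pos]
  exact ⟨z, by simp [hz]⟩

theorem lt_of_rk {s : Finset Adr} {z z' : Adr} (h : rk s z < rk s z') : z < z' := by
  by_contra hc
  push Not at hc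
  have := rk_mono (s := s) hc
  linarith

theorem rk_inj {s : Finset Adr} {z z' : Adr} (hz : z ∈ s) (hz' : z' ∈ s) :
    rk s z = rk s z' ↔ z = z' := by
  constructor
  · intro h
    rcases lt_trichotomy z z' with h' | h' | h'
    · have := rk_lt h' hz'
      linarith
    · exact h'
    · have := rk_lt h' hz
      linarith
  · rintro rfl
    rfl

end rank

section last

theorem side_last {α : Type*} {X Y : α → ℚ} (hX : Function.Injective X)
    (hY : Function.Injective Y) {x : α} (P : Side {a // a ≠ x})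
    (hPq : P.q = fun e => cq X Y x e.1) (hPu : P.u = fun e => cu X Y x e.1)
    (hPv : P.v = fun e => cv X Y x e.1) {ye : {a // a ≠ x}} (hy0 : P.q ye = 0)
    {F G : α → ℚ} (hF : ∀ a b, X x ≤ X a → X a < X b → F a < F b)
    (hG : ∀ a b, X x ≤ X a → X x ≤ X b → Y a < Y b → G a < G b) {ε η : ℚ} (hε : 0 < ε)
    (h0 : 0 ≤ η) (hη : η ≤ ε) (gap : ∀ a b, F a < F b → F a + ε < F b) :
    ∃ l : {a // a ≠ x} → ℚ,
      (∀ g, P.sc g ye → ∀ g', P.sc g' ye → P.v g < P.v g' → l g < F g'.1 - F x) ∧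
      (∀ g, P.sc g ye → F g.1 - F x < l g) ∧
      (∀ g, P.sc g ye → ∀ g', P.sc g' ye → P.v g < P.v g' → F g.1 < F g'.1) ∧
      (∀ g, P.sc g ye → ∀ g', P.sc g' ye → P.u g < P.u g' → G g.1 < G g'.1) ∧
      (∀ g, P.sc g ye → X x ≤ X g.1 ∧ G x < G g.1) ∧
      (∀ g, P.sc g ye → P.par g → ∃ c : α, X x ≤ X c ∧ G c < G x ∧ l g = F c - F x + η) := by
  classical
  have hcell : ∀ g, P.sc g ye → P.u g = Y g.1 - Y x ∧ P.v g = X g.1 - X x ∧ X x < X g.1 ∧
      Y x < Y g.1 := by
    intro g hg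
    have h1 : P.q g = P.q ye := hg.1
    rw [hy0] at h1
    rw [hPq] at h1
    rw [hPu, hPv]
    exact cl0 hX hY g.2 h1
  have hchild : ∀ g c, P.sc g ye → 0 < P.lv c → P.p c = g → P.u c = X c.1 - X x ∧
      X x < X c.1 ∧ Y c.1 < Y x ∧ F g.1 < F c.1 ∧
      ∀ g', P.sc g' ye → P.v g < P.v g' → F c.1 < F g'.1 := by
    intro g c hg h0 hp
    have h1 : P.q g = P.q ye := hg.1
    have h2 := P.lev.pq c h0
    have h3 := P.lev.pl c h0
    have h4 := P.lev.pv c h0
    rw [hp] at h2 h3 h4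
    rw [hy0, h2] at h1
    have h5 : P.q c = 3 := by
      rcases cases4 (P.q c) with h | h | h | h
      · rw [h] at h1; exact absurd h1 (by decide)
      · rw [h] at h1; exact absurd h1 (by decide)
      · rw [h] at h1; exact absurd h1 (by decide)
      · exact h
    have h5' := h5
    rw [hPq] at h5'
    have h6 := cl3 hX hY c.2 h5'
    have h7 : P.u c = X c.1 - X x := by
      rw [hPu]
      exact h6.1
    obtain ⟨g1, g2, g3, g4⟩ := hcell g hg
    refine ⟨h7, h6.2.2.1, h6.2.2.2, ?_, ?_⟩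
    · apply hF _ _ g3.le
      linarith
    · intro g' hg' hv
      obtain ⟨k1, k2, k3, k4⟩ := hcell g' hg'
      have hq : P.q g' = P.q c + 1 := by
        have : P.q g' = P.q ye := hg'.1
        rw [this, hy0, h1]
      have h8 : P.u c < P.v g' := by
        rcases lt_trichotomy (P.u c) (P.v g') with h | h | h
        · exact h
        · exact absurd h.symm (P.cen.iuv g' c hq)
        · have h9 : P.lv g' = P.lv g := (SC.trans hg' (SC.symm hg)).2.1
          have := P.lev.pm c g' h0 hq (by omega) h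
          rw [hp] at this
          linarith
      apply hF _ _ h6.2.2.1.le
      linarith
  let l : {a // a ≠ x} → ℚ := fun g =>
    if h : ∃ c, 0 < P.lv c ∧ P.p c = g then F (Classical.choose h).1 - F x + η
    else F g.1 - F x + ε
  have hl1 : ∀ g (h : ∃ c, 0 < P.lv c ∧ P.p c = g),
      l g = F (Classical.choose h).1 - F x + η := fun g h => dif_pos h
  have hl2 : ∀ g (_ : ¬ ∃ c, 0 < P.lv c ∧ P.p c = g), l g = F g.1 - F x + ε :=
    fun g h => dif_neg h
  have mv : ∀ g, P.sc g ye → ∀ g', P.sc g' ye → P.v g < P.v g' → F g.1 < F g'.1 := by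
    intro g hg g' hg' hv
    obtain ⟨a1, a2, a3, a4⟩ := hcell g hg
    obtain ⟨b1, b2, b3, b4⟩ := hcell g' hg'
    exact hF _ _ a3.le (by linarith)
  refine ⟨l, ?_, ?_, mv, ?_, ?_, ?_⟩
  · intro g hg g' hg' hv
    by_cases h : ∃ c, 0 < P.lv c ∧ P.p c = g
    · have hc := Classical.choose_spec h
      have h1 := (hchild g _ hg hc.1 hc.2).2.2.2.2 g' hg' hv
      rw [hl1 g h]
      have := gap _ _ h1
      linarith
    · rw [hl2 g h]
      have := gap _ _ (mv g hg g' hg' hv)
      linarith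
  · intro g hg
    by_cases h : ∃ c, 0 < P.lv c ∧ P.p c = g
    · have hc := Classical.choose_spec h
      have h1 := (hchild g _ hg hc.1 hc.2).2.2.2.1
      rw [hl1 g h]
      linarith
    · rw [hl2 g h]
      linarith
  · intro g hg g' hg' hu
    obtain ⟨a1, a2, a3, a4⟩ := hcell g hg
    obtain ⟨b1, b2, b3, b4⟩ := hcell g' hg'
    exact hG _ _ a3.le b3.le (by linarith)
  · intro g hg
    obtain ⟨a1, a2, a3, a4⟩ := hcell g hg
    exact ⟨a3.le, hG _ _ le_rfl a3.le a4⟩
  · intro g hg h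
    have h' : ∃ c, 0 < P.lv c ∧ P.p c = g := h
    have hc := Classical.choose_spec h'
    have h1 := hchild g _ hg hc.1 hc.2
    exact ⟨_, h1.2.1.le, hG _ _ h1.2.1.le le_rfl h1.2.2.1, hl1 g h'⟩

theorem cell_last {α β : Type*} [Finite α] [Finite β] {X Y : α → ℚ} {X' Y' : β → ℚ}
    (hX : Function.Injective X) (hY : Function.Injective Y) (hX' : Function.Injective X')
    (hY' : Function.Injective Y') {x : α} {x' : β} (P : Side {a // a ≠ x})
    (S : Side {b // b ≠ x'})
    (hPq : P.q = fun e => cq X Y x e.1) (hPu : P.u = fun e => cu X Y x e.1)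
    (hPv : P.v = fun e => cv X Y x e.1) (hSq : S.q = fun e => cq X' Y' x' e.1)
    (hSu : S.u = fun e => cu X' Y' x' e.1) (hSv : S.v = fun e => cv X' Y' x' e.1)
    {ye : {a // a ≠ x}} (hy0 : P.q ye = 0) {ye' : {b // b ≠ x'}} (hy0' : S.q ye' = 0)
    {F G : α → ℚ} {F' G' : β → ℚ} (hF : ∀ a b, X x ≤ X a → X a < X b → F a < F b)
    (hG : ∀ a b, X x ≤ X a → X x ≤ X b → Y a < Y b → G a < G b)
    (hF' : ∀ a b, X' x' ≤ X' a → X' a < X' b → F' a < F' b)
    (hG' : ∀ a b, X' x' ≤ X' a → X' x' ≤ X' b → Y' a < Y' b → G' a < G' b)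
    (hx1 : F x = F' x') (hx2 : G x = G' x') (hy1 : F ye.1 = F' ye'.1) (hy2 : G ye.1 = G' ye'.1)
    (heq : ∀ a b, X x ≤ X a → X' x' ≤ X' b → (F a = F' b ↔ G a = G' b))
    (hav : ∀ a b c d : α ⊕ β, Sum.elim (fun a => X x ≤ X a) (fun b => X' x' ≤ X' b) a →
      Sum.elim (fun a => X x ≤ X a) (fun b => X' x' ≤ X' b) b →
      Sum.elim (fun a => X x ≤ X a) (fun b => X' x' ≤ X' b) c →
      Sum.elim (fun a => X x ≤ X a) (fun b => X' x' ≤ X' b) d →
      Sum.elim F F' a < Sum.elim F F' b → Sum.elim F F' b < Sum.elim F F' c →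
      Sum.elim F F' c < Sum.elim F F' d → Sum.elim G G' b < Sum.elim G G' d →
      Sum.elim G G' d < Sum.elim G G' a → Sum.elim G G' a < Sum.elim G G' c → False) :
    ∃ (usP vsP lP : {a // a ≠ x} → ℚ) (usS vsS lS : {b // b ≠ x'} → ℚ),
      CellData {g | P.sc g ye} {s | S.sc s ye'} P.u P.v S.u S.v P.par S.par (fun _ _ => False)
        usP vsP lP usS vsS lS ∧ vsP ye = vsS ye' ∧ usP ye = usS ye' := by
  classical
  obtain ⟨ε, hε, gap⟩ := exists_gap (Sum.elim F F')
  obtain ⟨l, l1, l2, l3, l4, l5, l6⟩ := side_last hX hY P hPq hPu hPv hy0 hF hG (ε := ε)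
    (η := 0) hε le_rfl hε.le (fun a b h => gap (Sum.inl a) (Sum.inl b) h)
  obtain ⟨l', l1', l2', l3', l4', l5', l6'⟩ := side_last hX' hY' S hSq hSu hSv hy0' hF' hG'
    (ε := ε) (η := ε) hε hε.le le_rfl (fun a b h => gap (Sum.inr a) (Sum.inr b) h)
  let W : α ⊕ β → Prop := Sum.elim (fun a => X x ≤ X a) (fun b => X' x' ≤ X' b)
  have feq : ∀ t t' : α ⊕ β, W t → W t' → Sum.elim F F' t = Sum.elim F F' t' →
      Sum.elim G G' t = Sum.elim G G' t' := by
    rintro (t | t) (t' | t') ht ht' h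
    · simp only [Sum.elim_inl] at h ⊢
      have : t = t' := by
        apply hX
        rcases lt_trichotomy (X t) (X t') with h1 | h1 | h1
        · have := hF t t' ht h1
          linarith
        · exact h1
        · have := hF t' t ht' h1
          linarith
      rw [this]
    · exact (heq t t' ht ht').1 h
    · exact ((heq t' t ht' ht).1 h.symm).symm
    · simp only [Sum.elim_inr] at h ⊢
      have : t = t' := by
        apply hX'
        rcases lt_trichotomy (X' t) (X' t') with h1 | h1 | h1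
        · have := hF' t t' ht h1
          linarith
        · exact h1
        · have := hF' t' t ht' h1
          linarith
      rw [this]
  let i : {a // a ≠ x} ⊕ {b // b ≠ x'} → α ⊕ β := Sum.map Subtype.val Subtype.val
  have hvs : ∀ t, Sum.elim (fun g : {a // a ≠ x} => F g.1 - F x)
      (fun s : {b // b ≠ x'} => F' s.1 - F' x') t = Sum.elim F F' (i t) - F x := by
    rintro (t | t)
    · rfl
    · simp only [Sum.elim_inr, i, Sum.map_inr]
      rw [hx1]
  have hus : ∀ t, Sum.elim (fun g : {a // a ≠ x} => G g.1 - G x)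
      (fun s : {b // b ≠ x'} => G' s.1 - G' x') t = Sum.elim G G' (i t) - G x := by
    rintro (t | t)
    · rfl
    · simp only [Sum.elim_inr, i, Sum.map_inr]
      rw [hx2]
  have hW : ∀ t, Sum.elim (· ∈ {g | P.sc g ye}) (· ∈ {s | S.sc s ye'}) t →
      W (i t) ∧ G x < Sum.elim G G' (i t) := by
    rintro (t | t) ht
    · exact l5 t ht
    · have := l5' t ht
      refine ⟨this.1, ?_⟩
      rw [hx2]
      exact this.2
  have hpar : ∀ g, Sum.elim (· ∈ {g | P.sc g ye}) (· ∈ {s | S.sc s ye'}) g →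
      Sum.elim P.par S.par g → ∃ (c : α ⊕ β) (η : ℚ), W c ∧ Sum.elim G G' c < G x ∧ 0 ≤ η ∧ η ≤ ε ∧
      Sum.elim l l' g = Sum.elim F F' c - F x + η := by
    rintro (g | g) hg hp
    · obtain ⟨c, c1, c2, c3⟩ := l6 g hg hp
      exact ⟨Sum.inl c, 0, c1, c2, le_rfl, hε.le, c3⟩
    · obtain ⟨c, c1, c2, c3⟩ := l6' g hg hp
      refine ⟨Sum.inr c, ε, c1, ?_, hε.le, le_rfl, ?_⟩
      · rw [hx2]
        exact c2
      · simp only [Sum.elim_inr]
        rw [c3, hx1]
  -- comparison with the position of a child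
  have hcmp : ∀ (t c : α ⊕ β) (η : ℚ), W t → W c → G x < Sum.elim G G' t →
      Sum.elim G G' c < G x → 0 ≤ η → η ≤ ε → Sum.elim F F' t ≤ Sum.elim F F' c + η →
      Sum.elim F F' t < Sum.elim F F' c := by
    intro t c η ht hc h1 h2 h3 h4 h5
    rcases lt_trichotomy (Sum.elim F F' t) (Sum.elim F F' c) with h | h | h
    · exact h
    · have := feq t c ht hc h
      linarith
    · have := gap c t h
      linarith
  refine ⟨fun g => G g.1 - G x, fun g => F g.1 - F x, l, fun s => G' s.1 - G' x',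
    fun s => F' s.1 - F' x', l', ?_, ?_, ?_⟩
  · constructor
    · exact l1
    · exact l2
    · intro g hg g' hg' h
      have := l4 g hg g' hg' h
      linarith
    · intro g hg
      have := (l5 g hg).2
      linarith
    · exact l1'
    · exact l2'
    · intro g hg g' hg' h
      have := l4' g hg g' hg' h
      linarith
    · intro g hg
      have := (l5' g hg).2
      linarith
    · intro a b c d ma mb mc md k1 k2 k3 k4 k5 k6
      rw [hvs, hvs] at k1 k2 k3
      rw [hus, hus] at k4 k5 k6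
      exact hav (i a) (i b) (i c) (i d) (hW a ma).1 (hW b mb).1 (hW c mc).1 (hW d md).1
        (by linarith) (by linarith) (by linarith) (by linarith) (by linarith) (by linarith)
    · intro g t mg mt hp h
      obtain ⟨c, η, c1, c2, c3, c4, c5⟩ := hpar g mg hp
      rw [hvs, c5] at h
      have h1 := hcmp (i t) c η (hW t mt).1 c1 (hW t mt).2 c2 c3 c4 (by linarith)
      linarith
    · intro g a c e mg ma mc me hp k1 k2 k3 k4 k5
      obtain ⟨w, η, c1, c2, c3, c4, c5⟩ := hpar g mg hp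
      rw [hvs, c5] at k1
      rw [hvs, c5] at k2
      rw [hvs, hvs] at k3
      rw [hus, hus] at k4 k5
      have h1 := hcmp (i a) w η (hW a ma).1 c1 (hW a ma).2 c2 c3 c4 (by linarith)
      exact hav (i a) w (i c) (i e) (hW a ma).1 c1 (hW c mc).1 (hW e me).1 h1
        (by linarith) (by linarith) (by linarith [(hW e me).2]) (by linarith) (by linarith)
    · intro g hg s hs hpg hps h
      obtain ⟨c, c1, c2, c3⟩ := l6 g hg hpg
      obtain ⟨c', c1', c2', c3'⟩ := l6' s hs hps
      rw [c3, c3'] at h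
      have := gap (Sum.inr c') (Sum.inl c) (by
        simp only [Sum.elim_inl, Sum.elim_inr]
        linarith)
      simp only [Sum.elim_inl, Sum.elim_inr] at this
      linarith
    · intro g hg s hs
      have := heq g.1 s.1 (l5 g hg).1 (l5' s hs).1
      constructor
      · intro h
        have h2 := this.1 (by linarith)
        linarith
      · intro h
        have h2 := this.2 (by linarith)
        linarith
  · show F ye.1 - F x = F' ye'.1 - F' x'
    linarith
  · show G ye.1 - G x = G' ye'.1 - G' x'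
    linarith

end last

end Pool.Agent.H47.Amal
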