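import Mathlib

/-!
Lexicographic address systems realise centred structures without the pattern 3142.
-/

namespace Pool.Agent.H47.Amal

/-- The four families of conditions which say that a centred structure
(quadrants `q`, near-far coordinates `u`, `v`) has no pattern 3142. -/
structure CenAx {T : Type*} {K : Type*} [LinearOrder K] (q : T → ZMod 4) (u v : T → K) :
    Prop where
  c0 : ∀ a b c d, q a = q b → q b = q c → q c = q d → v a < v b → v b < v c → v c < v d →
    u b < u d → u d < u a → u a < u c → False
  c1 : ∀ g e e', q g = q e + 1 → q e = q e' → u e < v g → v g < u e' → v e' < v e → False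
  c2 : ∀ e0 e1 e2 e3, q e0 = 0 → q e1 = 1 → q e2 = 2 → q e3 = 3 → v e1 < u e0 → v e2 < u e1 →
    v e3 < u e2 → v e0 < u e3 → False
  c3 : ∀ a b c e, q a = q c → q c = q e → q a = q b + 1 → v a < u b → u b < v c → v c < v e →
    u e < u a → u a < u c → False

/-- The ordered set of addresses. -/
abbrev Adr := ℕ ×ₗ Lex (ℕ → ℚ)

/-- An address. -/
def val (n : ℕ) (f : ℕ → ℚ) : Adr := toLex (n, toLex f)

theorem val_lt {n m : ℕ} {f g : ℕ → ℚ} :
    val n f < val m g ↔ n < m ∨ (n = m ∧ toLex f < toLex g) := by
  unfold val
  rw [Prod.Lex.toLex_lt_toLex]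

theorem val_le {n m : ℕ} {f g : ℕ → ℚ} :
    val n f ≤ val m g ↔ n < m ∨ (n = m ∧ toLex f ≤ toLex g) := by
  unfold val
  rw [Prod.Lex.toLex_le_toLex]

theorem val_eq {n m : ℕ} {f g : ℕ → ℚ} : val n f = val m g ↔ n = m ∧ f = g := by
  unfold val
  constructor
  · intro h
    have h' := toLex.injective h
    simp only [Prod.mk.injEq] at h'
    exact ⟨h'.1, toLex.injective h'.2⟩
  · rintro ⟨rfl, rfl⟩
    rfl

theorem lex_lt {f g : ℕ → ℚ} :
    toLex f < toLex g ↔ ∃ i, (∀ j < i, f j = g j) ∧ f i < g i := Iff.rfl

theorem upd_lt {n : ℕ} {f g : ℕ → ℚ} {x y : ℚ} (hf : ∀ j, n ≤ j → f j = 0)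
    (hg : ∀ j, n ≤ j → g j = 0) :
    toLex (Function.update f n x) < toLex (Function.update g n y) ↔
      toLex f < toLex g ∨ (f = g ∧ x < y) := by
  rw [lex_lt, lex_lt]
  constructor
  · rintro ⟨i, h1, h2⟩
    rcases lt_trichotomy i n with hi | hi | hi
    · left
      refine ⟨i, fun j hj => ?_, ?_⟩
      · have := h1 j hj
        rwa [Function.update_of_ne (by omega), Function.update_of_ne (by omega)] at this
      · rwa [Function.update_of_ne (by omega), Function.update_of_ne (by omega)] at h2
    · subst hi
      right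
      refine ⟨?_, ?_⟩
      · funext j
        rcases lt_or_ge j i with hj | hj
        · have := h1 j hj
          rwa [Function.update_of_ne (by omega), Function.update_of_ne (by omega)] at this
        · rw [hf j hj, hg j hj]
      · simpa using h2
    · exfalso
      rw [Function.update_of_ne (by omega), Function.update_of_ne (by omega), hf i hi.le,
        hg i hi.le] at h2
      exact lt_irrefl _ h2
  · rintro (⟨i, h1, h2⟩ | ⟨rfl, h⟩)
    · have hi : i < n := by
        by_contra hc
        push Not at hc
        rw [hf i hc, hg i hc] at h2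
        exact lt_irrefl _ h2
      refine ⟨i, fun j hj => ?_, ?_⟩
      · rw [Function.update_of_ne (by omega), Function.update_of_ne (by omega)]
        exact h1 j hj
      · rw [Function.update_of_ne (by omega), Function.update_of_ne (by omega)]
        exact h2
    · refine ⟨n, fun j hj => ?_, ?_⟩
      · rw [Function.update_of_ne (by omega), Function.update_of_ne (by omega)]
      · simpa using h

theorem upd_self {n : ℕ} {f : ℕ → ℚ} (hf : ∀ j, n ≤ j → f j = 0) :
    Function.update f n 0 = f := by
  funext j
  by_cases h : j = n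
  · subst h
    simp [hf j le_rfl]
  · rw [Function.update_of_ne h]

theorem sandwich {m : ℕ} {f w f' : ℕ → ℚ} (h : ∀ j < m, f j = f' j)
    (h1 : toLex f ≤ toLex w) (h2 : toLex w ≤ toLex f') :
    (∀ j < m, w j = f j) ∧ f m ≤ w m ∧ w m ≤ f' m := by
  have key : ∀ j, (∀ k < j, w k = f k) → (∀ k < j, f k = f' k) → f j ≤ w j ∧ w j ≤ f' j := by
    intro j hj hj'
    constructor
    · by_contra hc
      push Not at hc
      exact absurd (lex_lt.2 ⟨j, hj, hc⟩) (not_lt.2 h1)
    · by_contra hc
      push Not at hc
      refine absurd (lex_lt.2 ⟨j, fun k hk => ?_, hc⟩) (not_lt.2 h2)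
      rw [hj k hk, hj' k hk]
  have all : ∀ j, j < m → w j = f j := by
    intro j
    induction j using Nat.strong_induction_on with
    | _ j ih =>
      intro hj
      have := key j (fun k hk => ih k hk (by omega)) (fun k hk => h k (by omega))
      have e := h j hj
      linarith [this.1, this.2]
  exact ⟨all, key m (fun k hk => all k hk) h⟩

section realize

variable {T : Type*} (q : T → ZMod 4) (len : T → ℕ) (pre : T → ℕ → ℚ) (vs us : T → ℚ)

/-- The `u` address. -/
def adrU (t : T) : Adr := val (len t) (Function.update (pre t) (len t) (us t))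

/-- The `v` address. -/
def adrV (t : T) : Adr := val (len t + 1) (Function.update (pre t) (len t) (vs t))

/-- The address of the cell. -/
def adrP (t : T) : Adr := val (len t) (pre t)

variable {q len pre vs us}

theorem adrV_supp (hs : ∀ t j, len t ≤ j → pre t j = 0) (t : T) :
    ∀ j, len t + 1 ≤ j → Function.update (pre t) (len t) (vs t) j = 0 := by
  intro j hj
  rw [Function.update_of_ne (by omega)]
  exact hs t j (by omega)

theorem adrV_lt (hs : ∀ t j, len t ≤ j → pre t j = 0) {e e' : T} :
    adrV len pre vs e < adrV len pre vs e' ↔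
      adrP len pre e < adrP len pre e' ∨ (adrP len pre e = adrP len pre e' ∧ vs e < vs e') := by
  unfold adrV adrP
  rw [val_lt, val_lt, val_eq]
  constructor
  · rintro (h | ⟨h, h'⟩)
    · left; left; omega
    · have hl : len e = len e' := by omega
      rw [hl, upd_lt (by rw [← hl]; exact hs e) (hs e')] at h'
      rcases h' with h' | h'
      · left; right; exact ⟨hl, h'⟩
      · right; exact ⟨⟨hl, h'.1⟩, h'.2⟩
  · rintro ((h | ⟨hl, h'⟩) | ⟨⟨hl, h'⟩, h''⟩)
    · left; omega
    · right
      refine ⟨by omega, ?_⟩
      rw [hl, upd_lt (by rw [← hl]; exact hs e) (hs e')]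
      exact Or.inl h'
    · right
      refine ⟨by omega, ?_⟩
      rw [hl, upd_lt (by rw [← hl]; exact hs e) (hs e')]
      exact Or.inr ⟨h', h''⟩

theorem adrU_lt (hs : ∀ t j, len t ≤ j → pre t j = 0) {e e' : T} :
    adrU len pre us e < adrU len pre us e' ↔
      adrP len pre e < adrP len pre e' ∨ (adrP len pre e = adrP len pre e' ∧ us e < us e') := by
  unfold adrU adrP
  rw [val_lt, val_lt, val_eq]
  constructor
  · rintro (h | ⟨h, h'⟩)
    · left; left; omega
    · have hl : len e = len e' := by omega
      rw [hl, upd_lt (by rw [← hl]; exact hs e) (hs e')] at h'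
      rcases h' with h' | h'
      · left; right; exact ⟨hl, h'⟩
      · right; exact ⟨⟨hl, h'.1⟩, h'.2⟩
  · rintro ((h | ⟨hl, h'⟩) | ⟨⟨hl, h'⟩, h''⟩)
    · left; omega
    · right
      refine ⟨by omega, ?_⟩
      rw [hl, upd_lt (by rw [← hl]; exact hs e) (hs e')]
      exact Or.inl h'
    · right
      refine ⟨by omega, ?_⟩
      rw [hl, upd_lt (by rw [← hl]; exact hs e) (hs e')]
      exact Or.inr ⟨h', h''⟩

theorem adrU_lt_adrV (hs : ∀ t j, len t ≤ j → pre t j = 0) (hu : ∀ t, 0 < us t) {e g : T} :
    adrU len pre us e < adrV len pre vs g ↔ adrP len pre e < adrV len pre vs g := by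
  unfold adrU adrV adrP
  rw [val_lt, val_lt]
  constructor
  · rintro (h | ⟨h, h'⟩)
    · exact Or.inl h
    · refine Or.inr ⟨h, ?_⟩
      have h2 := upd_self (adrV_supp (vs := vs) hs g)
      rw [← h2, ← h, upd_lt (hs e) (by rw [h]; exact adrV_supp hs g)] at h'
      rcases h' with h' | h'
      · exact h'
      · exact absurd h'.2 (not_lt.2 (hu e).le)
  · rintro (h | ⟨h, h'⟩)
    · exact Or.inl h
    · refine Or.inr ⟨h, ?_⟩
      have h2 := upd_self (adrV_supp (vs := vs) hs g)
      rw [← h2, ← h, upd_lt (hs e) (by rw [h]; exact adrV_supp hs g)]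
      exact Or.inl h'

theorem adrV_lt_adrU (hs : ∀ t j, len t ≤ j → pre t j = 0) (hu : ∀ t, 0 < us t) {e g : T} :
    adrV len pre vs g < adrU len pre us e ↔ adrV len pre vs g ≤ adrP len pre e := by
  unfold adrU adrV adrP
  rw [val_lt, val_le]
  constructor
  · rintro (h | ⟨h, h'⟩)
    · exact Or.inl h
    · refine Or.inr ⟨h, ?_⟩
      have h2 := upd_self (adrV_supp (vs := vs) hs g)
      rw [← h2, h, upd_lt (by rw [← h]; exact adrV_supp hs g) (hs e)] at h'
      rcases h' with h' | h'
      · exact h'.le
      · rw [h'.1]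
  · rintro (h | ⟨h, h'⟩)
    · exact Or.inl h
    · refine Or.inr ⟨h, ?_⟩
      have h2 := upd_self (adrV_supp (vs := vs) hs g)
      rw [← h2, h, upd_lt (by rw [← h]; exact adrV_supp hs g) (hs e)]
      rcases h'.lt_or_eq with h3 | h3
      · exact Or.inl h3
      · exact Or.inr ⟨toLex.injective h3, hu e⟩

/-- An address system realises a centred structure without 3142. -/
theorem realize (hs : ∀ t j, len t ≤ j → pre t j = 0) (hu : ∀ t, 0 < us t)
    (g0 : ∀ a b c d, q a = q b → q b = q c → q c = q d → len a = len b → len b = len c →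
      len c = len d → pre a = pre b → pre b = pre c → pre c = pre d →
      vs a < vs b → vs b < vs c → vs c < vs d → us b < us d → us d < us a → us a < us c → False)
    (g1 : ∀ g b, q g = q b + 1 → len b = len g + 1 → (∀ j < len g, pre b j = pre g j) →
      vs g ≠ pre b (len g))
    (g2 : ∀ a b c e, q a = q c → q c = q e → q a = q b + 1 → len a = len c → len c = len e →
      pre a = pre c → pre c = pre e → len b = len a + 1 → (∀ j < len a, pre b j = pre a j) →
      vs a < pre b (len a) → pre b (len a) < vs c → vs c < vs e → us e < us a → us a < us c →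
      False) :
    CenAx q (adrU len pre us) (adrV len pre vs) := by
  constructor
  · intro a b c d hab hbc hcd h1 h2 h3 h4 h5 h6
    rw [adrV_lt hs] at h1 h2 h3
    rw [adrU_lt hs] at h4 h5 h6
    have l1 : adrP len pre a ≤ adrP len pre b := by
      rcases h1 with h | h
      exacts [h.le, h.1.le]
    have l2 : adrP len pre b ≤ adrP len pre c := by
      rcases h2 with h | h
      exacts [h.le, h.1.le]
    have l3 : adrP len pre c ≤ adrP len pre d := by
      rcases h3 with h | h
      exacts [h.le, h.1.le]
    have l4 : adrP len pre d ≤ adrP len pre a := by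
      rcases h5 with h | h
      exacts [h.le, h.1.le]
    have e1 : adrP len pre a = adrP len pre b := le_antisymm l1 (l2.trans (l3.trans l4))
    have e2 : adrP len pre b = adrP len pre c := le_antisymm l2 (l3.trans (l4.trans l1))
    have e3 : adrP len pre c = adrP len pre d := le_antisymm l3 (l4.trans (l1.trans l2))
    have s1 := h1.resolve_left (by rw [e1]; exact lt_irrefl _)
    have s2 := h2.resolve_left (by rw [e2]; exact lt_irrefl _)
    have s3 := h3.resolve_left (by rw [e3]; exact lt_irrefl _)
    have s4 := h4.resolve_left (by rw [e2, e3]; exact lt_irrefl _)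
    have s5 := h5.resolve_left (by rw [e1, e2, e3]; exact lt_irrefl _)
    have s6 := h6.resolve_left (by rw [e1, e2]; exact lt_irrefl _)
    have t1 := val_eq.1 e1
    have t2 := val_eq.1 e2
    have t3 := val_eq.1 e3
    exact g0 a b c d hab hbc hcd t1.1 t2.1 t3.1 t1.2 t2.2 t3.2 s1.2 s2.2 s3.2 s4.2 s5.2 s6.2
  · intro g e e' _ _ h1 h2 h3
    rw [adrU_lt_adrV hs hu] at h1
    rw [adrV_lt_adrU hs hu] at h2
    rw [adrV_lt hs] at h3
    have l3 : adrP len pre e' ≤ adrP len pre e := by
      rcases h3 with h | h
      exacts [h.le, h.1.le]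
    exact lt_irrefl _ (h1.trans_le (h2.trans l3))
  · intro e0 e1 e2 e3 _ _ _ _ h1 h2 h3 h4
    have k : ∀ g e : T, adrV len pre vs g < adrU len pre us e → len g + 1 ≤ len e := by
      intro g e h
      unfold adrU adrV at h
      rw [val_lt] at h
      omega
    have := k _ _ h1
    have := k _ _ h2
    have := k _ _ h3
    have := k _ _ h4
    omega
  · intro a b c e hac hce hab h1 h2 h3 h4 h5
    rw [adrV_lt hs] at h3
    rw [adrU_lt hs] at h4 h5
    have l3 : adrP len pre c ≤ adrP len pre e := by
      rcases h3 with h | h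
      exacts [h.le, h.1.le]
    have l4 : adrP len pre e ≤ adrP len pre a := by
      rcases h4 with h | h
      exacts [h.le, h.1.le]
    have l5 : adrP len pre a ≤ adrP len pre c := by
      rcases h5 with h | h
      exacts [h.le, h.1.le]
    have e1 : adrP len pre a = adrP len pre c := le_antisymm l5 (l3.trans l4)
    have e2 : adrP len pre c = adrP len pre e := le_antisymm l3 (l4.trans l5)
    have s3 := h3.resolve_left (by rw [e2]; exact lt_irrefl _)
    have s4 := h4.resolve_left (by rw [e1, e2]; exact lt_irrefl _)
    have s5 := h5.resolve_left (by rw [e1]; exact lt_irrefl _)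
    have t1 := val_eq.1 e1
    have t2 := val_eq.1 e2
    rw [adrV_lt_adrU hs hu] at h1
    rw [adrU_lt_adrV hs hu] at h2
    unfold adrV adrP at h1 h2
    rw [val_le] at h1
    rw [val_lt] at h2
    have hb : len b = len a + 1 := by
      have := t1.1
      omega
    have h1' : toLex (Function.update (pre a) (len a) (vs a)) ≤ toLex (pre b) := by
      rcases h1 with h | h
      · omega
      · exact h.2
    have h2' : toLex (pre b) < toLex (Function.update (pre c) (len c) (vs c)) := by
      rcases h2 with h | h
      · have := t1.1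
        omega
      · exact h.2
    rw [← t1.1, ← t1.2] at h2'
    have sw := sandwich (m := len a) (f := Function.update (pre a) (len a) (vs a))
      (w := pre b) (f' := Function.update (pre a) (len a) (vs c)) (by
        intro j hj
        rw [Function.update_of_ne (by omega), Function.update_of_ne (by omega)]) h1' h2'.le
    obtain ⟨w1, w2, w3⟩ := sw
    simp only [Function.update_self] at w2 w3
    have w1' : ∀ j < len a, pre b j = pre a j := by
      intro j hj
      rw [w1 j hj, Function.update_of_ne (by omega)]
    have n1 := g1 a b hab hb w1'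
    have n2 := g1 c b (by rw [← hac]; exact hab) (by rw [← t1.1]; exact hb) (by
      rw [← t1.1, ← t1.2]; exact w1')
    rw [← t1.1] at n2
    exact g2 a b c e hac hce hab t1.1 t2.1 t1.2 t2.2 hb w1' (lt_of_le_of_ne w2 n1)
      (lt_of_le_of_ne w3 (fun h => n2 h.symm)) s3.2 s4.2 s5.2

end realize

end Pool.Agent.H47.Amal
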