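import Pool.Agent.H47.Amal.Core

/-!
The main amalgamation theorem for finite point sets without the pattern 3142.
-/

namespace Pool.Agent.H47.Amal

theorem amalg_core {α β : Type*} {X Y : α → ℚ} {x y : α} {X' Y' : β → ℚ} {x' y' : β}
    (hX : Function.Injective X) (hY : Function.Injective Y)
    (hX' : Function.Injective X') (hY' : Function.Injective Y') (hAv : Av X Y)
    (hAv' : Av X' Y') (hyx : X x < X y) (hyx' : X' x' < X' y') (hyy : Y x < Y y)
    (hyy' : Y' x' < Y' y') (hl : ∀ a, X x ≤ X a) (hr : ∀ a, X a ≤ X y)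
    (hl' : ∀ a, X' x' ≤ X' a) (hr' : ∀ a, X' a ≤ X' y') : Amalg X Y x y X' Y' x' y' := by
  have Fx : fP (X x) (X y) (X x) = 0 := by
    unfold fP
    rw [if_neg hyx.ne, sub_self]
    unfold phi
    simp
  have Fx' : fS (X' x') (X' y') (X' x') = 0 := by
    unfold fS
    rw [if_pos rfl]
  have Gx : gP (Y x) (Y y) (Y x) = 0 := by
    unfold gP
    rw [if_neg (lt_irrefl _), if_pos hyy, sub_self]
    unfold phi
    simp
  have Gx' : gS (Y' x') (Y' y') (Y' x') = 0 := by
    unfold gS
    rw [if_neg (lt_irrefl _), if_pos rfl]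
  have Fy : fP (X x) (X y) (X y) = 3 := by
    unfold fP
    rw [if_pos rfl]
  have Fy' : fS (X' x') (X' y') (X' y') = 3 := by
    unfold fS
    rw [if_neg hyx'.ne', if_pos rfl]
  have Gy : gP (Y x) (Y y) (Y y) = 2 := by
    unfold gP
    rw [if_neg (not_lt.2 hyy.le), if_neg (lt_irrefl _), if_pos rfl]
  have Gy' : gS (Y' x') (Y' y') (Y' y') = 2 := by
    unfold gS
    rw [if_neg (not_lt.2 hyy'.le), if_neg hyy'.ne', if_neg (lt_irrefl _), if_pos rfl]
  have mF : ∀ a b, X a < X b → fP (X x) (X y) (X a) < fP (X x) (X y) (X b) :=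
    fun a b h => fP_mono (hl a) (hr b) h
  have mG : ∀ a b, Y a < Y b → gP (Y x) (Y y) (Y a) < gP (Y x) (Y y) (Y b) :=
    fun a b h => gP_mono hyy h
  have mF' : ∀ a b, X' a < X' b → fS (X' x') (X' y') (X' a) < fS (X' x') (X' y') (X' b) :=
    fun a b h => fS_mono (hl' a) (hr' b) h
  have mG' : ∀ a b, Y' a < Y' b → gS (Y' x') (Y' y') (Y' a) < gS (Y' x') (Y' y') (Y' b) :=
    fun a b h => gS_mono hyy' h
  have cP : ∀ a, (fP (X x) (X y) (X a) = 0 ∧ gP (Y x) (Y y) (Y a) = 0) ∨
      (fP (X x) (X y) (X a) = 3 ∧ gP (Y x) (Y y) (Y a) = 2) ∨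
      (0 < fP (X x) (X y) (X a) ∧ fP (X x) (X y) (X a) < 1 ∧
      ((-1 < gP (Y x) (Y y) (Y a) ∧ gP (Y x) (Y y) (Y a) < 0) ∨
        (0 < gP (Y x) (Y y) (Y a) ∧ gP (Y x) (Y y) (Y a) < 1) ∨
        3 < gP (Y x) (Y y) (Y a))) := by
    intro a
    by_cases hax : a = x
    · rw [hax]
      exact Or.inl ⟨Fx, Gx⟩
    by_cases hay : a = y
    · rw [hay]
      exact Or.inr (Or.inl ⟨Fy, Gy⟩)
    have x1 : X x < X a := lt_of_le_of_ne (hl a) (fun h => hax (hX h.symm))
    have x2 : X a ≠ X y := fun h => hay (hX h)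
    have y1 : Y a ≠ Y x := fun h => hax (hY h)
    have y2 : Y a ≠ Y y := fun h => hay (hY h)
    right; right
    have e1 : fP (X x) (X y) (X a) = phi (X a - X x) := by
      unfold fP
      rw [if_neg x2]
    rw [e1]
    refine ⟨phi_pos (by linarith), phi_lt_one (by linarith), ?_⟩
    unfold gP
    rcases lt_or_gt_of_ne y1 with h | h
    · left
      rw [if_pos h]
      have h1 := phi_pos (show 0 < Y x - Y a by linarith)
      have h2 := phi_lt_one (show 0 < Y x - Y a by linarith)
      exact ⟨by linarith, by linarith⟩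
    · right
      rw [if_neg (not_lt.2 h.le)]
      rcases lt_or_gt_of_ne y2 with h' | h'
      · left
        rw [if_pos h']
        exact ⟨phi_pos (by linarith), phi_lt_one (by linarith)⟩
      · right
        rw [if_neg (not_lt.2 h'.le), if_neg y2]
        have h1 := phi_pos (show 0 < Y a - Y y by linarith)
        linarith
  have cS : ∀ a, (fS (X' x') (X' y') (X' a) = 0 ∧ gS (Y' x') (Y' y') (Y' a) = 0) ∨
      (fS (X' x') (X' y') (X' a) = 3 ∧ gS (Y' x') (Y' y') (Y' a) = 2) ∨
      (1 < fS (X' x') (X' y') (X' a) ∧ fS (X' x') (X' y') (X' a) < 2 ∧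
      ((-2 < gS (Y' x') (Y' y') (Y' a) ∧ gS (Y' x') (Y' y') (Y' a) < -1) ∨
        (1 < gS (Y' x') (Y' y') (Y' a) ∧ gS (Y' x') (Y' y') (Y' a) < 2) ∨
        (2 < gS (Y' x') (Y' y') (Y' a) ∧ gS (Y' x') (Y' y') (Y' a) < 3))) := by
    intro a
    by_cases hax : a = x'
    · rw [hax]
      exact Or.inl ⟨Fx', Gx'⟩
    by_cases hay : a = y'
    · rw [hay]
      exact Or.inr (Or.inl ⟨Fy', Gy'⟩)
    have x0 : X' a ≠ X' x' := fun h => hax (hX' h)
    have x1 : X' x' < X' a := lt_of_le_of_ne (hl' a) x0.symm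
    have x2 : X' a ≠ X' y' := fun h => hay (hX' h)
    have y1 : Y' a ≠ Y' x' := fun h => hax (hY' h)
    have y2 : Y' a ≠ Y' y' := fun h => hay (hY' h)
    right; right
    have e1 : fS (X' x') (X' y') (X' a) = 1 + phi (X' a - X' x') := by
      unfold fS
      rw [if_neg x0, if_neg x2]
    rw [e1]
    have h1 := phi_pos (show 0 < X' a - X' x' by linarith)
    have h2 := phi_lt_one (show 0 < X' a - X' x' by linarith)
    refine ⟨by linarith, by linarith, ?_⟩
    unfold gS
    rcases lt_or_gt_of_ne y1 with h | h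
    · left
      rw [if_pos h]
      have h1 := phi_pos (show 0 < Y' x' - Y' a by linarith)
      have h2 := phi_lt_one (show 0 < Y' x' - Y' a by linarith)
      exact ⟨by linarith, by linarith⟩
    · right
      rw [if_neg (not_lt.2 h.le), if_neg y1]
      rcases lt_or_gt_of_ne y2 with h' | h'
      · left
        rw [if_pos h']
        have h1 := phi_pos (show 0 < Y' a - Y' x' by linarith)
        have h2 := phi_lt_one (show 0 < Y' a - Y' x' by linarith)
        exact ⟨by linarith, by linarith⟩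
      · right
        rw [if_neg (not_lt.2 h'.le), if_neg y2]
        have h1 := phi_pos (show 0 < Y' a - Y' y' by linarith)
        have h2 := phi_lt_one (show 0 < Y' a - Y' y' by linarith)
        exact ⟨by linarith, by linarith⟩
  refine ⟨fun a => fP (X x) (X y) (X a), fun a => gP (Y x) (Y y) (Y a),
    fun a => fS (X' x') (X' y') (X' a), fun a => gS (Y' x') (Y' y') (Y' a),
    mF, mG, mF', mG', Fx.trans Fx'.symm, Gx.trans Gx'.symm, Fy.trans Fy'.symm,
    Gy.trans Gy'.symm, ?_,
    core_av hX hY hX' hY' hAv hAv' mF mG mF' mG' Fx Gx Fx' Gx' Fy Gy Fy' Gy' cP cS⟩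
  intro a b
  show fP (X x) (X y) (X a) = fS (X' x') (X' y') (X' b) ↔
    gP (Y x) (Y y) (Y a) = gS (Y' x') (Y' y') (Y' b)
  have ca := cP a
  have cb := cS b
  generalize fP (X x) (X y) (X a) = f at ca ⊢
  generalize gP (Y x) (Y y) (Y a) = g at ca ⊢
  generalize fS (X' x') (X' y') (X' b) = f' at cb ⊢
  generalize gS (Y' x') (Y' y') (Y' b) = g' at cb ⊢
  rcases ca with ⟨rfl, rfl⟩ | ⟨rfl, rfl⟩ | ⟨p1, p2, p3⟩ <;>
    rcases cb with ⟨rfl, rfl⟩ | ⟨rfl, rfl⟩ | ⟨q1, q2, q3⟩
  · exact ⟨fun _ => rfl, fun _ => rfl⟩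
  · exact ⟨fun h => by linarith, fun h => by linarith⟩
  · exact ⟨fun h => by linarith, fun h => by rcases q3 with h' | h' | h' <;> linarith⟩
  · exact ⟨fun h => by linarith, fun h => by linarith⟩
  · exact ⟨fun _ => rfl, fun _ => rfl⟩
  · exact ⟨fun h => by linarith, fun h => by rcases q3 with h' | h' | h' <;> linarith⟩
  · exact ⟨fun h => by linarith, fun h => by rcases p3 with h' | h' | h' <;> linarith⟩
  · exact ⟨fun h => by linarith, fun h => by rcases p3 with h' | h' | h' <;> linarith⟩
  · exact ⟨fun h => by linarith, fun h => by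
      rcases p3 with h' | h' | h' <;> rcases q3 with h'' | h'' | h'' <;> linarith⟩

theorem Av.neg {T : Type*} {X Y : T → ℚ} (h : Av X Y) :
    Av (fun a => -X a) (fun a => -Y a) := by
  intro a b c d k1 k2 k3 k4 k5 k6
  beta_reduce at k1 k2 k3 k4 k5 k6
  exact h d c b a (by linarith) (by linarith) (by linarith) (by linarith) (by linarith)
    (by linarith)

theorem Amalg.neg {α β : Type*} {X Y : α → ℚ} {x y : α} {X' Y' : β → ℚ} {x' y' : β}
    (h : Amalg (fun a => -X a) (fun a => -Y a) y x (fun a => -X' a) (fun a => -Y' a) y' x') :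
    Amalg X Y x y X' Y' x' y' := by
  obtain ⟨F, G, F', G', h1, h2, h3, h4, h5, h6, h7, h8, h9, h10⟩ := h
  refine ⟨fun a => -F a, fun a => -G a, fun a => -F' a, fun a => -G' a, ?_, ?_, ?_, ?_,
    by simp only [h7], by simp only [h8], by simp only [h5], by simp only [h6], ?_, ?_⟩
  · intro a b hab
    have := h1 b a (by linarith)
    linarith
  · intro a b hab
    have := h2 b a (by linarith)
    linarith
  · intro a b hab
    have := h3 b a (by linarith)
    linarith
  · intro a b hab
    have := h4 b a (by linarith)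
    linarith
  · intro a b
    simp only [neg_inj]
    exact h9 a b
  · have := h10.neg
    have e1 : (fun a => -Sum.elim F F' a) = Sum.elim (fun a => -F a) (fun a => -F' a) := by
      funext t
      rcases t with t | t <;> rfl
    have e2 : (fun a => -Sum.elim G G' a) = Sum.elim (fun a => -G a) (fun a => -G' a) := by
      funext t
      rcases t with t | t <;> rfl
    rw [e1, e2] at this
    exact this

theorem Av.comp {T T' : Type*} {X Y : T → ℚ} (h : Av X Y) (f : T' → T) :
    Av (fun a => X (f a)) (fun a => Y (f a)) :=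
  fun a b c d => h (f a) (f b) (f c) (f d)

/-- Amalgamation over two points in increasing position. -/
theorem amalg_inc {α β : Type*} [Finite α] [Finite β] {X Y : α → ℚ} {x y : α}
    {X' Y' : β → ℚ} {x' y' : β} (hX : Function.Injective X) (hY : Function.Injective Y)
    (hX' : Function.Injective X') (hY' : Function.Injective Y') (hAv : Av X Y)
    (hAv' : Av X' Y') (hyx : X x < X y) (hyx' : X' x' < X' y') (hyy : Y x < Y y)
    (hyy' : Y' x' < Y' y') : Amalg X Y x y X' Y' x' y' := by
  apply amalg_right hX hY hX' hY' hAv hAv' hyx hyx' hyy hyy'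
  apply Amalg.neg
  have iX : Function.Injective (fun a : {a // X x ≤ X a} => X a.1) :=
    fun a b h => Subtype.ext (hX h)
  have iY : Function.Injective (fun a : {a // X x ≤ X a} => Y a.1) :=
    fun a b h => Subtype.ext (hY h)
  have iX' : Function.Injective (fun a : {a // X' x' ≤ X' a} => X' a.1) :=
    fun a b h => Subtype.ext (hX' h)
  have iY' : Function.Injective (fun a : {a // X' x' ≤ X' a} => Y' a.1) :=
    fun a b h => Subtype.ext (hY' h)
  have nX : Function.Injective (fun a : {a // X x ≤ X a} => -X a.1) :=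
    fun a b h => iX (neg_injective h)
  have nY : Function.Injective (fun a : {a // X x ≤ X a} => -Y a.1) :=
    fun a b h => iY (neg_injective h)
  have nX' : Function.Injective (fun a : {a // X' x' ≤ X' a} => -X' a.1) :=
    fun a b h => iX' (neg_injective h)
  have nY' : Function.Injective (fun a : {a // X' x' ≤ X' a} => -Y' a.1) :=
    fun a b h => iY' (neg_injective h)
  apply amalg_right nX nY nX' nY' (hAv.comp Subtype.val).neg (hAv'.comp Subtype.val).neg
    (neg_lt_neg hyx) (neg_lt_neg hyx') (neg_lt_neg hyy) (neg_lt_neg hyy')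
  apply Amalg.neg
  simp only [neg_neg]
  exact amalg_core (fun a b h => Subtype.ext (iX h)) (fun a b h => Subtype.ext (iY h))
    (fun a b h => Subtype.ext (iX' h)) (fun a b h => Subtype.ext (iY' h))
    ((hAv.comp Subtype.val).comp Subtype.val) ((hAv'.comp Subtype.val).comp Subtype.val)
    hyx hyx' hyy hyy' (fun a => a.1.2) (fun a => neg_le_neg_iff.1 a.2) (fun a => a.1.2)
    (fun a => neg_le_neg_iff.1 a.2)

end Pool.Agent.H47.Amal
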