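import Pool.Agent.H47.Amal.Assemble

/-!
Translation between point sets in the plane and centred structures.
-/

namespace Pool.Agent.H47.Amal

/-- The points with coordinates `X`, `Y` contain no pattern 3142. -/
def Av {T : Type*} (X Y : T → ℚ) : Prop :=
  ∀ a b c d, X a < X b → X b < X c → X c < X d → Y b < Y d → Y d < Y a → Y a < Y c → False

theorem cases4 (z : ZMod 4) : z = 0 ∨ z = 1 ∨ z = 2 ∨ z = 3 := by
  revert z
  decide

section

variable {α : Type*} (X Y : α → ℚ) (x : α)

open Classical in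
/-- Quadrant. -/
noncomputable def cq (a : α) : ZMod 4 :=
  if X x < X a then (if Y x < Y a then 0 else 3) else (if Y x < Y a then 1 else 2)

open Classical in
/-- First coordinate. -/
noncomputable def cu (a : α) : ℚ :=
  if X x < X a then (if Y x < Y a then Y a - Y x else X a - X x)
  else (if Y x < Y a then X x - X a else Y x - Y a)

open Classical in
/-- Second coordinate. -/
noncomputable def cv (a : α) : ℚ :=
  if X x < X a then (if Y x < Y a then X a - X x else Y x - Y a)
  else (if Y x < Y a then Y a - Y x else X x - X a)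

variable {X Y x}

theorem cl (hX : Function.Injective X) (hY : Function.Injective Y) {a : α} (ha : a ≠ x) :
    (cq X Y x a = 0 ∧ cu X Y x a = Y a - Y x ∧ cv X Y x a = X a - X x ∧ X x < X a ∧ Y x < Y a) ∨
    (cq X Y x a = 1 ∧ cu X Y x a = X x - X a ∧ cv X Y x a = Y a - Y x ∧ X a < X x ∧ Y x < Y a) ∨
    (cq X Y x a = 2 ∧ cu X Y x a = Y x - Y a ∧ cv X Y x a = X x - X a ∧ X a < X x ∧ Y a < Y x) ∨
    (cq X Y x a = 3 ∧ cu X Y x a = X a - X x ∧ cv X Y x a = Y x - Y a ∧ X x < X a ∧ Y a < Y x) := by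
  have h1 : X a ≠ X x := fun h => ha (hX h)
  have h2 : Y a ≠ Y x := fun h => ha (hY h)
  unfold cq cu cv
  rcases lt_or_gt_of_ne h1 with h3 | h3 <;> rcases lt_or_gt_of_ne h2 with h4 | h4
  · right; right; left
    simp [not_lt.2 h3.le, not_lt.2 h4.le, h3, h4]
  · right; left
    simp [not_lt.2 h3.le, h3, h4]
  · right; right; right
    simp [not_lt.2 h4.le, h3, h4]
  · left
    simp [h3, h4]

theorem cl0 (hX : Function.Injective X) (hY : Function.Injective Y) {a : α} (ha : a ≠ x)
    (h : cq X Y x a = 0) :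
    cu X Y x a = Y a - Y x ∧ cv X Y x a = X a - X x ∧ X x < X a ∧ Y x < Y a := by
  rcases cl hX hY ha with h' | h' | h' | h'
  · exact h'.2
  all_goals
    exfalso
    rw [h'.1] at h
    revert h
    decide

theorem cl1 (hX : Function.Injective X) (hY : Function.Injective Y) {a : α} (ha : a ≠ x)
    (h : cq X Y x a = 1) :
    cu X Y x a = X x - X a ∧ cv X Y x a = Y a - Y x ∧ X a < X x ∧ Y x < Y a := by
  rcases cl hX hY ha with h' | h' | h' | h'
  · exfalso
    rw [h'.1] at h
    revert h
    decide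
  · exact h'.2
  all_goals
    exfalso
    rw [h'.1] at h
    revert h
    decide

theorem cl2 (hX : Function.Injective X) (hY : Function.Injective Y) {a : α} (ha : a ≠ x)
    (h : cq X Y x a = 2) :
    cu X Y x a = Y x - Y a ∧ cv X Y x a = X x - X a ∧ X a < X x ∧ Y a < Y x := by
  rcases cl hX hY ha with h' | h' | h' | h'
  · exfalso
    rw [h'.1] at h
    revert h
    decide
  · exfalso
    rw [h'.1] at h
    revert h
    decide
  · exact h'.2
  · exfalso
    rw [h'.1] at h
    revert h
    decide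

theorem cl3 (hX : Function.Injective X) (hY : Function.Injective Y) {a : α} (ha : a ≠ x)
    (h : cq X Y x a = 3) :
    cu X Y x a = X a - X x ∧ cv X Y x a = Y x - Y a ∧ X x < X a ∧ Y a < Y x := by
  rcases cl hX hY ha with h' | h' | h' | h'
  · exfalso
    rw [h'.1] at h
    revert h
    decide
  · exfalso
    rw [h'.1] at h
    revert h
    decide
  · exfalso
    rw [h'.1] at h
    revert h
    decide
  · exact h'.2

theorem cen_of_plane (hX : Function.Injective X) (hY : Function.Injective Y) (hAv : Av X Y) :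
    Cen (fun e : {a // a ≠ x} => cq X Y x e.1) (fun e => cu X Y x e.1)
      (fun e => cv X Y x e.1) := by
  refine ⟨?_, ?_, ?_, ?_, ?_, ?_, ?_, ?_, ?_⟩
  · rintro ⟨a, ha⟩
    show 0 < cu X Y x a
    rcases cl hX hY ha with h' | h' | h' | h' <;> rw [h'.2.1] <;> linarith [h'.2.2.2.1, h'.2.2.2.2]
  · rintro ⟨a, ha⟩
    show 0 < cv X Y x a
    rcases cl hX hY ha with h' | h' | h' | h' <;> rw [h'.2.2.1] <;>
      linarith [h'.2.2.2.1, h'.2.2.2.2]
  · rintro ⟨a, ha⟩ ⟨b, hb⟩ hq hu
    simp only at hq hu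
    rw [Subtype.mk.injEq]
    rcases cases4 (cq X Y x a) with h | h | h | h
    · rw [(cl0 hX hY ha h).1, (cl0 hX hY hb (hq ▸ h)).1] at hu
      exact hY (by linarith)
    · rw [(cl1 hX hY ha h).1, (cl1 hX hY hb (hq ▸ h)).1] at hu
      exact hX (by linarith)
    · rw [(cl2 hX hY ha h).1, (cl2 hX hY hb (hq ▸ h)).1] at hu
      exact hY (by linarith)
    · rw [(cl3 hX hY ha h).1, (cl3 hX hY hb (hq ▸ h)).1] at hu
      exact hX (by linarith)
  · rintro ⟨a, ha⟩ ⟨b, hb⟩ hq hu
    simp only at hq hu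
    rw [Subtype.mk.injEq]
    rcases cases4 (cq X Y x a) with h | h | h | h
    · rw [(cl0 hX hY ha h).2.1, (cl0 hX hY hb (hq ▸ h)).2.1] at hu
      exact hX (by linarith)
    · rw [(cl1 hX hY ha h).2.1, (cl1 hX hY hb (hq ▸ h)).2.1] at hu
      exact hY (by linarith)
    · rw [(cl2 hX hY ha h).2.1, (cl2 hX hY hb (hq ▸ h)).2.1] at hu
      exact hX (by linarith)
    · rw [(cl3 hX hY ha h).2.1, (cl3 hX hY hb (hq ▸ h)).2.1] at hu
      exact hY (by linarith)
  · rintro ⟨g, hg⟩ ⟨e, he⟩ hq hu
    simp only at hq hu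
    rcases cases4 (cq X Y x e) with h | h | h | h
    · have h' : cq X Y x g = 1 := by rw [hq, h]; rfl
      have e1 := cl0 hX hY he h
      have e2 := cl1 hX hY hg h'
      rw [e1.1, e2.2.1] at hu
      have : g = e := hY (by linarith)
      rw [this] at e2
      linarith [e1.2.2.1, e2.2.2.1]
    · have h' : cq X Y x g = 2 := by rw [hq, h]; rfl
      have e1 := cl1 hX hY he h
      have e2 := cl2 hX hY hg h'
      rw [e1.1, e2.2.1] at hu
      have : g = e := hX (by linarith)
      rw [this] at e2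
      linarith [e1.2.2.2, e2.2.2.2]
    · have h' : cq X Y x g = 3 := by rw [hq, h]; rfl
      have e1 := cl2 hX hY he h
      have e2 := cl3 hX hY hg h'
      rw [e1.1, e2.2.1] at hu
      have : g = e := hY (by linarith)
      rw [this] at e2
      linarith [e1.2.2.1, e2.2.2.1]
    · have h' : cq X Y x g = 0 := by rw [hq, h]; rfl
      have e1 := cl3 hX hY he h
      have e2 := cl0 hX hY hg h'
      rw [e1.1, e2.2.1] at hu
      have : g = e := hX (by linarith)
      rw [this] at e2
      linarith [e1.2.2.2, e2.2.2.2]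
  · rintro ⟨a, ha⟩ ⟨b, hb⟩ ⟨c, hc⟩ ⟨d, hd⟩ q1 q2 q3 k1 k2 k3 k4 k5 k6
    simp only at q1 q2 q3 k1 k2 k3 k4 k5 k6
    rcases cases4 (cq X Y x a) with h | h | h | h
    · obtain ⟨a1, a2, a3, a4⟩ := cl0 hX hY ha h
      obtain ⟨b1, b2, b3, b4⟩ := cl0 hX hY hb (by rw [← q1, h])
      obtain ⟨c1, c2, c3, c4⟩ := cl0 hX hY hc (by rw [← q2, ← q1, h])
      obtain ⟨d1, d2, d3, d4⟩ := cl0 hX hY hd (by rw [← q3, ← q2, ← q1, h])
      exact hAv a b c d (by linarith) (by linarith) (by linarith) (by linarith) (by linarith)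
        (by linarith)
    · obtain ⟨a1, a2, a3, a4⟩ := cl1 hX hY ha h
      obtain ⟨b1, b2, b3, b4⟩ := cl1 hX hY hb (by rw [← q1, h])
      obtain ⟨c1, c2, c3, c4⟩ := cl1 hX hY hc (by rw [← q2, ← q1, h])
      obtain ⟨d1, d2, d3, d4⟩ := cl1 hX hY hd (by rw [← q3, ← q2, ← q1, h])
      exact hAv c a d b (by linarith) (by linarith) (by linarith) (by linarith) (by linarith)
        (by linarith)
    · obtain ⟨a1, a2, a3, a4⟩ := cl2 hX hY ha h
      obtain ⟨b1, b2, b3, b4⟩ := cl2 hX hY hb (by rw [← q1, h])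
      obtain ⟨c1, c2, c3, c4⟩ := cl2 hX hY hc (by rw [← q2, ← q1, h])
      obtain ⟨d1, d2, d3, d4⟩ := cl2 hX hY hd (by rw [← q3, ← q2, ← q1, h])
      exact hAv d c b a (by linarith) (by linarith) (by linarith) (by linarith) (by linarith)
        (by linarith)
    · obtain ⟨a1, a2, a3, a4⟩ := cl3 hX hY ha h
      obtain ⟨b1, b2, b3, b4⟩ := cl3 hX hY hb (by rw [← q1, h])
      obtain ⟨c1, c2, c3, c4⟩ := cl3 hX hY hc (by rw [← q2, ← q1, h])
      obtain ⟨d1, d2, d3, d4⟩ := cl3 hX hY hd (by rw [← q3, ← q2, ← q1, h])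
      exact hAv b d a c (by linarith) (by linarith) (by linarith) (by linarith) (by linarith)
        (by linarith)
  · rintro ⟨g, hg⟩ ⟨e, he⟩ ⟨e', he'⟩ q1 q2 k1 k2 k3
    simp only at q1 q2 k1 k2 k3
    rcases cases4 (cq X Y x e) with h | h | h | h
    · have h' : cq X Y x g = 1 := by rw [q1, h]; rfl
      obtain ⟨a1, a2, a3, a4⟩ := cl1 hX hY hg h'
      obtain ⟨b1, b2, b3, b4⟩ := cl0 hX hY he h
      obtain ⟨c1, c2, c3, c4⟩ := cl0 hX hY he' (by rw [← q2, h])
      exact hAv g x e' e (by linarith) (by linarith) (by linarith) (by linarith) (by linarith)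
        (by linarith)
    · have h' : cq X Y x g = 2 := by rw [q1, h]; rfl
      obtain ⟨a1, a2, a3, a4⟩ := cl2 hX hY hg h'
      obtain ⟨b1, b2, b3, b4⟩ := cl1 hX hY he h
      obtain ⟨c1, c2, c3, c4⟩ := cl1 hX hY he' (by rw [← q2, h])
      exact hAv e' g e x (by linarith) (by linarith) (by linarith) (by linarith) (by linarith)
        (by linarith)
    · have h' : cq X Y x g = 3 := by rw [q1, h]; rfl
      obtain ⟨a1, a2, a3, a4⟩ := cl3 hX hY hg h'
      obtain ⟨b1, b2, b3, b4⟩ := cl2 hX hY he h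
      obtain ⟨c1, c2, c3, c4⟩ := cl2 hX hY he' (by rw [← q2, h])
      exact hAv e e' x g (by linarith) (by linarith) (by linarith) (by linarith) (by linarith)
        (by linarith)
    · have h' : cq X Y x g = 0 := by rw [q1, h]; rfl
      obtain ⟨a1, a2, a3, a4⟩ := cl0 hX hY hg h'
      obtain ⟨b1, b2, b3, b4⟩ := cl3 hX hY he h
      obtain ⟨c1, c2, c3, c4⟩ := cl3 hX hY he' (by rw [← q2, h])
      exact hAv x e g e' (by linarith) (by linarith) (by linarith) (by linarith) (by linarith)
        (by linarith)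
  · rintro ⟨e0, h0⟩ ⟨e1, h1⟩ ⟨e2, h2⟩ ⟨e3, h3⟩ q0 q1 q2 q3 k1 k2 k3 k4
    simp only at q0 q1 q2 q3 k1 k2 k3 k4
    obtain ⟨a1, a2, a3, a4⟩ := cl0 hX hY h0 q0
    obtain ⟨b1, b2, b3, b4⟩ := cl1 hX hY h1 q1
    obtain ⟨c1, c2, c3, c4⟩ := cl2 hX hY h2 q2
    obtain ⟨d1, d2, d3, d4⟩ := cl3 hX hY h3 q3
    exact hAv e1 e2 e0 e3 (by linarith) (by linarith) (by linarith) (by linarith) (by linarith)
      (by linarith)
  · rintro ⟨a, ha⟩ ⟨b, hb⟩ ⟨c, hc⟩ ⟨e, he⟩ q1 q2 q3 k1 k2 k3 k4 k5
    simp only at q1 q2 q3 k1 k2 k3 k4 k5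
    rcases cases4 (cq X Y x b) with h | h | h | h
    · have h' : cq X Y x a = 1 := by rw [q3, h]; rfl
      obtain ⟨a1, a2, a3, a4⟩ := cl1 hX hY ha h'
      obtain ⟨b1, b2, b3, b4⟩ := cl0 hX hY hb h
      obtain ⟨c1, c2, c3, c4⟩ := cl1 hX hY hc (by rw [← q1, h'])
      obtain ⟨d1, d2, d3, d4⟩ := cl1 hX hY he (by rw [← q2, ← q1, h'])
      exact hAv c a e b (by linarith) (by linarith) (by linarith) (by linarith) (by linarith)
        (by linarith)
    · have h' : cq X Y x a = 2 := by rw [q3, h]; rfl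
      obtain ⟨a1, a2, a3, a4⟩ := cl2 hX hY ha h'
      obtain ⟨b1, b2, b3, b4⟩ := cl1 hX hY hb h
      obtain ⟨c1, c2, c3, c4⟩ := cl2 hX hY hc (by rw [← q1, h'])
      obtain ⟨d1, d2, d3, d4⟩ := cl2 hX hY he (by rw [← q2, ← q1, h'])
      exact hAv e c b a (by linarith) (by linarith) (by linarith) (by linarith) (by linarith)
        (by linarith)
    · have h' : cq X Y x a = 3 := by rw [q3, h]; rfl
      obtain ⟨a1, a2, a3, a4⟩ := cl3 hX hY ha h'
      obtain ⟨b1, b2, b3, b4⟩ := cl2 hX hY hb h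
      obtain ⟨c1, c2, c3, c4⟩ := cl3 hX hY hc (by rw [← q1, h'])
      obtain ⟨d1, d2, d3, d4⟩ := cl3 hX hY he (by rw [← q2, ← q1, h'])
      exact hAv b e a c (by linarith) (by linarith) (by linarith) (by linarith) (by linarith)
        (by linarith)
    · have h' : cq X Y x a = 0 := by rw [q3, h]; rfl
      obtain ⟨a1, a2, a3, a4⟩ := cl0 hX hY ha h'
      obtain ⟨b1, b2, b3, b4⟩ := cl3 hX hY hb h
      obtain ⟨c1, c2, c3, c4⟩ := cl0 hX hY hc (by rw [← q1, h'])
      obtain ⟨d1, d2, d3, d4⟩ := cl0 hX hY he (by rw [← q2, ← q1, h'])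
      exact hAv a b c e (by linarith) (by linarith) (by linarith) (by linarith) (by linarith)
        (by linarith)

end

/-- Placement in the plane: first coordinate. -/
def plF (i : ZMod 4) (U V : ℚ) : ℚ :=
  if i = 0 then V else if i = 1 then -U else if i = 2 then -V else U

/-- Placement in the plane: second coordinate. -/
def plG (i : ZMod 4) (U V : ℚ) : ℚ :=
  if i = 0 then U else if i = 1 then V else if i = 2 then -U else -V

theorem pl0 (U V : ℚ) : plF 0 U V = V ∧ plG 0 U V = U := by
  simp [plF, plG]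

theorem pl1 (U V : ℚ) : plF 1 U V = -U ∧ plG 1 U V = V := by
  have h : (1 : ZMod 4) ≠ 0 := by decide
  simp [plF, plG, h]

theorem pl2 (U V : ℚ) : plF 2 U V = -V ∧ plG 2 U V = -U := by
  have h : (2 : ZMod 4) ≠ 0 := by decide
  have h' : (2 : ZMod 4) ≠ 1 := by decide
  simp [plF, plG, h, h']

theorem pl3 (U V : ℚ) : plF 3 U V = U ∧ plG 3 U V = -V := by
  have h : (3 : ZMod 4) ≠ 0 := by decide
  have h' : (3 : ZMod 4) ≠ 1 := by decide
  have h'' : (3 : ZMod 4) ≠ 2 := by decide
  simp [plF, plG, h, h', h'']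

/-- From centred structures to the plane. -/
theorem av_of_cen {W T : Type*} {q : T → ZMod 4} {U V : T → ℚ} (hU : ∀ t, 0 < U t)
    (hV : ∀ t, 0 < V t) (hC : CenAx q U V) {F G : W → ℚ}
    (hW : ∀ w, (F w = 0 ∧ G w = 0) ∨ ∃ t, F w = plF (q t) (U t) (V t) ∧
      G w = plG (q t) (U t) (V t)) : Av F G := by
  have cls : ∀ w, (F w = 0 ∧ G w = 0) ∨ (F w ≠ 0 ∧ G w ≠ 0) := by
    intro w
    rcases hW w with h | ⟨t, h1, h2⟩
    · exact Or.inl h
    · right
      rw [h1, h2]
      have u := hU t
      have v := hV t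
      rcases cases4 (q t) with h | h | h | h <;> rw [h]
      · rw [(pl0 _ _).1, (pl0 _ _).2]
        exact ⟨v.ne', u.ne'⟩
      · rw [(pl1 _ _).1, (pl1 _ _).2]
        exact ⟨by linarith, v.ne'⟩
      · rw [(pl2 _ _).1, (pl2 _ _).2]
        exact ⟨by linarith, by linarith⟩
      · rw [(pl3 _ _).1, (pl3 _ _).2]
        exact ⟨u.ne', by linarith⟩
  have Q0 : ∀ w, 0 < F w → 0 < G w → ∃ t, q t = 0 ∧ F w = V t ∧ G w = U t := by
    intro w hF hG
    rcases hW w with h | ⟨t, h1, h2⟩
    · linarith [h.1]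
    · have u := hU t
      have v := hV t
      rcases cases4 (q t) with h | h | h | h <;> rw [h] at h1 h2
      · rw [(pl0 _ _).1] at h1
        rw [(pl0 _ _).2] at h2
        exact ⟨t, h, h1, h2⟩
      · rw [(pl1 _ _).1] at h1
        linarith
      · rw [(pl2 _ _).1] at h1
        linarith
      · rw [(pl3 _ _).2] at h2
        linarith
  have Q1 : ∀ w, F w < 0 → 0 < G w → ∃ t, q t = 1 ∧ F w = -U t ∧ G w = V t := by
    intro w hF hG
    rcases hW w with h | ⟨t, h1, h2⟩
    · linarith [h.1]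
    · have u := hU t
      have v := hV t
      rcases cases4 (q t) with h | h | h | h <;> rw [h] at h1 h2
      · rw [(pl0 _ _).1] at h1
        linarith
      · rw [(pl1 _ _).1] at h1
        rw [(pl1 _ _).2] at h2
        exact ⟨t, h, h1, h2⟩
      · rw [(pl2 _ _).2] at h2
        linarith
      · rw [(pl3 _ _).2] at h2
        linarith
  have Q2 : ∀ w, F w < 0 → G w < 0 → ∃ t, q t = 2 ∧ F w = -V t ∧ G w = -U t := by
    intro w hF hG
    rcases hW w with h | ⟨t, h1, h2⟩
    · linarith [h.1]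
    · have u := hU t
      have v := hV t
      rcases cases4 (q t) with h | h | h | h <;> rw [h] at h1 h2
      · rw [(pl0 _ _).1] at h1
        linarith
      · rw [(pl1 _ _).2] at h2
        linarith
      · rw [(pl2 _ _).1] at h1
        rw [(pl2 _ _).2] at h2
        exact ⟨t, h, h1, h2⟩
      · rw [(pl3 _ _).1] at h1
        linarith
  have Q3 : ∀ w, 0 < F w → G w < 0 → ∃ t, q t = 3 ∧ F w = U t ∧ G w = -V t := by
    intro w hF hG
    rcases hW w with h | ⟨t, h1, h2⟩
    · linarith [h.1]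
    · have u := hU t
      have v := hV t
      rcases cases4 (q t) with h | h | h | h <;> rw [h] at h1 h2
      · rw [(pl0 _ _).2] at h2
        linarith
      · rw [(pl1 _ _).1] at h1
        linarith
      · rw [(pl2 _ _).1] at h1
        linarith
      · rw [(pl3 _ _).1] at h1
        rw [(pl3 _ _).2] at h2
        exact ⟨t, h, h1, h2⟩
  intro a b c d k1 k2 k3 k4 k5 k6
  have L1 : 0 < F b → G d < 0 → 0 < G c → False := by
    intro h1 h2 h3
    obtain ⟨b, qb, b1, b2⟩ := Q3 b h1 (by linarith)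
    obtain ⟨c, qc, c1, c2⟩ := Q0 c (by linarith) h3
    obtain ⟨d, qd, d1, d2⟩ := Q3 d (by linarith) h2
    exact hC.c1 c b d (by rw [qc, qb]; rfl) (by rw [qb, qd]) (by linarith) (by linarith)
      (by linarith)
  have L2 : F a < 0 → 0 < F c → 0 < G d → False := by
    intro h1 h2 h3
    obtain ⟨a, qa, a1, a2⟩ := Q1 a h1 (by linarith)
    obtain ⟨c, qc, c1, c2⟩ := Q0 c h2 (by linarith)
    obtain ⟨d, qd, d1, d2⟩ := Q0 d (by linarith) h3
    exact hC.c1 a d c (by rw [qa, qd]; rfl) (by rw [qd, qc]) (by linarith) (by linarith)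
      (by linarith)
  have L3 : F c < 0 → G b < 0 → 0 < G a → False := by
    intro h1 h2 h3
    obtain ⟨a, qa, a1, a2⟩ := Q1 a (by linarith) h3
    obtain ⟨b, qb, b1, b2⟩ := Q2 b (by linarith) h2
    obtain ⟨c, qc, c1, c2⟩ := Q1 c h1 (by linarith)
    exact hC.c1 b c a (by rw [qb, qc]; rfl) (by rw [qc, qa]) (by linarith) (by linarith)
      (by linarith)
  have L4 : F b < 0 → 0 < F d → G a < 0 → False := by
    intro h1 h2 h3
    obtain ⟨a, qa, a1, a2⟩ := Q2 a (by linarith) h3
    obtain ⟨b, qb, b1, b2⟩ := Q2 b h1 (by linarith)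
    obtain ⟨d, qd, d1, d2⟩ := Q3 d h2 (by linarith)
    exact hC.c1 d a b (by rw [qd, qa]; rfl) (by rw [qa, qb]) (by linarith) (by linarith)
      (by linarith)
  rcases cls a with ha | ha
  · exact L1 (by linarith [ha.1]) (by linarith [ha.2]) (by linarith [ha.2])
  rcases cls b with hb | hb
  · exact L2 (by linarith [hb.1]) (by linarith [hb.1]) (by linarith [hb.2])
  rcases cls c with hc | hc
  · exact L4 (by linarith [hc.1]) (by linarith [hc.1]) (by linarith [hc.2])
  rcases cls d with hd | hd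
  · exact L3 (by linarith [hd.1]) (by linarith [hd.2]) (by linarith [hd.2])
  -- all four are different from the centre
  rcases lt_or_gt_of_ne hd.1 with fd | fd
  · -- all left
    rcases lt_or_gt_of_ne hb.2 with gb | gb
    · rcases lt_or_gt_of_ne ha.2 with ga | ga
      · rcases lt_or_gt_of_ne hc.2 with gc | gc
        · obtain ⟨a, qa, a1, a2⟩ := Q2 a (by linarith) (by linarith)
          obtain ⟨b, qb, b1, b2⟩ := Q2 b (by linarith) (by linarith)
          obtain ⟨c, qc, c1, c2⟩ := Q2 c (by linarith) (by linarith)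
          obtain ⟨d, qd, d1, d2⟩ := Q2 d (by linarith) (by linarith)
          exact hC.c0 d c b a (by rw [qd, qc]) (by rw [qc, qb]) (by rw [qb, qa]) (by linarith)
            (by linarith) (by linarith) (by linarith) (by linarith) (by linarith)
        · obtain ⟨a, qa, a1, a2⟩ := Q2 a (by linarith) (by linarith)
          obtain ⟨b, qb, b1, b2⟩ := Q2 b (by linarith) (by linarith)
          obtain ⟨c, qc, c1, c2⟩ := Q1 c (by linarith) (by linarith)
          obtain ⟨d, qd, d1, d2⟩ := Q2 d (by linarith) (by linarith)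
          exact hC.c3 d c b a (by rw [qd, qb]) (by rw [qb, qa]) (by rw [qd, qc]; rfl)
            (by linarith) (by linarith) (by linarith) (by linarith) (by linarith)
      · exact L3 (by linarith) gb ga
    · obtain ⟨a, qa, a1, a2⟩ := Q1 a (by linarith) (by linarith)
      obtain ⟨b, qb, b1, b2⟩ := Q1 b (by linarith) (by linarith)
      obtain ⟨c, qc, c1, c2⟩ := Q1 c (by linarith) (by linarith)
      obtain ⟨d, qd, d1, d2⟩ := Q1 d (by linarith) (by linarith)
      exact hC.c0 b d a c (by rw [qb, qd]) (by rw [qd, qa]) (by rw [qa, qc]) (by linarith)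
        (by linarith) (by linarith) (by linarith) (by linarith) (by linarith)
  · rcases lt_or_gt_of_ne hc.1 with fc | fc
    · -- three left
      rcases lt_or_gt_of_ne hb.2 with gb | gb
      · rcases lt_or_gt_of_ne ha.2 with ga | ga
        · exact L4 (by linarith) fd ga
        · exact L3 fc gb ga
      · obtain ⟨a, qa, a1, a2⟩ := Q1 a (by linarith) (by linarith)
        obtain ⟨b, qb, b1, b2⟩ := Q1 b (by linarith) (by linarith)
        obtain ⟨c, qc, c1, c2⟩ := Q1 c (by linarith) (by linarith)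
        obtain ⟨d, qd, d1, d2⟩ := Q0 d (by linarith) (by linarith)
        exact hC.c3 b d a c (by rw [qb, qa]) (by rw [qa, qc]) (by rw [qb, qd]; rfl)
          (by linarith) (by linarith) (by linarith) (by linarith) (by linarith)
    · rcases lt_or_gt_of_ne hb.1 with fb | fb
      · -- two left
        rcases lt_or_gt_of_ne ha.2 with ga | ga
        · exact L4 fb fd ga
        · rcases lt_or_gt_of_ne hd.2 with gd | gd
          · obtain ⟨a, qa, a1, a2⟩ := Q1 a (by linarith) (by linarith)
            obtain ⟨b, qb, b1, b2⟩ := Q2 b (by linarith) (by linarith)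
            obtain ⟨c, qc, c1, c2⟩ := Q0 c (by linarith) (by linarith)
            obtain ⟨d, qd, d1, d2⟩ := Q3 d (by linarith) (by linarith)
            exact hC.c2 c a b d qc qa qb qd (by linarith) (by linarith) (by linarith)
              (by linarith)
          · exact L2 (by linarith) fc gd
      · rcases lt_or_gt_of_ne ha.1 with fa | fa
        · -- one left
          rcases lt_or_gt_of_ne hd.2 with gd | gd
          · rcases lt_or_gt_of_ne hc.2 with gc | gc
            · obtain ⟨a, qa, a1, a2⟩ := Q2 a (by linarith) (by linarith)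
              obtain ⟨b, qb, b1, b2⟩ := Q3 b (by linarith) (by linarith)
              obtain ⟨c, qc, c1, c2⟩ := Q3 c (by linarith) (by linarith)
              obtain ⟨d, qd, d1, d2⟩ := Q3 d (by linarith) (by linarith)
              exact hC.c3 c a d b (by rw [qc, qd]) (by rw [qd, qb]) (by rw [qc, qa]; rfl)
                (by linarith) (by linarith) (by linarith) (by linarith) (by linarith)
            · exact L1 fb gd gc
          · exact L2 fa fc gd
        · -- all right
          rcases lt_or_gt_of_ne hd.2 with gd | gd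
          · rcases lt_or_gt_of_ne hc.2 with gc | gc
            · obtain ⟨a, qa, a1, a2⟩ := Q3 a (by linarith) (by linarith)
              obtain ⟨b, qb, b1, b2⟩ := Q3 b (by linarith) (by linarith)
              obtain ⟨c, qc, c1, c2⟩ := Q3 c (by linarith) (by linarith)
              obtain ⟨d, qd, d1, d2⟩ := Q3 d (by linarith) (by linarith)
              exact hC.c0 c a d b (by rw [qc, qa]) (by rw [qa, qd]) (by rw [qd, qb])
                (by linarith) (by linarith) (by linarith) (by linarith) (by linarith)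
                (by linarith)
            · exact L1 fb gd gc
          · rcases lt_or_gt_of_ne hb.2 with gb | gb
            · obtain ⟨a, qa, a1, a2⟩ := Q0 a (by linarith) (by linarith)
              obtain ⟨b, qb, b1, b2⟩ := Q3 b (by linarith) (by linarith)
              obtain ⟨c, qc, c1, c2⟩ := Q0 c (by linarith) (by linarith)
              obtain ⟨d, qd, d1, d2⟩ := Q0 d (by linarith) (by linarith)
              exact hC.c3 a b c d (by rw [qa, qc]) (by rw [qc, qd]) (by rw [qa, qb]; rfl)
                (by linarith) (by linarith) (by linarith) (by linarith) (by linarith)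
            · obtain ⟨a, qa, a1, a2⟩ := Q0 a (by linarith) (by linarith)
              obtain ⟨b, qb, b1, b2⟩ := Q0 b (by linarith) (by linarith)
              obtain ⟨c, qc, c1, c2⟩ := Q0 c (by linarith) (by linarith)
              obtain ⟨d, qd, d1, d2⟩ := Q0 d (by linarith) (by linarith)
              exact hC.c0 a b c d (by rw [qa, qb]) (by rw [qb, qc]) (by rw [qc, qd])
                (by linarith) (by linarith) (by linarith) (by linarith) (by linarith)
                (by linarith)

end Pool.Agent.H47.Amal
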