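import Pool.Agent.H47.Amal.Main

/-!
Amalgamation over at most two points, and the passage from point sets to permutations.
-/

namespace Pool.Agent.H47.Amal

/-- An amalgam in which the pairs related by `R` are identified. -/
def AmalgR {α β : Type*} (X Y : α → ℚ) (X' Y' : β → ℚ) (R : α → β → Prop) : Prop :=
  ∃ (F G : α → ℚ) (F' G' : β → ℚ), (∀ a b, X a < X b → F a < F b) ∧
    (∀ a b, Y a < Y b → G a < G b) ∧ (∀ a b, X' a < X' b → F' a < F' b) ∧
    (∀ a b, Y' a < Y' b → G' a < G' b) ∧ (∀ a b, R a b → F a = F' b ∧ G a = G' b) ∧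
    (∀ a b, F a = F' b ↔ G a = G' b) ∧ Av (Sum.elim F F') (Sum.elim G G')

section

variable {α β : Type*} {X Y : α → ℚ} {X' Y' : β → ℚ}

theorem Amalg.toR {x y : α} {x' y' : β} (h : Amalg X Y x y X' Y' x' y') :
    AmalgR X Y X' Y' (fun a b => (a = x ∧ b = x') ∨ (a = y ∧ b = y')) := by
  obtain ⟨F, G, F', G', h1, h2, h3, h4, h5, h6, h7, h8, h9, h10⟩ := h
  refine ⟨F, G, F', G', h1, h2, h3, h4, ?_, h9, h10⟩
  rintro a b (⟨rfl, rfl⟩ | ⟨rfl, rfl⟩)
  · exact ⟨h5, h6⟩
  · exact ⟨h7, h8⟩

theorem Av.rot {T : Type*} {X Y : T → ℚ} (h : Av X Y) : Av (fun a => -Y a) X := by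
  intro a b c d k1 k2 k3 k4 k5 k6
  beta_reduce at k1 k2 k3
  exact h b d a c (by linarith) (by linarith) (by linarith) (by linarith) (by linarith)
    (by linarith)

theorem Av.rot' {T : Type*} {X Y : T → ℚ} (h : Av X Y) : Av Y (fun a => -X a) := by
  intro a b c d k1 k2 k3 k4 k5 k6
  beta_reduce at k4 k5 k6
  exact h c a d b (by linarith) (by linarith) (by linarith) (by linarith) (by linarith)
    (by linarith)

theorem AmalgR.rot {R : α → β → Prop}
    (h : AmalgR (fun a => -Y a) X (fun a => -Y' a) X' R) : AmalgR X Y X' Y' R := by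
  obtain ⟨F, G, F', G', h1, h2, h3, h4, h5, h6, h7⟩ := h
  refine ⟨G, fun a => -F a, G', fun a => -F' a, h2, ?_, h4, ?_, ?_, ?_, ?_⟩
  · intro a b hab
    have := h1 b a (by linarith)
    linarith
  · intro a b hab
    have := h3 b a (by linarith)
    linarith
  · intro a b hab
    exact ⟨(h5 a b hab).2, congrArg Neg.neg (h5 a b hab).1⟩
  · intro a b
    rw [neg_inj]
    exact (h6 a b).symm
  · have := h7.rot'
    have e1 : (fun a => -Sum.elim F F' a) = Sum.elim (fun a => -F a) (fun a => -F' a) := by
      funext t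
      rcases t with t | t <;> rfl
    rw [e1] at this
    exact this

/-- Amalgamation over two points. -/
theorem amalg_two [Finite α] [Finite β] {x y : α} {x' y' : β}
    (hX : Function.Injective X) (hY : Function.Injective Y)
    (hX' : Function.Injective X') (hY' : Function.Injective Y') (hAv : Av X Y)
    (hAv' : Av X' Y') (hyx : X x < X y) (hyx' : X' x' < X' y')
    (h : (Y x < Y y ∧ Y' x' < Y' y') ∨ (Y y < Y x ∧ Y' y' < Y' x')) :
    AmalgR X Y X' Y' (fun a b => (a = x ∧ b = x') ∨ (a = y ∧ b = y')) := by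
  rcases h with h | h
  · exact (amalg_inc hX hY hX' hY' hAv hAv' hyx hyx' h.1 h.2).toR
  · apply AmalgR.rot
    exact (amalg_inc (fun a b h => hY (neg_injective h)) hX (fun a b h => hY' (neg_injective h))
      hX' hAv.rot hAv'.rot (neg_lt_neg h.1) (neg_lt_neg h.2) hyx hyx').toR

/-- Adding a top right point. -/
def opt (X : α → ℚ) (M : ℚ) : Option α → ℚ := fun o => o.elim M X

theorem opt_inj (hX : Function.Injective X) {M : ℚ} (hM : ∀ a, X a < M) :
    Function.Injective (opt X M) := by
  rintro (_ | a) (_ | b) h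
  · rfl
  · have : M = X b := h
    have := hM b
    linarith
  · have : X a = M := h
    have := hM a
    linarith
  · have : X a = X b := h
    rw [hX this]

theorem opt_av (hAv : Av X Y) {M N : ℚ} (hM : ∀ a, X a < M) (hN : ∀ a, Y a < N) :
    Av (opt X M) (opt Y N) := by
  have e1 : ∀ o : Option α, opt X M o ≤ M := by
    rintro (_ | a)
    · exact le_rfl
    · exact (hM a).le
  have e2 : ∀ o : Option α, opt Y N o ≤ N := by
    rintro (_ | a)
    · exact le_rfl
    · exact (hN a).le
  intro a b c d k1 k2 k3 k4 k5 k6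
  rcases a with _ | a
  · have h1 : M < opt X M b := k1
    have := e1 b
    linarith
  rcases b with _ | b
  · have h1 : M < opt X M c := k2
    have := e1 c
    linarith
  rcases c with _ | c
  · have h1 : M < opt X M d := k3
    have := e1 d
    linarith
  rcases d with _ | d
  · have h1 : N < Y a := k5
    have := hN a
    linarith
  exact hAv a b c d k1 k2 k3 k4 k5 k6

theorem AmalgR.of_opt {M N M' N' : ℚ} {R : Option α → Option β → Prop}
    (h : AmalgR (opt X M) (opt Y N) (opt X' M') (opt Y' N') R) :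
    AmalgR X Y X' Y' (fun a b => R (some a) (some b)) := by
  obtain ⟨F, G, F', G', h1, h2, h3, h4, h5, h6, h7⟩ := h
  refine ⟨fun a => F (some a), fun a => G (some a), fun a => F' (some a), fun a => G' (some a),
    fun a b hab => h1 _ _ hab, fun a b hab => h2 _ _ hab, fun a b hab => h3 _ _ hab,
    fun a b hab => h4 _ _ hab, fun a b hab => h5 _ _ hab, fun a b => h6 _ _, ?_⟩
  have := h7.comp (Sum.map some some)
  have e1 : (fun a => Sum.elim F F' (Sum.map some some a)) =
      Sum.elim (fun a => F (some a)) (fun a => F' (some a)) := by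
    funext t
    rcases t with t | t <;> rfl
  have e2 : (fun a => Sum.elim G G' (Sum.map some some a)) =
      Sum.elim (fun a => G (some a)) (fun a => G' (some a)) := by
    funext t
    rcases t with t | t <;> rfl
  rw [e1, e2] at this
  exact this

theorem exists_top [Finite α] (X : α → ℚ) : ∃ M : ℚ, ∀ a, X a < M := by
  obtain ⟨M, hM⟩ := (Set.finite_range X).bddAbove
  exact ⟨M + 1, fun a => by
    have := hM ⟨a, rfl⟩
    linarith⟩

/-- Amalgamation over one point. -/
theorem amalg_one [Finite α] [Finite β] (x : α) (x' : β)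
    (hX : Function.Injective X) (hY : Function.Injective Y)
    (hX' : Function.Injective X') (hY' : Function.Injective Y') (hAv : Av X Y)
    (hAv' : Av X' Y') : AmalgR X Y X' Y' (fun a b => a = x ∧ b = x') := by
  obtain ⟨M, hM⟩ := exists_top X
  obtain ⟨N, hN⟩ := exists_top Y
  obtain ⟨M', hM'⟩ := exists_top X'
  obtain ⟨N', hN'⟩ := exists_top Y'
  have h := (amalg_two (x := some x) (y := none) (x' := some x') (y' := none) (opt_inj hX hM)
    (opt_inj hY hN) (opt_inj hX' hM') (opt_inj hY' hN') (opt_av hAv hM hN)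
    (opt_av hAv' hM' hN') (hM x) (hM' x') (Or.inl ⟨hN x, hN' x'⟩)).of_opt
  obtain ⟨F, G, F', G', h1, h2, h3, h4, h5, h6, h7⟩ := h
  refine ⟨F, G, F', G', h1, h2, h3, h4, ?_, h6, h7⟩
  rintro a b ⟨rfl, rfl⟩
  exact h5 a b (Or.inl ⟨rfl, rfl⟩)

/-- Amalgamation over the empty set. -/
theorem amalg_zero [Finite α] [Finite β]
    (hX : Function.Injective X) (hY : Function.Injective Y)
    (hX' : Function.Injective X') (hY' : Function.Injective Y') (hAv : Av X Y)
    (hAv' : Av X' Y') : AmalgR X Y X' Y' (fun _ _ => False) := by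
  obtain ⟨M, hM⟩ := exists_top X
  obtain ⟨N, hN⟩ := exists_top Y
  obtain ⟨M', hM'⟩ := exists_top X'
  obtain ⟨N', hN'⟩ := exists_top Y'
  have h := (amalg_one (none : Option α) (none : Option β) (opt_inj hX hM)
    (opt_inj hY hN) (opt_inj hX' hM') (opt_inj hY' hN') (opt_av hAv hM hN)
    (opt_av hAv' hM' hN')).of_opt
  obtain ⟨F, G, F', G', h1, h2, h3, h4, h5, h6, h7⟩ := h
  exact ⟨F, G, F', G', h1, h2, h3, h4, fun a b h => h.elim, h6, h7⟩

end

/-- A finite family of distinct points in general position is a permutation. -/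
theorem exists_perm {W : Type*} [Finite W] (F G : W → ℚ)
    (h : ∀ w w', F w = F w' ↔ G w = G w') :
    ∃ (N : ℕ) (τ : Equiv.Perm (Fin N)) (r : W → Fin N), (∀ i, ∃ w, r w = i) ∧
      (∀ w w', F w < F w' ↔ r w < r w') ∧ (∀ w w', G w < G w' ↔ τ (r w) < τ (r w')) := by
  classical
  have := Fintype.ofFinite W
  let s : Finset ℚ := Finset.univ.image F
  let t : Finset ℚ := Finset.univ.image G
  let p : Finset (ℚ × ℚ) := Finset.univ.image (fun w => (F w, G w))
  have hs : s.card = p.card := by
    have h1 : s = p.image Prod.fst := by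
      ext z
      simp [s, p]
    rw [h1]
    apply Finset.card_image_of_injOn
    intro a ha b hb hab
    simp only [p, Finset.coe_image, Finset.coe_univ, Set.image_univ, Set.mem_range] at ha hb
    obtain ⟨w, rfl⟩ := ha
    obtain ⟨w', rfl⟩ := hb
    simp only at hab
    simp only [hab, (h w w').1 hab]
  have ht : t.card = p.card := by
    have h1 : t = p.image Prod.snd := by
      ext z
      simp [t, p]
    rw [h1]
    apply Finset.card_image_of_injOn
    intro a ha b hb hab
    simp only [p, Finset.coe_image, Finset.coe_univ, Set.image_univ, Set.mem_range] at ha hb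
    obtain ⟨w, rfl⟩ := ha
    obtain ⟨w', rfl⟩ := hb
    simp only at hab
    simp only [hab, (h w w').2 hab]
  let eX := s.orderIsoOfFin hs
  let eY := t.orderIsoOfFin ht
  have ms : ∀ w, F w ∈ s := fun w => Finset.mem_image_of_mem _ (Finset.mem_univ w)
  have mt : ∀ w, G w ∈ t := fun w => Finset.mem_image_of_mem _ (Finset.mem_univ w)
  let r : W → Fin p.card := fun w => eX.symm ⟨F w, ms w⟩
  let r' : W → Fin p.card := fun w => eY.symm ⟨G w, mt w⟩
  have hr : ∀ w w', F w < F w' ↔ r w < r w' := by
    intro w w'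
    show _ ↔ eX.symm _ < eX.symm _
    rw [eX.symm.lt_iff_lt, Subtype.mk_lt_mk]
  have hr' : ∀ w w', G w < G w' ↔ r' w < r' w' := by
    intro w w'
    show _ ↔ eY.symm _ < eY.symm _
    rw [eY.symm.lt_iff_lt, Subtype.mk_lt_mk]
  have hsurj : ∀ i, ∃ w, r w = i := by
    intro i
    have h1 := (eX i).2
    obtain ⟨w, _, hw⟩ := Finset.mem_image.1 h1
    refine ⟨w, ?_⟩
    show eX.symm ⟨F w, ms w⟩ = i
    rw [OrderIso.symm_apply_eq]
    exact Subtype.ext hw
  choose c hc using hsurj
  have heq : ∀ w w', r w = r w' ↔ r' w = r' w' := by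
    intro w w'
    have e1 : r w = r w' ↔ F w = F w' := by
      constructor
      · intro h
        rcases lt_trichotomy (F w) (F w') with h' | h' | h'
        · rw [hr, h] at h'
          exact absurd h' (lt_irrefl _)
        · exact h'
        · rw [hr, h] at h'
          exact absurd h' (lt_irrefl _)
      · intro h
        show eX.symm ⟨F w, ms w⟩ = eX.symm ⟨F w', ms w'⟩
        simp only [h]
    have e2 : r' w = r' w' ↔ G w = G w' := by
      constructor
      · intro h
        rcases lt_trichotomy (G w) (G w') with h' | h' | h'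
        · rw [hr', h] at h'
          exact absurd h' (lt_irrefl _)
        · exact h'
        · rw [hr', h] at h'
          exact absurd h' (lt_irrefl _)
      · intro h
        show eY.symm ⟨G w, mt w⟩ = eY.symm ⟨G w', mt w'⟩
        simp only [h]
    rw [e1, e2]
    exact h w w'
  have hinj : Function.Injective (fun i => r' (c i)) := by
    intro i j hij
    have h1 := (heq (c i) (c j)).2 hij
    rw [hc, hc] at h1
    exact h1
  let τ : Equiv.Perm (Fin p.card) := Equiv.ofBijective (fun i => r' (c i))
    (Finite.injective_iff_bijective.1 hinj)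
  have hτ : ∀ w, τ (r w) = r' w := by
    intro w
    show r' (c (r w)) = r' w
    rw [← heq, hc]
  refine ⟨p.card, τ, r, fun i => ⟨c i, hc i⟩, hr, ?_⟩
  intro w w'
  rw [hτ, hτ]
  exact hr' w w'

end Pool.Agent.H47.Amal
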