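import Pool.Agent.H47.Amal.Last

/-!
Reduction of the amalgamation problem to the right parts.
-/

namespace Pool.Agent.H47.Amal

/-- An amalgam of two point sets with marked points `x`, `y` and `x'`, `y'`. -/
def Amalg {α β : Type*} (X Y : α → ℚ) (x y : α) (X' Y' : β → ℚ) (x' y' : β) : Prop :=
  ∃ (F G : α → ℚ) (F' G' : β → ℚ), (∀ a b, X a < X b → F a < F b) ∧
    (∀ a b, Y a < Y b → G a < G b) ∧ (∀ a b, X' a < X' b → F' a < F' b) ∧
    (∀ a b, Y' a < Y' b → G' a < G' b) ∧ F x = F' x' ∧ G x = G' x' ∧ F y = F' y' ∧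
    G y = G' y' ∧ (∀ a b, F a = F' b ↔ G a = G' b) ∧ Av (Sum.elim F F') (Sum.elim G G')

theorem av_swap {α β : Type*} {F G : α → ℚ} {F' G' : β → ℚ}
    (h : Av (Sum.elim F F') (Sum.elim G G')) : Av (Sum.elim F' F) (Sum.elim G' G) := by
  have hF : ∀ t : β ⊕ α, Sum.elim F' F t = Sum.elim F F' t.swap := by
    rintro (t | t) <;> rfl
  have hG : ∀ t : β ⊕ α, Sum.elim G' G t = Sum.elim G G' t.swap := by
    rintro (t | t) <;> rfl
  intro a b c d k1 k2 k3 k4 k5 k6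
  rw [hF, hF] at k1 k2 k3
  rw [hG, hG] at k4 k5 k6
  exact h _ _ _ _ k1 k2 k3 k4 k5 k6

theorem Amalg.symm {α β : Type*} {X Y : α → ℚ} {x y : α} {X' Y' : β → ℚ} {x' y' : β}
    (h : Amalg X Y x y X' Y' x' y') : Amalg X' Y' x' y' X Y x y := by
  obtain ⟨F, G, F', G', h1, h2, h3, h4, h5, h6, h7, h8, h9, h10⟩ := h
  exact ⟨F', G', F, G, h3, h4, h1, h2, h5.symm, h6.symm, h7.symm, h8.symm,
    fun a b => ⟨fun h => ((h9 b a).1 h.symm).symm, fun h => ((h9 b a).2 h.symm).symm⟩,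
    av_swap h10⟩

theorem pl_eq {i j : ZMod 4} {U V U' V' : ℚ} (u : 0 < U) (v : 0 < V) (u' : 0 < U')
    (v' : 0 < V') (h1 : U ≠ V') (h2 : V ≠ U') (h : i = j → (U = U' ↔ V = V')) :
    plF i U V = plF j U' V' ↔ plG i U V = plG j U' V' := by
  rcases cases4 i with rfl | rfl | rfl | rfl <;> rcases cases4 j with rfl | rfl | rfl | rfl
  · rw [(pl0 _ _).1, (pl0 _ _).2, (pl0 _ _).1, (pl0 _ _).2]
    exact (h rfl).symm
  · rw [(pl0 _ _).1, (pl0 _ _).2, (pl1 _ _).1, (pl1 _ _).2]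
    exact ⟨fun k => ((by linarith : False)).elim, fun k => ((h1 (by linarith) : False)).elim⟩
  · rw [(pl0 _ _).1, (pl0 _ _).2, (pl2 _ _).1, (pl2 _ _).2]
    exact ⟨fun k => ((by linarith : False)).elim, fun k => ((by linarith : False)).elim⟩
  · rw [(pl0 _ _).1, (pl0 _ _).2, (pl3 _ _).1, (pl3 _ _).2]
    exact ⟨fun k => ((h2 (by linarith) : False)).elim, fun k => ((by linarith : False)).elim⟩
  · rw [(pl1 _ _).1, (pl1 _ _).2, (pl0 _ _).1, (pl0 _ _).2]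
    exact ⟨fun k => ((by linarith : False)).elim, fun k => ((h2 (by linarith) : False)).elim⟩
  · rw [(pl1 _ _).1, (pl1 _ _).2, (pl1 _ _).1, (pl1 _ _).2]
    exact ⟨fun k => (h rfl).1 (by linarith), fun k => by rw [(h rfl).2 k]⟩
  · rw [(pl1 _ _).1, (pl1 _ _).2, (pl2 _ _).1, (pl2 _ _).2]
    exact ⟨fun k => ((h1 (by linarith) : False)).elim, fun k => ((by linarith : False)).elim⟩
  · rw [(pl1 _ _).1, (pl1 _ _).2, (pl3 _ _).1, (pl3 _ _).2]
    exact ⟨fun k => ((by linarith : False)).elim, fun k => ((by linarith : False)).elim⟩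
  · rw [(pl2 _ _).1, (pl2 _ _).2, (pl0 _ _).1, (pl0 _ _).2]
    exact ⟨fun k => ((by linarith : False)).elim, fun k => ((by linarith : False)).elim⟩
  · rw [(pl2 _ _).1, (pl2 _ _).2, (pl1 _ _).1, (pl1 _ _).2]
    exact ⟨fun k => ((h2 (by linarith) : False)).elim, fun k => ((by linarith : False)).elim⟩
  · rw [(pl2 _ _).1, (pl2 _ _).2, (pl2 _ _).1, (pl2 _ _).2]
    exact ⟨fun k => by rw [(h rfl).2 (by linarith)], fun k => by rw [(h rfl).1 (by linarith)]⟩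
  · rw [(pl2 _ _).1, (pl2 _ _).2, (pl3 _ _).1, (pl3 _ _).2]
    exact ⟨fun k => ((by linarith : False)).elim, fun k => ((h1 (by linarith) : False)).elim⟩
  · rw [(pl3 _ _).1, (pl3 _ _).2, (pl0 _ _).1, (pl0 _ _).2]
    exact ⟨fun k => ((h1 (by linarith) : False)).elim, fun k => ((by linarith : False)).elim⟩
  · rw [(pl3 _ _).1, (pl3 _ _).2, (pl1 _ _).1, (pl1 _ _).2]
    exact ⟨fun k => ((by linarith : False)).elim, fun k => ((by linarith : False)).elim⟩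
  · rw [(pl3 _ _).1, (pl3 _ _).2, (pl2 _ _).1, (pl2 _ _).2]
    exact ⟨fun k => ((by linarith : False)).elim, fun k => ((h2 (by linarith) : False)).elim⟩
  · rw [(pl3 _ _).1, (pl3 _ _).2, (pl3 _ _).1, (pl3 _ _).2]
    exact ⟨fun k => by rw [(h rfl).1 k], fun k => (h rfl).2 (by linarith)⟩

theorem pl_sign {α : Type*} {X Y : α → ℚ} {x a : α} (hX : Function.Injective X)
    (hY : Function.Injective Y) (ha : a ≠ x) {U V : ℚ} (u : 0 < U) (v : 0 < V) :
    (X x < X a → 0 < plF (cq X Y x a) U V) ∧ (X a < X x → plF (cq X Y x a) U V < 0) ∧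
    (Y x < Y a → 0 < plG (cq X Y x a) U V) ∧ (Y a < Y x → plG (cq X Y x a) U V < 0) := by
  rcases cl hX hY ha with ⟨q, _, _, c, d⟩ | ⟨q, _, _, c, d⟩ | ⟨q, _, _, c, d⟩ | ⟨q, _, _, c, d⟩
  · rw [q, (pl0 _ _).1, (pl0 _ _).2]
    exact ⟨fun _ => v, fun h => by linarith, fun _ => u, fun h => by linarith⟩
  · rw [q, (pl1 _ _).1, (pl1 _ _).2]
    exact ⟨fun h => by linarith, fun h => by linarith, fun _ => v, fun h => by linarith⟩
  · rw [q, (pl2 _ _).1, (pl2 _ _).2]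
    exact ⟨fun h => by linarith, fun h => by linarith, fun h => by linarith,
      fun h => by linarith⟩
  · rw [q, (pl3 _ _).1, (pl3 _ _).2]
    exact ⟨fun _ => u, fun h => by linarith, fun h => by linarith, fun h => by linarith⟩

theorem pl_ne {i : ZMod 4} {U V : ℚ} (u : 0 < U) (v : 0 < V) :
    plF i U V ≠ 0 ∧ plG i U V ≠ 0 := by
  rcases cases4 i with rfl | rfl | rfl | rfl
  · rw [(pl0 _ _).1, (pl0 _ _).2]
    exact ⟨v.ne', u.ne'⟩
  · rw [(pl1 _ _).1, (pl1 _ _).2]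
    exact ⟨by linarith, v.ne'⟩
  · rw [(pl2 _ _).1, (pl2 _ _).2]
    exact ⟨by linarith, by linarith⟩
  · rw [(pl3 _ _).1, (pl3 _ _).2]
    exact ⟨u.ne', by linarith⟩

/-- Placement of a whole point set around its centre. -/
theorem mono_all {α : Type*} {X Y : α → ℚ} {x : α} (hX : Function.Injective X)
    (hY : Function.Injective Y) {U V : {a // a ≠ x} → ℚ} (hU : ∀ e, 0 < U e)
    (hV : ∀ e, 0 < V e) (hm : ∀ e e' : {a // a ≠ x},
      (X e.1 < X e'.1 → plF (cq X Y x e.1) (U e) (V e) < plF (cq X Y x e'.1) (U e') (V e')) ∧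
      (Y e.1 < Y e'.1 → plG (cq X Y x e.1) (U e) (V e) < plG (cq X Y x e'.1) (U e') (V e')))
    {F G : α → ℚ} (hF0 : F x = 0) (hG0 : G x = 0)
    (hF : ∀ a (h : a ≠ x), F a = plF (cq X Y x a) (U ⟨a, h⟩) (V ⟨a, h⟩))
    (hG : ∀ a (h : a ≠ x), G a = plG (cq X Y x a) (U ⟨a, h⟩) (V ⟨a, h⟩)) :
    (∀ a b, X a < X b → F a < F b) ∧ (∀ a b, Y a < Y b → G a < G b) := by
  constructor
  · intro a b hab
    by_cases ha : a = x
    · have hb : b ≠ x := by
        rintro rfl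
        rw [ha] at hab
        exact lt_irrefl _ hab
      rw [ha, hF0, hF b hb]
      rw [ha] at hab
      exact (pl_sign hX hY hb (hU _) (hV _)).1 hab
    · by_cases hb : b = x
      · rw [hb, hF0, hF a ha]
        rw [hb] at hab
        exact (pl_sign hX hY ha (hU _) (hV _)).2.1 hab
      · rw [hF a ha, hF b hb]
        exact (hm ⟨a, ha⟩ ⟨b, hb⟩).1 hab
  · intro a b hab
    by_cases ha : a = x
    · have hb : b ≠ x := by
        rintro rfl
        rw [ha] at hab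
        exact lt_irrefl _ hab
      rw [ha, hG0, hG b hb]
      rw [ha] at hab
      exact (pl_sign hX hY hb (hU _) (hV _)).2.2.1 hab
    · by_cases hb : b = x
      · rw [hb, hG0, hG a ha]
        rw [hb] at hab
        exact (pl_sign hX hY ha (hU _) (hV _)).2.2.2 hab
      · rw [hG a ha, hG b hb]
        exact (hm ⟨a, ha⟩ ⟨b, hb⟩).2 hab

theorem amalg_le {α β : Type*} [Finite α] [Finite β] {X Y : α → ℚ} {x y : α}
    {X' Y' : β → ℚ} {x' y' : β} (hX : Function.Injective X) (hY : Function.Injective Y)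
    (hX' : Function.Injective X') (hY' : Function.Injective Y')
    (P : Side {a // a ≠ x}) (S : Side {b // b ≠ x'})
    (hPq : P.q = fun e => cq X Y x e.1) (hPu : P.u = fun e => cu X Y x e.1)
    (hPv : P.v = fun e => cv X Y x e.1) (hSq : S.q = fun e => cq X' Y' x' e.1)
    (hSu : S.u = fun e => cu X' Y' x' e.1) (hSv : S.v = fun e => cv X' Y' x' e.1)
    (hy : y ≠ x) (hy' : y' ≠ x') (hyx : X x < X y) (hyx' : X' x' < X' y')
    (hq : P.q ⟨y, hy⟩ = 0) (hq' : S.q ⟨y', hy'⟩ = 0)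
    (hl : S.lv ⟨y', hy'⟩ ≤ P.lv ⟨y, hy⟩)
    (hR : Amalg (fun a : {a // X x ≤ X a} => X a.1) (fun a => Y a.1) ⟨x, le_rfl⟩ ⟨y, hyx.le⟩
      (fun b : {b // X' x' ≤ X' b} => X' b.1) (fun b => Y' b.1) ⟨x', le_rfl⟩ ⟨y', hyx'.le⟩) :
    Amalg X Y x y X' Y' x' y' := by
  classical
  have := Fintype.ofFinite α
  have := Fintype.ofFinite β
  obtain ⟨f, g, f', g', hf, hg, hf', hg', fx, gx, fy, gy, feq, hav⟩ := hR
  -- extend to total functions
  let F0 : α → ℚ := fun a => if h : X x ≤ X a then f ⟨a, h⟩ else 0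
  let G0 : α → ℚ := fun a => if h : X x ≤ X a then g ⟨a, h⟩ else 0
  let F0' : β → ℚ := fun a => if h : X' x' ≤ X' a then f' ⟨a, h⟩ else 0
  let G0' : β → ℚ := fun a => if h : X' x' ≤ X' a then g' ⟨a, h⟩ else 0
  have eF : ∀ a (h : X x ≤ X a), F0 a = f ⟨a, h⟩ := fun a h => dif_pos h
  have eG : ∀ a (h : X x ≤ X a), G0 a = g ⟨a, h⟩ := fun a h => dif_pos h
  have eF' : ∀ a (h : X' x' ≤ X' a), F0' a = f' ⟨a, h⟩ := fun a h => dif_pos h
  have eG' : ∀ a (h : X' x' ≤ X' a), G0' a = g' ⟨a, h⟩ := fun a h => dif_pos h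
  have hlast := cell_last hX hY hX' hY' P S hPq hPu hPv hSq hSu hSv hq hq'
    (F := F0) (G := G0) (F' := F0') (G' := G0')
    (by
      intro a b ha hab
      rw [eF a ha, eF b (ha.trans hab.le)]
      exact hf _ _ hab)
    (by
      intro a b ha hb hab
      rw [eG a ha, eG b hb]
      exact hg _ _ hab)
    (by
      intro a b ha hab
      rw [eF' a ha, eF' b (ha.trans hab.le)]
      exact hf' _ _ hab)
    (by
      intro a b ha hb hab
      rw [eG' a ha, eG' b hb]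
      exact hg' _ _ hab)
    (by rw [eF x le_rfl, eF' x' le_rfl]; exact fx)
    (by rw [eG x le_rfl, eG' x' le_rfl]; exact gx)
    (by
      show F0 y = F0' y'
      rw [eF y hyx.le, eF' y' hyx'.le]
      exact fy)
    (by
      show G0 y = G0' y'
      rw [eG y hyx.le, eG' y' hyx'.le]
      exact gy)
    (by
      intro a b ha hb
      rw [eF a ha, eF' b hb, eG a ha, eG' b hb]
      exact feq _ _)
    (by
      have key : ∀ t : α ⊕ β, Sum.elim (fun a => X x ≤ X a) (fun b => X' x' ≤ X' b) t →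
          ∃ t' : {a // X x ≤ X a} ⊕ {b // X' x' ≤ X' b}, Sum.elim F0 F0' t = Sum.elim f f' t' ∧
            Sum.elim G0 G0' t = Sum.elim g g' t' := by
        rintro (t | t) ht
        · exact ⟨Sum.inl ⟨t, ht⟩, eF t ht, eG t ht⟩
        · exact ⟨Sum.inr ⟨t, ht⟩, eF' t ht, eG' t ht⟩
      intro a b c d ma mb mc md k1 k2 k3 k4 k5 k6
      obtain ⟨a', a1, a2⟩ := key a ma
      obtain ⟨b', b1, b2⟩ := key b mb
      obtain ⟨c', c1, c2⟩ := key c mc
      obtain ⟨d', d1, d2⟩ := key d md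
      rw [a1, b1] at k1
      rw [b1, c1] at k2
      rw [c1, d1] at k3
      rw [b2, d2] at k4
      rw [d2, a2] at k5
      rw [a2, c2] at k6
      exact hav a' b' c' d' k1 k2 k3 k4 k5 k6)
  obtain ⟨P', S', e1, e2, e3, e4, e5, e6, J⟩ := assemble (by rw [hq, hq']) hl hlast
  -- the addresses
  let AU := adrU (lenT P' S' ⟨y, hy⟩ ⟨y', hy'⟩) (preT P' S' ⟨y, hy⟩ ⟨y', hy'⟩)
    (Sum.elim P'.us S'.us)
  let AV := adrV (lenT P' S' ⟨y, hy⟩ ⟨y', hy'⟩) (preT P' S' ⟨y, hy⟩ ⟨y', hy'⟩)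
    (Sum.elim P'.vs S'.vs)
  have hglue : CenAx (Sum.elim P'.q S'.q) AU AV := glue J
  let s : Finset Adr := (Finset.univ.image AU) ∪ (Finset.univ.image AV)
  have sU : ∀ t, AU t ∈ s := fun t =>
    Finset.mem_union_left _ (Finset.mem_image_of_mem _ (Finset.mem_univ t))
  have sV : ∀ t, AV t ∈ s := fun t =>
    Finset.mem_union_right _ (Finset.mem_image_of_mem _ (Finset.mem_univ t))
  let U : {a // a ≠ x} ⊕ {b // b ≠ x'} → ℚ := fun t => rk s (AU t)
  let V : {a // a ≠ x} ⊕ {b // b ≠ x'} → ℚ := fun t => rk s (AV t)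
  have hU : ∀ t, 0 < U t := fun t => rk_pos (sU t)
  have hV : ∀ t, 0 < V t := fun t => rk_pos (sV t)
  have hC : CenAx (Sum.elim P'.q S'.q) U V :=
    ⟨fun a b c d q1 q2 q3 k1 k2 k3 k4 k5 k6 => hglue.c0 a b c d q1 q2 q3 (lt_of_rk k1)
      (lt_of_rk k2) (lt_of_rk k3) (lt_of_rk k4) (lt_of_rk k5) (lt_of_rk k6),
    fun g e e' q1 q2 k1 k2 k3 => hglue.c1 g e e' q1 q2 (lt_of_rk k1) (lt_of_rk k2)
      (lt_of_rk k3),
    fun e0 e1 e2 e3 q0 q1 q2 q3 k1 k2 k3 k4 => hglue.c2 e0 e1 e2 e3 q0 q1 q2 q3 (lt_of_rk k1)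
      (lt_of_rk k2) (lt_of_rk k3) (lt_of_rk k4),
    fun a b c e q1 q2 q3 k1 k2 k3 k4 k5 => hglue.c3 a b c e q1 q2 q3 (lt_of_rk k1)
      (lt_of_rk k2) (lt_of_rk k3) (lt_of_rk k4) (lt_of_rk k5)⟩
  have qP : ∀ e : {a // a ≠ x}, P'.q e = cq X Y x e.1 := fun e => by rw [e1, hPq]
  have uP : ∀ e : {a // a ≠ x}, P'.u e = cu X Y x e.1 := fun e => by rw [e2, hPu]
  have vP : ∀ e : {a // a ≠ x}, P'.v e = cv X Y x e.1 := fun e => by rw [e3, hPv]
  have qS : ∀ e : {b // b ≠ x'}, S'.q e = cq X' Y' x' e.1 := fun e => by rw [e4, hSq]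
  have uS : ∀ e : {b // b ≠ x'}, S'.u e = cu X' Y' x' e.1 := fun e => by rw [e5, hSu]
  have vS : ∀ e : {b // b ≠ x'}, S'.v e = cv X' Y' x' e.1 := fun e => by rw [e6, hSv]
  have hl' := J.hl
  have monoP := mono_pl (X := X) (Y := Y) (x := x) hX hY (U := fun e => U (Sum.inl e))
    (V := fun e => V (Sum.inl e)) (fun e => hU _) (fun e => hV _)
    (fun e e' hq hu => rk_lt (aU_lt P'.cen P'.lev baseP_supp P'.loc
      (by rw [qP, qP]; exact hq) (by rw [uP, uP]; exact hu)) (sU _))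
    (fun e e' hq hu => rk_lt (aV_lt P'.cen P'.lev baseP_supp P'.loc
      (by rw [qP, qP]; exact hq) (by rw [vP, vP]; exact hu)) (sV _))
    (fun g e hq hu => rk_lt (aV_lt_aU P'.cen P'.lev baseP_supp P'.loc
      (by rw [qP, qP]; exact hq) (by rw [vP, uP]; exact hu)) (sU _))
    (fun g e hq hu => rk_lt (aU_lt_aV P'.cen P'.lev baseP_supp P'.loc
      (by rw [qP, qP]; exact hq) (by rw [uP, vP]; exact hu)) (sV _))
  have monoS := mono_pl (X := X') (Y := Y') (x := x') hX' hY' (U := fun e => U (Sum.inr e))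
    (V := fun e => V (Sum.inr e)) (fun e => hU _) (fun e => hV _)
    (fun e e' hq hu => rk_lt (aU_lt S'.cen S'.lev (baseS_supp hl') S'.loc
      (by rw [qS, qS]; exact hq) (by rw [uS, uS]; exact hu)) (sU _))
    (fun e e' hq hu => rk_lt (aV_lt S'.cen S'.lev (baseS_supp hl') S'.loc
      (by rw [qS, qS]; exact hq) (by rw [vS, vS]; exact hu)) (sV _))
    (fun g e hq hu => rk_lt (aV_lt_aU S'.cen S'.lev (baseS_supp hl') S'.loc
      (by rw [qS, qS]; exact hq) (by rw [vS, uS]; exact hu)) (sU _))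
    (fun g e hq hu => rk_lt (aU_lt_aV S'.cen S'.lev (baseS_supp hl') S'.loc
      (by rw [qS, qS]; exact hq) (by rw [uS, vS]; exact hu)) (sV _))
  let F : α → ℚ := fun a => if h : a = x then 0 else
    plF (cq X Y x a) (U (Sum.inl ⟨a, h⟩)) (V (Sum.inl ⟨a, h⟩))
  let G : α → ℚ := fun a => if h : a = x then 0 else
    plG (cq X Y x a) (U (Sum.inl ⟨a, h⟩)) (V (Sum.inl ⟨a, h⟩))
  let F' : β → ℚ := fun a => if h : a = x' then 0 else
    plF (cq X' Y' x' a) (U (Sum.inr ⟨a, h⟩)) (V (Sum.inr ⟨a, h⟩))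
  let G' : β → ℚ := fun a => if h : a = x' then 0 else
    plG (cq X' Y' x' a) (U (Sum.inr ⟨a, h⟩)) (V (Sum.inr ⟨a, h⟩))
  have F0x : F x = 0 := dif_pos rfl
  have G0x : G x = 0 := dif_pos rfl
  have F0x' : F' x' = 0 := dif_pos rfl
  have G0x' : G' x' = 0 := dif_pos rfl
  have Fa : ∀ a (h : a ≠ x), F a = plF (cq X Y x a) (U (Sum.inl ⟨a, h⟩)) (V (Sum.inl ⟨a, h⟩)) :=
    fun a h => dif_neg h
  have Ga : ∀ a (h : a ≠ x), G a = plG (cq X Y x a) (U (Sum.inl ⟨a, h⟩)) (V (Sum.inl ⟨a, h⟩)) :=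
    fun a h => dif_neg h
  have Fb : ∀ a (h : a ≠ x'), F' a =
      plF (cq X' Y' x' a) (U (Sum.inr ⟨a, h⟩)) (V (Sum.inr ⟨a, h⟩)) := fun a h => dif_neg h
  have Gb : ∀ a (h : a ≠ x'), G' a =
      plG (cq X' Y' x' a) (U (Sum.inr ⟨a, h⟩)) (V (Sum.inr ⟨a, h⟩)) := fun a h => dif_neg h
  obtain ⟨M1, M2⟩ := mono_all hX hY (fun e => hU _) (fun e => hV _) monoP F0x G0x Fa Ga
  obtain ⟨M3, M4⟩ := mono_all hX' hY' (fun e => hU _) (fun e => hV _) monoS F0x' G0x' Fb Gb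
  have hyU : U (Sum.inl ⟨y, hy⟩) = U (Sum.inr ⟨y', hy'⟩) := congrArg (rk s) (glue_y J).1
  have hyV : V (Sum.inl ⟨y, hy⟩) = V (Sum.inr ⟨y', hy'⟩) := congrArg (rk s) (glue_y J).2
  have hyq : cq X Y x y = cq X' Y' x' y' := by
    have := J.hq
    rw [qP, qS] at this
    exact this
  have hne1 : ∀ t t', U t ≠ V t' := fun t t' h =>
    glue_ne J t t' ((rk_inj (sU t) (sV t')).1 h)
  refine ⟨F, G, F', G', M1, M2, M3, M4, ?_, ?_, ?_, ?_, ?_, ?_⟩
  · rw [F0x, F0x']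
  · rw [G0x, G0x']
  · rw [Fa y hy, Fb y' hy', hyU, hyV, hyq]
  · rw [Ga y hy, Gb y' hy', hyU, hyV, hyq]
  · intro a b
    by_cases ha : a = x
    · by_cases hb : b = x'
      · rw [ha, hb, F0x, F0x', G0x, G0x']
      · rw [ha, F0x, G0x, Fb b hb, Gb b hb]
        have := pl_ne (i := cq X' Y' x' b) (hU (Sum.inr ⟨b, hb⟩)) (hV (Sum.inr ⟨b, hb⟩))
        exact ⟨fun h => absurd h.symm this.1, fun h => absurd h.symm this.2⟩
    · by_cases hb : b = x'
      · rw [hb, F0x', G0x', Fa a ha, Ga a ha]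
        have := pl_ne (i := cq X Y x a) (hU (Sum.inl ⟨a, ha⟩)) (hV (Sum.inl ⟨a, ha⟩))
        exact ⟨fun h => absurd h this.1, fun h => absurd h this.2⟩
      · rw [Fa a ha, Ga a ha, Fb b hb, Gb b hb]
        apply pl_eq (hU _) (hV _) (hU _) (hV _) (hne1 _ _) (fun h => hne1 _ _ h.symm)
        intro hq
        have hq' : P'.q ⟨a, ha⟩ = S'.q ⟨b, hb⟩ := by rw [qP, qS]; exact hq
        have := glue_eq J hq'
        exact ((rk_inj (sU _) (sU _)).trans this).trans (rk_inj (sV _) (sV _)).symm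
  · apply av_of_cen hU hV hC
    rintro (a | b)
    · by_cases ha : a = x
      · left
        simp only [Sum.elim_inl]
        rw [ha, F0x, G0x]
        exact ⟨rfl, rfl⟩
      · right
        refine ⟨Sum.inl ⟨a, ha⟩, ?_⟩
        simp only [Sum.elim_inl]
        rw [Fa a ha, Ga a ha, qP]
        exact ⟨rfl, rfl⟩
    · by_cases hb : b = x'
      · left
        simp only [Sum.elim_inr]
        rw [hb, F0x', G0x']
        exact ⟨rfl, rfl⟩
      · right
        refine ⟨Sum.inr ⟨b, hb⟩, ?_⟩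
        simp only [Sum.elim_inr]
        rw [Fb b hb, Gb b hb, qS]
        exact ⟨rfl, rfl⟩

/-- Reduction to the right parts. -/
theorem amalg_right {α β : Type*} [Finite α] [Finite β] {X Y : α → ℚ} {x y : α}
    {X' Y' : β → ℚ} {x' y' : β} (hX : Function.Injective X) (hY : Function.Injective Y)
    (hX' : Function.Injective X') (hY' : Function.Injective Y') (hAv : Av X Y)
    (hAv' : Av X' Y') (hyx : X x < X y) (hyx' : X' x' < X' y') (hyy : Y x < Y y)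
    (hyy' : Y' x' < Y' y')
    (hR : Amalg (fun a : {a // X x ≤ X a} => X a.1) (fun a => Y a.1) ⟨x, le_rfl⟩ ⟨y, hyx.le⟩
      (fun b : {b // X' x' ≤ X' b} => X' b.1) (fun b => Y' b.1) ⟨x', le_rfl⟩ ⟨y', hyx'.le⟩) :
    Amalg X Y x y X' Y' x' y' := by
  obtain ⟨P, hPq, hPu, hPv⟩ := exists_side (cen_of_plane (x := x) hX hY hAv)
  obtain ⟨S, hSq, hSu, hSv⟩ := exists_side (cen_of_plane (x := x') hX' hY' hAv')
  have hy : y ≠ x := by
    rintro rfl
    exact lt_irrefl _ hyx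
  have hy' : y' ≠ x' := by
    rintro rfl
    exact lt_irrefl _ hyx'
  have hq : P.q ⟨y, hy⟩ = 0 := by
    rw [hPq]
    unfold cq
    simp [hyx, hyy]
  have hq' : S.q ⟨y', hy'⟩ = 0 := by
    rw [hSq]
    unfold cq
    simp [hyx', hyy']
  rcases le_total (S.lv ⟨y', hy'⟩) (P.lv ⟨y, hy⟩) with hl | hl
  · exact amalg_le hX hY hX' hY' P S hPq hPu hPv hSq hSu hSv hy hy' hyx hyx' hq hq' hl hR
  · exact (amalg_le hX' hY' hX hY S P hSq hSu hSv hPq hPu hPv hy' hy hyx' hyx hq' hq hl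
      hR.symm).symm

end Pool.Agent.H47.Amal
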