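import Pool.Agent.H47.Amal.Lex

/-!
The level function and the predecessor tree of a centred structure, and the addresses
which are read off along the tree.
-/

namespace Pool.Agent.H47.Amal

/-- A centred structure (quadrants `q`, coordinates `u`, `v`) without the pattern 3142. -/
structure Cen {E : Type*} (q : E → ZMod 4) (u v : E → ℚ) : Prop where
  hu : ∀ e, 0 < u e
  hv : ∀ e, 0 < v e
  iu : ∀ e e', q e = q e' → u e = u e' → e = e'
  iv : ∀ e e', q e = q e' → v e = v e' → e = e'
  iuv : ∀ g e, q g = q e + 1 → v g ≠ u e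
  ax : CenAx q u v

/-- A level function `lv` and a predecessor function `p` of a centred structure. -/
structure Lev {E : Type*} (q : E → ZMod 4) (u v : E → ℚ) (lv : E → ℕ) (p : E → E) : Prop where
  a2 : ∀ g e, q g = q e + 1 → v g < u e → lv g + 1 ≤ lv e
  pq : ∀ e, 0 < lv e → q (p e) = q e + 1
  pl : ∀ e, 0 < lv e → lv (p e) + 1 = lv e
  pv : ∀ e, 0 < lv e → v (p e) < u e
  pm : ∀ e g, 0 < lv e → q g = q e + 1 → lv g + 1 = lv e → v g < u e → v g ≤ v (p e)

section

variable {E : Type*} {q : E → ZMod 4} {u v : E → ℚ}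

theorem Cen.wf [Finite E] (h : Cen q u v) :
    WellFounded (fun g e : E => q g = q e + 1 ∧ v g < u e) := by
  rw [WellFounded.wellFounded_iff_has_min]
  intro F hF
  by_contra hc
  push Not at hc
  obtain ⟨e0, he0⟩ := hF
  have step : ∀ e ∈ F, ∃ g ∈ F, q g = q e + 1 ∧ v g < u e := fun e he => hc e he
  have all : ∀ i : ZMod 4, ∃ e ∈ F, q e = i := by
    obtain ⟨g1, h1, h1', _⟩ := step e0 he0
    obtain ⟨g2, h2, h2', _⟩ := step g1 h1
    obtain ⟨g3, h3, h3', _⟩ := step g2 h2
    intro i
    have key : i = q e0 ∨ i = q e0 + 1 ∨ i = q e0 + 1 + 1 ∨ i = q e0 + 1 + 1 + 1 := by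
      generalize q e0 = z
      revert i z
      decide
    rcases key with k | k | k | k
    · exact ⟨e0, he0, k.symm⟩
    · exact ⟨g1, h1, by rw [h1', k]⟩
    · exact ⟨g2, h2, by rw [h2', h1', k]⟩
    · exact ⟨g3, h3, by rw [h3', h2', h1', k]⟩
  have mins : ∀ i : ZMod 4, ∃ m ∈ F, q m = i ∧ ∀ e ∈ F, q e = i → u m ≤ u e := by
    intro i
    obtain ⟨e, he, hi⟩ := all i
    have hfin : (F ∩ {e | q e = i}).Finite := Set.toFinite _
    obtain ⟨m, hm, hm'⟩ := Set.exists_min_image (F ∩ {e | q e = i}) u hfin ⟨e, he, hi⟩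
    exact ⟨m, hm.1, hm.2, fun e he hi => hm' e ⟨he, hi⟩⟩
  have nxt : ∀ i : ZMod 4, ∃ g ∈ F, q g = i + 1 ∧ ∀ e ∈ F, q e = i → v g < u e := by
    intro i
    obtain ⟨m, hm, hmi, hmin⟩ := mins i
    obtain ⟨g, hg, hg1, hg2⟩ := step m hm
    exact ⟨g, hg, by rw [hg1, hmi], fun e he hi => hg2.trans_le (hmin e he hi)⟩
  obtain ⟨g1, m1, k1, l1⟩ := nxt 0
  obtain ⟨g2, m2, k2, l2⟩ := nxt 1
  obtain ⟨g3, m3, k3, l3⟩ := nxt 2
  obtain ⟨g0, m0, k0, l0⟩ := nxt 3
  have k1' : q g1 = 1 := by rw [k1]; rfl
  have k2' : q g2 = 2 := by rw [k2]; rfl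
  have k3' : q g3 = 3 := by rw [k3]; rfl
  have k0' : q g0 = 0 := by rw [k0]; rfl
  exact h.ax.c2 g0 g1 g2 g3 k0' k1' k2' k3' (l1 g0 m0 k0') (l2 g1 m1 k1') (l3 g2 m2 k2')
    (l0 g3 m3 k3')

theorem Cen.exists_lev [Finite E] (h : Cen q u v) :
    ∃ (lv : E → ℕ) (p : E → E), Lev q u v lv p := by
  classical
  have := Fintype.ofFinite E
  let R : E → E → Prop := fun g e : E => q g = q e + 1 ∧ v g < u e
  let Fx : (e : E) → ((g : E) → R g e → ℕ) → ℕ := fun e f =>
    (Finset.univ : Finset {g : E // R g e}).sup (fun g => f g.1 g.2 + 1)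
  let lv : E → ℕ := h.wf.fix Fx
  have hlv : ∀ e, lv e = (Finset.univ : Finset {g : E // R g e}).sup (fun g => lv g.1 + 1) :=
    fun e => h.wf.fix_eq Fx e
  have a2 : ∀ g e, q g = q e + 1 → v g < u e → lv g + 1 ≤ lv e := by
    intro g e h1 h2
    rw [hlv e]
    exact Finset.le_sup (f := fun g : {g : E // R g e} => lv g.1 + 1)
      (Finset.mem_univ (⟨g, h1, h2⟩ : {g : E // R g e}))
  have ex : ∀ e, 0 < lv e → ∃ g, q g = q e + 1 ∧ v g < u e ∧ lv g + 1 = lv e := by
    intro e he
    have hne : (Finset.univ : Finset {g : E // R g e}).Nonempty := by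
      by_contra hc
      rw [Finset.not_nonempty_iff_eq_empty] at hc
      rw [hlv e, hc] at he
      simp at he
    obtain ⟨g, _, hg⟩ := Finset.exists_mem_eq_sup _ hne (fun g : {g : E // R g e} => lv g.1 + 1)
    rw [← hlv e] at hg
    exact ⟨g.1, g.2.1, g.2.2, hg.symm⟩
  have ex2 : ∀ e, ∃ p : E, 0 < lv e → q p = q e + 1 ∧ v p < u e ∧ lv p + 1 = lv e ∧
      ∀ g, q g = q e + 1 → lv g + 1 = lv e → v g < u e → v g ≤ v p := by
    intro e
    by_cases he : 0 < lv e
    · have hfin : ({g | q g = q e + 1 ∧ v g < u e ∧ lv g + 1 = lv e} : Set E).Finite :=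
        Set.toFinite _
      obtain ⟨m, hm, hm'⟩ := Set.exists_max_image _ v hfin (ex e he)
      exact ⟨m, fun _ => ⟨hm.1, hm.2.1, hm.2.2, fun g h1 h2 h3 => hm' g ⟨h1, h3, h2⟩⟩⟩
    · exact ⟨e, fun h => absurd h he⟩
  choose p hp using ex2
  exact ⟨lv, p, a2, fun e he => (hp e he).1, fun e he => (hp e he).2.2.1,
    fun e he => (hp e he).2.1, fun e g he => (hp e he).2.2.2 g⟩

variable {lv : E → ℕ} {p : E → E}

theorem Lev.a1 (h : Cen q u v) (L : Lev q u v lv p) {e e' : E} (hq : q e = q e')
    (hl : lv e < lv e') : u e < u e' ∧ v e < v e' := by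
  have h0 : 0 < lv e' := by omega
  have h1 := L.pq e' h0
  have h2 := L.pl e' h0
  have h3 := L.pv e' h0
  have h4 : u e < v (p e') := by
    rcases lt_trichotomy (u e) (v (p e')) with h | h | h
    · exact h
    · exact absurd h.symm (by
        have := Cen.iuv ‹Cen q u v› (p e') e (by rw [h1, hq])
        exact this)
    · have := L.a2 (p e') e (by rw [h1, hq]) h
      omega
  refine ⟨h4.trans h3, ?_⟩
  rcases lt_trichotomy (v e) (v e') with h' | h' | h'
  · exact h'
  · have := h.iv e e' hq h'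
    rw [this] at hl
    exact absurd hl (lt_irrefl _)
  · exact absurd h' (fun h' => h.ax.c1 (p e') e e' (by rw [h1, hq]) hq h4 h3 h')

theorem Lev.a3 (h : Cen q u v) (L : Lev q u v lv p) {g e : E} (hq : q g = q e + 1)
    (hl : u e < v g) : lv e ≤ lv g + 1 := by
  by_contra hc
  push Not at hc
  have h0 : 0 < lv e := by omega
  have h1 := L.pq e h0
  have h2 := L.pl e h0
  have h3 := L.pv e h0
  have h4 := (L.a1 h (e := g) (e' := p e) (by rw [hq, h1]) (by omega)).2
  linarith

theorem Lev.a5 (h : Cen q u v) (L : Lev q u v lv p) {e e' : E} (hq : q e = q e')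
    (hl : lv e = lv e') (h0 : 0 < lv e) (hv : v (p e) < v (p e')) :
    u e < v (p e') ∧ v (p e') < u e' ∧ v e < v e' := by
  have h0' : 0 < lv e' := by omega
  have h1 := L.pq e' h0'
  have h2 := L.pl e' h0'
  have h3 := L.pv e' h0'
  have h4 : u e < v (p e') := by
    rcases lt_trichotomy (u e) (v (p e')) with h | h | h
    · exact h
    · exact absurd h.symm (Cen.iuv ‹Cen q u v› (p e') e (by rw [h1, hq]))
    · have := L.pm e (p e') h0 (by rw [h1, hq]) (by omega) h
      linarith
  refine ⟨h4, h3, ?_⟩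
  rcases lt_trichotomy (v e) (v e') with h' | h' | h'
  · exact h'
  · have := h.iv e e' hq h'
    rw [this] at hv
    exact absurd hv (lt_irrefl _)
  · exact absurd h' (fun h' => h.ax.c1 (p e') e e' (by rw [h1, hq]) hq h4 h3 h')

/-- Two elements in the same cell. -/
def SC (q : E → ZMod 4) (lv : E → ℕ) (p : E → E) (e e' : E) : Prop :=
  q e = q e' ∧ lv e = lv e' ∧ (0 < lv e → p e = p e')

theorem SC.refl (e : E) : SC q lv p e e := ⟨rfl, rfl, fun _ => rfl⟩

theorem SC.symm {e e' : E} (h : SC q lv p e e') : SC q lv p e' e :=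
  ⟨h.1.symm, h.2.1.symm, fun h0 => (h.2.2 (by rw [h.2.1]; exact h0)).symm⟩

theorem SC.trans {e e' e'' : E} (h : SC q lv p e e') (h' : SC q lv p e' e'') :
    SC q lv p e e'' :=
  ⟨h.1.trans h'.1, h.2.1.trans h'.2.1, fun h0 => (h.2.2 h0).trans
    (h'.2.2 (by rw [← h.2.1]; exact h0))⟩

/-- Compatible local data on cells. -/
structure Loc (q : E → ZMod 4) (u v : E → ℚ) (lv : E → ℕ) (p : E → E)
    (us vs l : E → ℚ) : Prop where
  la : ∀ g g', SC q lv p g g' → v g < v g' → l g < vs g'
  lb : ∀ g, vs g < l g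
  lc : ∀ g g', SC q lv p g g' → u g < u g' → us g < us g'
  ld : ∀ g, 0 < us g

/-- Prefixes, by level. -/
def preN (N0 : ℕ) (base : ZMod 4 → ℕ → ℚ) (q : E → ZMod 4) (p : E → E) (l : E → ℚ) :
    ℕ → E → ℕ → ℚ
  | 0, e => base (q e)
  | n + 1, e => Function.update (preN N0 base q p l n (p e)) (N0 + n) (l (p e))

/-- The prefix of an element. -/
def pre (N0 : ℕ) (base : ZMod 4 → ℕ → ℚ) (q : E → ZMod 4) (lv : E → ℕ) (p : E → E)
    (l : E → ℚ) (e : E) : ℕ → ℚ :=
  preN N0 base q p l (lv e) e

variable {N0 : ℕ} {base : ZMod 4 → ℕ → ℚ} {us vs l : E → ℚ}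

theorem pre_zero {e : E} (h : lv e = 0) : pre N0 base q lv p l e = base (q e) := by
  unfold pre
  rw [h]
  rfl

theorem pre_succ (L : Lev q u v lv p) {e : E} (h : 0 < lv e) :
    pre N0 base q lv p l e =
      Function.update (pre N0 base q lv p l (p e)) (N0 + lv (p e)) (l (p e)) := by
  unfold pre
  have := L.pl e h
  rw [← this]
  rfl

theorem pre_supp (L : Lev q u v lv p) (hb : ∀ i j, N0 ≤ j → base i j = 0) :
    ∀ (n : ℕ) (e : E), lv e = n → ∀ j, N0 + lv e ≤ j → pre N0 base q lv p l e j = 0 := by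
  intro n
  induction n with
  | zero =>
    intro e he j hj
    rw [pre_zero he]
    exact hb _ _ (by omega)
  | succ n ih =>
    intro e he j hj
    have h0 : 0 < lv e := by omega
    have h1 := L.pl e h0
    rw [pre_succ L h0, Function.update_of_ne (by omega)]
    exact ih (p e) (by omega) j (by omega)

theorem pre_supp' (L : Lev q u v lv p) (hb : ∀ i j, N0 ≤ j → base i j = 0) (e : E) :
    ∀ j, N0 + lv e ≤ j → pre N0 base q lv p l e j = 0 :=
  pre_supp L hb (lv e) e rfl

theorem pre_SC (L : Lev q u v lv p) {e e' : E} (h : SC q lv p e e') :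
    pre N0 base q lv p l e = pre N0 base q lv p l e' := by
  by_cases h0 : 0 < lv e
  · rw [pre_succ L h0, pre_succ L (e := e') (by rw [← h.2.1]; exact h0), h.2.2 h0]
  · have h1 : lv e = 0 := by omega
    rw [pre_zero h1, pre_zero (e := e') (by rw [← h.2.1]; exact h1), h.1]

theorem pre_mono (h : Cen q u v) (L : Lev q u v lv p) (hb : ∀ i j, N0 ≤ j → base i j = 0)
    (D : Loc q u v lv p us vs l) : ∀ (n : ℕ) (g g' : E), lv g = n → q g = q g' →
    lv g = lv g' → v g < v g' → (SC q lv p g g' ∨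
      toLex (pre N0 base q lv p l g) < toLex (pre N0 base q lv p l g')) := by
  intro n
  induction n with
  | zero =>
    intro g g' hn hq hl hv
    left
    exact ⟨hq, hl, fun h0 => by omega⟩
  | succ n ih =>
    intro g g' hn hq hl hv
    have h0 : 0 < lv g := by omega
    have h0' : 0 < lv g' := by omega
    by_cases hp : p g = p g'
    · left
      exact ⟨hq, hl, fun _ => hp⟩
    · right
      have q1 : q (p g) = q (p g') := by rw [L.pq g h0, L.pq g' h0', hq]
      have l1 : lv (p g) + 1 = lv g := L.pl g h0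
      have l2 : lv (p g') + 1 = lv g' := L.pl g' h0'
      have hv' : v (p g) < v (p g') := by
        rcases lt_trichotomy (v (p g)) (v (p g')) with h' | h' | h'
        · exact h'
        · exact absurd (h.iv _ _ q1 h') hp
        · have := (L.a5 h hq.symm hl.symm h0' h').2.2
          linarith
      rw [pre_succ L h0, pre_succ L h0', show lv (p g') = lv (p g) by omega,
        upd_lt (pre_supp' L hb _) (by
          have := pre_supp' (l := l) L hb (p g')
          rwa [show lv (p g') = lv (p g) by omega] at this)]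
      rcases ih (p g) (p g') (by omega) q1 (by omega) hv' with hs | hs
      · right
        exact ⟨pre_SC L hs, (D.la _ _ hs hv').trans (D.lb _)⟩ 
      · left
        exact hs

theorem pre_inj (h : Cen q u v) (L : Lev q u v lv p) (hb : ∀ i j, N0 ≤ j → base i j = 0)
    (D : Loc q u v lv p us vs l) {g g' : E} (hq : q g = q g') (hl : lv g = lv g')
    (hp : pre N0 base q lv p l g = pre N0 base q lv p l g') : SC q lv p g g' := by
  rcases lt_trichotomy (v g) (v g') with h' | h' | h'
  · rcases pre_mono h L hb D (lv g) g g' rfl hq hl h' with hs | hs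
    · exact hs
    · rw [hp] at hs
      exact absurd hs (lt_irrefl _)
  · rw [h.iv g g' hq h']
    exact SC.refl _
  · rcases pre_mono h L hb D (lv g') g' g rfl hq.symm hl.symm h' with hs | hs
    · exact hs.symm
    · rw [hp] at hs
      exact absurd hs (lt_irrefl _)

theorem pre_mono_u (h : Cen q u v) (L : Lev q u v lv p) (hb : ∀ i j, N0 ≤ j → base i j = 0)
    (D : Loc q u v lv p us vs l) {g g' : E} (hq : q g = q g') (hl : lv g = lv g')
    (hu : u g < u g') : (SC q lv p g g' ∨
      toLex (pre N0 base q lv p l g) < toLex (pre N0 base q lv p l g')) := by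
  by_cases h0 : 0 < lv g
  · by_cases hp : p g = p g'
    · exact Or.inl ⟨hq, hl, fun _ => hp⟩
    · have h0' : 0 < lv g' := by omega
      have q1 : q (p g) = q (p g') := by rw [L.pq g h0, L.pq g' h0', hq]
      have hv' : v (p g) < v (p g') := by
        rcases lt_trichotomy (v (p g)) (v (p g')) with h' | h' | h'
        · exact h'
        · exact absurd (h.iv _ _ q1 h') hp
        · have := L.a5 h hq.symm hl.symm h0' h'
          linarith [this.1, this.2.1]
      exact pre_mono h L hb D _ g g' rfl hq hl (L.a5 h hq hl h0 hv').2.2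
  · exact Or.inl ⟨hq, hl, fun h1 => absurd h1 h0⟩

/-- The `u` address of an element. -/
def aU (N0 : ℕ) (base : ZMod 4 → ℕ → ℚ) (q : E → ZMod 4) (lv : E → ℕ) (p : E → E)
    (us l : E → ℚ) : E → Adr :=
  adrU (fun e => N0 + lv e) (pre N0 base q lv p l) us

/-- The `v` address of an element. -/
def aV (N0 : ℕ) (base : ZMod 4 → ℕ → ℚ) (q : E → ZMod 4) (lv : E → ℕ) (p : E → E)
    (vs l : E → ℚ) : E → Adr :=
  adrV (fun e => N0 + lv e) (pre N0 base q lv p l) vs

theorem aV_lt (h : Cen q u v) (L : Lev q u v lv p) (hb : ∀ i j, N0 ≤ j → base i j = 0)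
    (D : Loc q u v lv p us vs l) {e e' : E} (hq : q e = q e') (hv : v e < v e') :
    aV N0 base q lv p vs l e < aV N0 base q lv p vs l e' := by
  unfold aV
  rw [adrV_lt (pre_supp' L hb)]
  have hle : lv e ≤ lv e' := by
    by_contra hc
    push Not at hc
    have := (L.a1 h hq.symm hc).2
    linarith
  rcases hle.lt_or_eq with hl | hl
  · left
    unfold adrP
    beta_reduce
    rw [val_lt]
    left
    omega
  · rcases pre_mono h L hb D _ e e' rfl hq hl hv with hs | hs
    · right
      refine ⟨?_, (D.lb e).trans (D.la e e' hs hv)⟩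
      unfold adrP
      beta_reduce
      rw [hl, pre_SC L hs]
    · left
      unfold adrP
      beta_reduce
      rw [val_lt]
      right
      exact ⟨by omega, hs⟩

theorem aU_lt (h : Cen q u v) (L : Lev q u v lv p) (hb : ∀ i j, N0 ≤ j → base i j = 0)
    (D : Loc q u v lv p us vs l) {e e' : E} (hq : q e = q e') (hu : u e < u e') :
    aU N0 base q lv p us l e < aU N0 base q lv p us l e' := by
  unfold aU
  rw [adrU_lt (pre_supp' L hb)]
  have hle : lv e ≤ lv e' := by
    by_contra hc
    push Not at hc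
    have := (L.a1 h hq.symm hc).1
    linarith
  rcases hle.lt_or_eq with hl | hl
  · left
    unfold adrP
    beta_reduce
    rw [val_lt]
    left
    omega
  · rcases pre_mono_u h L hb D hq hl hu with hs | hs
    · right
      refine ⟨?_, D.lc e e' hs hu⟩
      unfold adrP
      beta_reduce
      rw [hl, pre_SC L hs]
    · left
      unfold adrP
      beta_reduce
      rw [val_lt]
      right
      exact ⟨by omega, hs⟩

theorem aV_lt_aU (h : Cen q u v) (L : Lev q u v lv p) (hb : ∀ i j, N0 ≤ j → base i j = 0)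
    (D : Loc q u v lv p us vs l) {g e : E} (hq : q g = q e + 1) (hv : v g < u e) :
    aV N0 base q lv p vs l g < aU N0 base q lv p us l e := by
  unfold aV aU
  rw [adrV_lt_adrU (pre_supp' L hb) D.ld]
  have h2 := L.a2 g e hq hv
  have h0 : 0 < lv e := by omega
  have p1 := L.pq e h0
  have p2 := L.pl e h0
  have p3 := L.pv e h0
  unfold adrV adrP
  beta_reduce
  rw [val_le]
  rcases h2.lt_or_eq with hl | hl
  · left
    omega
  · right
    refine ⟨by omega, ?_⟩
    rw [pre_succ L h0, show lv (p e) = lv g by omega]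
    have hle := L.pm e g h0 hq hl hv
    have hq' : q g = q (p e) := by rw [hq, p1]
    rcases hle.lt_or_eq with h5 | h5
    · refine le_of_lt ((upd_lt (pre_supp' L hb _) (by
        have := pre_supp' (l := l) L hb (p e)
        rwa [show lv (p e) = lv g by omega] at this)).2 ?_)
      rcases pre_mono h L hb D _ g (p e) rfl hq' (by omega) h5 with hs | hs
      · right
        exact ⟨pre_SC L hs, ((D.lb _).trans (D.la _ _ hs h5)).trans (D.lb _)⟩
      · exact Or.inl hs
    · have h6 := h.iv _ _ hq' h5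
      rw [← h6]
      exact le_of_lt ((upd_lt (pre_supp' L hb _) (pre_supp' L hb _)).2 (Or.inr ⟨rfl, D.lb _⟩))

theorem aU_lt_aV (h : Cen q u v) (L : Lev q u v lv p) (hb : ∀ i j, N0 ≤ j → base i j = 0)
    (D : Loc q u v lv p us vs l) {g e : E} (hq : q g = q e + 1) (hv : u e < v g) :
    aU N0 base q lv p us l e < aV N0 base q lv p vs l g := by
  unfold aV aU
  rw [adrU_lt_adrV (pre_supp' L hb) D.ld]
  have h2 := L.a3 h hq hv
  unfold adrV adrP
  beta_reduce
  rw [val_lt]
  rcases h2.lt_or_eq with hl | hl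
  · left
    omega
  · right
    have h0 : 0 < lv e := by omega
    have p1 := L.pq e h0
    have p2 := L.pl e h0
    have p3 := L.pv e h0
    refine ⟨by omega, ?_⟩
    rw [pre_succ L h0, show lv (p e) = lv g by omega]
    have hq' : q (p e) = q g := by rw [hq, p1]
    have h5 : v (p e) < v g := by linarith
    rw [upd_lt (by
        have := pre_supp' (l := l) L hb (p e)
        rwa [show lv (p e) = lv g by omega] at this) (pre_supp' L hb _)]
    rcases pre_mono h L hb D _ (p e) g rfl hq' (by omega) h5 with hs | hs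
    · right
      exact ⟨pre_SC L hs, D.la _ _ hs h5⟩
    · exact Or.inl hs

end

end Pool.Agent.H47.Amal
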